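import Mathlib

set_option autoImplicit false
open Finset

namespace Pool.Agent.Helper498.NCR

noncomputable section

/-- The average of `F` over the box `[0,N)²`. -/
def bavg (N : ℕ) (F : ℕ → ℕ → ℂ) : ℂ := ((N : ℂ) ^ 2)⁻¹ * ∑ m ∈ range N, ∑ n ∈ range N, F m n

lemma shift_one (a : ℕ → ℂ) (B : ℝ) (ha : ∀ k, ‖a k‖ ≤ B) (N s : ℕ) :
    ‖∑ m ∈ range N, a m - ∑ m ∈ range N, a (m + s)‖ ≤ 2 * s * B := by
  induction s with
  | zero => simp
  | succ s ih =>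
    have h1 : ∑ m ∈ range N, a (m + s) - ∑ m ∈ range N, a (m + (s+1)) = a s - a (N + s) := by
      have := Finset.sum_range_sub' (fun m => a (m + s)) N
      rw [← Finset.sum_sub_distrib]
      simp only [zero_add] at this
      rw [← this]
      refine Finset.sum_congr rfl fun m _ => ?_
      congr 2; ring
    have h2 : ‖a s - a (N + s)‖ ≤ 2 * B := by
      calc ‖a s - a (N + s)‖ ≤ ‖a s‖ + ‖a (N+s)‖ := norm_sub_le _ _
        _ ≤ B + B := add_le_add (ha _) (ha _)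
        _ = 2 * B := by ring
    calc ‖∑ m ∈ range N, a m - ∑ m ∈ range N, a (m + (s+1))‖
        = ‖(∑ m ∈ range N, a m - ∑ m ∈ range N, a (m + s)) +
            (∑ m ∈ range N, a (m + s) - ∑ m ∈ range N, a (m + (s+1)))‖ := by congr 1; ring
      _ ≤ 2 * s * B + 2 * B := (norm_add_le _ _).trans (add_le_add ih (h1 ▸ h2))
      _ = 2 * ((s+1 : ℕ) : ℝ) * B := by push_cast; ring

lemma shift_box (F : ℕ → ℕ → ℂ) (hF : ∀ m n, ‖F m n‖ ≤ 1) (N a b : ℕ) :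
    ‖∑ m ∈ range N, ∑ n ∈ range N, F m n - ∑ m ∈ range N, ∑ n ∈ range N, F (m + a) (n + b)‖
      ≤ 2 * (a + b) * N := by
  have hN : ∀ m, ‖∑ n ∈ range N, F m n‖ ≤ N := by
    intro m
    refine (norm_sum_le _ _).trans ?_
    refine (Finset.sum_le_sum fun n _ => hF m n).trans ?_
    simp
  have h1 := shift_one (fun m => ∑ n ∈ range N, F m n) N hN N a
  have h2 : ‖∑ m ∈ range N, ∑ n ∈ range N, F (m + a) n
      - ∑ m ∈ range N, ∑ n ∈ range N, F (m + a) (n + b)‖ ≤ N * (2 * b * 1) := by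
    rw [← Finset.sum_sub_distrib]
    refine (norm_sum_le _ _).trans ?_
    refine (Finset.sum_le_sum (g := fun _ => (2 * b * 1 : ℝ)) fun m _ => ?_).trans ?_
    · exact shift_one (fun n => F (m + a) n) 1 (fun n => hF _ _) N b
    · simp
  calc ‖∑ m ∈ range N, ∑ n ∈ range N, F m n - ∑ m ∈ range N, ∑ n ∈ range N, F (m + a) (n + b)‖
      = ‖(∑ m ∈ range N, ∑ n ∈ range N, F m n - ∑ m ∈ range N, ∑ n ∈ range N, F (m + a) n)
        + (∑ m ∈ range N, ∑ n ∈ range N, F (m + a) n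
      - ∑ m ∈ range N, ∑ n ∈ range N, F (m + a) (n + b))‖ := by congr 1; ring
    _ ≤ 2 * a * N + N * (2 * b * 1) := (norm_add_le _ _).trans (add_le_add h1 h2)
    _ = 2 * (a + b) * N := by ring

lemma norm_bavg_le (N : ℕ) (F : ℕ → ℕ → ℂ) :
    ‖bavg N F‖ ≤ ((N : ℝ) ^ 2)⁻¹ * ∑ m ∈ range N, ∑ n ∈ range N, ‖F m n‖ := by
  unfold bavg
  rw [norm_mul, norm_inv, norm_pow, Complex.norm_natCast]
  gcongr
  refine (norm_sum_le _ _).trans ?_
  exact Finset.sum_le_sum fun m _ => norm_sum_le _ _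

/-- averaging over shifts changes box averages by little -/
lemma avg_shift (F : ℕ → ℕ → ℂ) (hF : ∀ m n, ‖F m n‖ ≤ 1) (N J B : ℕ) (hN : 1 ≤ N) (hJ : 1 ≤ J)
    (α β : ℕ → ℕ) (hB : ∀ j < J, α j + β j ≤ B) :
    ‖bavg N F - bavg N (fun m n => (J : ℂ)⁻¹ * ∑ j ∈ range J, F (m + α j) (n + β j))‖
      ≤ 2 * B / N := by
  have hN0 : (0 : ℝ) < N := by exact_mod_cast hN
  have hJ0 : (0 : ℝ) < J := by exact_mod_cast hJ
  have hJc : (J : ℂ) ≠ 0 := by exact_mod_cast (by omega : J ≠ 0)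
  have e1 : bavg N (fun m n => (J : ℂ)⁻¹ * ∑ j ∈ range J, F (m + α j) (n + β j))
      = ((N : ℂ) ^ 2)⁻¹ * ((J : ℂ)⁻¹ * ∑ j ∈ range J,
          ∑ m ∈ range N, ∑ n ∈ range N, F (m + α j) (n + β j)) := by
    unfold bavg
    congr 1
    simp_rw [← Finset.mul_sum]
    congr 1
    calc ∑ m ∈ range N, ∑ n ∈ range N, ∑ j ∈ range J, F (m + α j) (n + β j)
        = ∑ m ∈ range N, ∑ j ∈ range J, ∑ n ∈ range N, F (m + α j) (n + β j) :=
          Finset.sum_congr rfl fun m _ => Finset.sum_comm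
      _ = ∑ j ∈ range J, ∑ m ∈ range N, ∑ n ∈ range N, F (m + α j) (n + β j) :=
          Finset.sum_comm
  have e2 : bavg N F = ((N : ℂ) ^ 2)⁻¹ * ((J : ℂ)⁻¹ * ∑ j ∈ range J,
          ∑ m ∈ range N, ∑ n ∈ range N, F m n) := by
    unfold bavg
    rw [Finset.sum_const, card_range, nsmul_eq_mul, inv_mul_cancel_left₀ hJc]
  rw [e1, e2, ← mul_sub, ← mul_sub, ← Finset.sum_sub_distrib, norm_mul, norm_mul, norm_inv,
    norm_inv, norm_pow, Complex.norm_natCast, Complex.norm_natCast]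
  have h3 : ‖∑ j ∈ range J, (∑ m ∈ range N, ∑ n ∈ range N, F m n -
      ∑ m ∈ range N, ∑ n ∈ range N, F (m + α j) (n + β j))‖ ≤ J * (2 * B * N) := by
    refine (norm_sum_le _ _).trans ?_
    refine (Finset.sum_le_sum (g := fun _ => (2 * B * N : ℝ)) fun j hj => ?_).trans ?_
    · refine (shift_box F hF N (α j) (β j)).trans ?_
      have : ((α j : ℝ) + β j) ≤ B := by exact_mod_cast hB j (mem_range.1 hj)
      gcongr
    · simp
  calc ((N : ℝ) ^ 2)⁻¹ * ((J : ℝ)⁻¹ * _) ≤ ((N : ℝ) ^ 2)⁻¹ * ((J : ℝ)⁻¹ * (J * (2 * B * N))) := by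
        gcongr
    _ = 2 * B / N := by field_simp

lemma sq_avg_le (N : ℕ) (G : ℕ → ℕ → ℝ) :
    (((N : ℝ) ^ 2)⁻¹ * ∑ m ∈ range N, ∑ n ∈ range N, G m n) ^ 2
      ≤ ((N : ℝ) ^ 2)⁻¹ * ∑ m ∈ range N, ∑ n ∈ range N, (G m n) ^ 2 := by
  rcases Nat.eq_zero_or_pos N with h | h
  · subst h; simp
  have hN0 : (0 : ℝ) < N := by exact_mod_cast h
  have := sq_sum_le_card_mul_sum_sq (s := range N ×ˢ range N) (f := fun p => G p.1 p.2)
  rw [Finset.sum_product, Finset.sum_product, card_product, card_range] at this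
  rw [mul_pow]
  calc _ ≤ (((N : ℝ) ^ 2)⁻¹) ^ 2 * (((N * N : ℕ) : ℝ) * ∑ m ∈ range N, ∑ n ∈ range N, (G m n) ^ 2) := by
        gcongr
    _ = _ := by push_cast; field_simp

/-- The deterministic van der Corput inequality. -/
theorem det_ineq (φ ψ χ : ℕ → ℕ → ℕ) (H J : ℕ) (hH : 1 ≤ H) (hJ : 1 ≤ J)
    (α₁ β₁ q : ℕ → ℕ) (c s cχ : ℕ) (α₂ β₂ : ℕ → ℕ) (c₂ cψ B₁ B₂ : ℕ)
    (hB₁ : ∀ h < H, α₁ h + β₁ h ≤ B₁) (hB₂ : ∀ j < J, α₂ j + β₂ j ≤ B₂)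
    (hφ₁ : ∀ h < H, ∀ m n, φ (m + α₁ h) (n + β₁ h) = φ m n + c + s * h)
    (hψ₁ : ∀ h < H, ∀ m n, ψ (m + α₁ h) (n + β₁ h) = ψ m n + q h)
    (hχ₁ : ∀ h < H, ∀ m n, χ (m + α₁ h) (n + β₁ h) = χ m n + cχ)
    (hφ₂ : ∀ j < J, ∀ m n, φ (m + α₂ j) (n + β₂ j) = φ m n + c₂ + j)
    (hψ₂ : ∀ j < J, ∀ m n, ψ (m + α₂ j) (n + β₂ j) = ψ m n + cψ)
    (a u v : ℕ → ℂ) (ha : ∀ k, ‖a k‖ ≤ 1) (hu : ∀ k, ‖u k‖ ≤ 1) (hv : ∀ k, ‖v k‖ ≤ 1)
    (N : ℕ) (hN : 1 ≤ N) :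
    ‖bavg N (fun m n => a (φ m n) * u (ψ m n) * v (χ m n))‖ ^ 2
      ≤ 2 * (2 * B₁ / N) ^ 2 + 2 * (((H : ℝ) ^ 2)⁻¹ * ∑ h ∈ range H, ∑ h' ∈ range H,
          (((N : ℝ) ^ 2)⁻¹ * ∑ m ∈ range N, ∑ n ∈ range N,
            ‖(J : ℂ)⁻¹ * ∑ j ∈ range J, a (φ m n + (c₂ + c) + (s * h + j)) *
              (starRingEnd ℂ) (a (φ m n + (c₂ + c) + (s * h' + j)))‖ + 2 * B₂ / N)) := by
  have hN0 : (0 : ℝ) < N := by exact_mod_cast hN
  have hH0 : (0 : ℝ) < H := by exact_mod_cast hH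
  set Φ : ℕ → ℕ → ℂ := fun m n => a (φ m n) * u (ψ m n) * v (χ m n) with hΦ
  have hΦ1 : ∀ m n, ‖Φ m n‖ ≤ 1 := by
    intro m n
    simp only [hΦ, norm_mul]
    have := mul_le_mul (mul_le_mul (ha (φ m n)) (hu (ψ m n)) (norm_nonneg _) zero_le_one)
      (hv (χ m n)) (norm_nonneg _) (by norm_num)
    simpa using this
  set X : ℕ → ℕ → ℂ := fun m n => (H : ℂ)⁻¹ * ∑ h ∈ range H,
    a (φ m n + c + s * h) * u (ψ m n + q h) with hX
  -- first shift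
  have s1 := avg_shift Φ hΦ1 N H B₁ hN hH α₁ β₁ hB₁
  have e1 : (fun m n => (H : ℂ)⁻¹ * ∑ h ∈ range H, Φ (m + α₁ h) (n + β₁ h))
      = fun m n => v (χ m n + cχ) * X m n := by
    funext m n
    simp only [hΦ, hX]
    rw [mul_left_comm, Finset.mul_sum (range H) _ (v _)]
    congr 1
    refine Finset.sum_congr rfl fun h hh => ?_
    rw [hφ₁ h (mem_range.1 hh), hψ₁ h (mem_range.1 hh), hχ₁ h (mem_range.1 hh)]
    ring
  rw [e1] at s1
  have s2 : ‖bavg N (fun m n => v (χ m n + cχ) * X m n)‖ ≤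
      ((N : ℝ) ^ 2)⁻¹ * ∑ m ∈ range N, ∑ n ∈ range N, ‖X m n‖ := by
    refine (norm_bavg_le _ _).trans ?_
    gcongr with m _ n _
    rw [norm_mul]
    exact mul_le_of_le_one_left (norm_nonneg _) (hv _)
  have s3 : ‖bavg N (fun m n => v (χ m n + cχ) * X m n)‖ ^ 2 ≤
      ((N : ℝ) ^ 2)⁻¹ * ∑ m ∈ range N, ∑ n ∈ range N, ‖X m n‖ ^ 2 :=
    (pow_le_pow_left₀ (norm_nonneg _) s2 2).trans (sq_avg_le N _)
  -- expand the square
  set Ψ : ℕ → ℕ → ℕ → ℕ → ℂ := fun h h' m n =>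
    (a (φ m n + c + s * h) * (starRingEnd ℂ) (a (φ m n + c + s * h'))) *
      (u (ψ m n + q h) * (starRingEnd ℂ) (u (ψ m n + q h'))) with hΨ
  have e2 : (((((N : ℝ) ^ 2)⁻¹ * ∑ m ∈ range N, ∑ n ∈ range N, ‖X m n‖ ^ 2 : ℝ)) : ℂ)
      = ((H : ℂ) ^ 2)⁻¹ * ∑ h ∈ range H, ∑ h' ∈ range H, bavg N (Ψ h h') := by
    have hx : ∀ m n, ((‖X m n‖ ^ 2 : ℝ) : ℂ) =
        ((H : ℂ) ^ 2)⁻¹ * ∑ h ∈ range H, ∑ h' ∈ range H, Ψ h h' m n := by
      intro m n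
      have : ((‖X m n‖ ^ 2 : ℝ) : ℂ) = X m n * (starRingEnd ℂ) (X m n) := by
        rw [Complex.mul_conj, Complex.normSq_eq_norm_sq]
      rw [this]
      simp only [hX, hΨ, map_mul, map_inv₀, map_sum, Complex.conj_natCast]
      rw [mul_mul_mul_comm, Finset.sum_mul_sum]
      congr 1
      · rw [sq, mul_inv]
      · refine Finset.sum_congr rfl fun h _ => Finset.sum_congr rfl fun h' _ => ?_
        ring
    push_cast
    simp_rw [← Complex.ofReal_pow, hx, bavg, ← Finset.mul_sum]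
    rw [mul_left_comm]
    congr 2
    calc ∑ m ∈ range N, ∑ n ∈ range N, ∑ h ∈ range H, ∑ h' ∈ range H, Ψ h h' m n
        = ∑ m ∈ range N, ∑ h ∈ range H, ∑ n ∈ range N, ∑ h' ∈ range H, Ψ h h' m n :=
          Finset.sum_congr rfl fun m _ => Finset.sum_comm
      _ = ∑ h ∈ range H, ∑ m ∈ range N, ∑ n ∈ range N, ∑ h' ∈ range H, Ψ h h' m n :=
          Finset.sum_comm
      _ = ∑ h ∈ range H, ∑ m ∈ range N, ∑ h' ∈ range H, ∑ n ∈ range N, Ψ h h' m n :=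
          Finset.sum_congr rfl fun h _ => Finset.sum_congr rfl fun m _ => Finset.sum_comm
      _ = ∑ h ∈ range H, ∑ h' ∈ range H, ∑ m ∈ range N, ∑ n ∈ range N, Ψ h h' m n :=
          Finset.sum_congr rfl fun h _ => Finset.sum_comm
  have s4 : ((N : ℝ) ^ 2)⁻¹ * ∑ m ∈ range N, ∑ n ∈ range N, ‖X m n‖ ^ 2 ≤
      ((H : ℝ) ^ 2)⁻¹ * ∑ h ∈ range H, ∑ h' ∈ range H, ‖bavg N (Ψ h h')‖ := by
    have hnn : 0 ≤ ((N : ℝ) ^ 2)⁻¹ * ∑ m ∈ range N, ∑ n ∈ range N, ‖X m n‖ ^ 2 := by positivity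
    have h0 : ((N : ℝ) ^ 2)⁻¹ * ∑ m ∈ range N, ∑ n ∈ range N, ‖X m n‖ ^ 2
        = ‖((((N : ℝ) ^ 2)⁻¹ * ∑ m ∈ range N, ∑ n ∈ range N, ‖X m n‖ ^ 2 : ℝ) : ℂ)‖ := by
      rw [Complex.norm_real, Real.norm_of_nonneg hnn]
    rw [h0, e2, norm_mul, norm_inv, norm_pow, Complex.norm_natCast]
    gcongr
    refine (norm_sum_le _ _).trans ?_
    exact Finset.sum_le_sum fun h _ => norm_sum_le _ _
  have s5 : ∀ h ∈ range H, ∀ h' ∈ range H, ‖bavg N (Ψ h h')‖ ≤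
      ((N : ℝ) ^ 2)⁻¹ * ∑ m ∈ range N, ∑ n ∈ range N,
            ‖(J : ℂ)⁻¹ * ∑ j ∈ range J, a (φ m n + (c₂ + c) + (s * h + j)) *
              (starRingEnd ℂ) (a (φ m n + (c₂ + c) + (s * h' + j)))‖ + 2 * B₂ / N := by
    intro h _ h' _
    have hΨ1 : ∀ m n, ‖Ψ h h' m n‖ ≤ 1 := by
      intro m n
      simp only [hΨ, norm_mul, RCLike.norm_conj]
      have A := mul_le_mul (ha (φ m n + c + s * h)) (ha (φ m n + c + s * h')) (norm_nonneg _)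
        zero_le_one
      have A' := mul_le_mul (hu (ψ m n + q h)) (hu (ψ m n + q h')) (norm_nonneg _)
        zero_le_one
      have := mul_le_mul A A' (by positivity) (by norm_num)
      simpa using this
    have t1 := avg_shift (Ψ h h') hΨ1 N J B₂ hN hJ α₂ β₂ hB₂
    have e3 : (fun m n => (J : ℂ)⁻¹ * ∑ j ∈ range J, Ψ h h' (m + α₂ j) (n + β₂ j))
        = fun m n => (u (ψ m n + cψ + q h) * (starRingEnd ℂ) (u (ψ m n + cψ + q h'))) *
          ((J : ℂ)⁻¹ * ∑ j ∈ range J, a (φ m n + (c₂ + c) + (s * h + j)) *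
              (starRingEnd ℂ) (a (φ m n + (c₂ + c) + (s * h' + j)))) := by
      funext m n
      rw [mul_left_comm, Finset.mul_sum (range J) _ (_ * _)]
      congr 1
      refine Finset.sum_congr rfl fun j hj => ?_
      simp only [hΨ]
      rw [hφ₂ j (mem_range.1 hj), hψ₂ j (mem_range.1 hj)]
      have x1 : φ m n + c₂ + j + c + s * h = φ m n + (c₂ + c) + (s * h + j) := by ring
      have x2 : φ m n + c₂ + j + c + s * h' = φ m n + (c₂ + c) + (s * h' + j) := by ring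
      rw [x1, x2]
      ring
    rw [e3] at t1
    have t2 : ‖bavg N (fun m n => (u (ψ m n + cψ + q h) *
        (starRingEnd ℂ) (u (ψ m n + cψ + q h'))) *
          ((J : ℂ)⁻¹ * ∑ j ∈ range J, a (φ m n + (c₂ + c) + (s * h + j)) *
              (starRingEnd ℂ) (a (φ m n + (c₂ + c) + (s * h' + j)))))‖ ≤
      ((N : ℝ) ^ 2)⁻¹ * ∑ m ∈ range N, ∑ n ∈ range N,
            ‖(J : ℂ)⁻¹ * ∑ j ∈ range J, a (φ m n + (c₂ + c) + (s * h + j)) *
              (starRingEnd ℂ) (a (φ m n + (c₂ + c) + (s * h' + j)))‖ := by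
      refine (norm_bavg_le _ _).trans ?_
      gcongr with m _ n _
      rw [norm_mul]
      refine mul_le_of_le_one_left (norm_nonneg _) ?_
      rw [norm_mul, RCLike.norm_conj]
      have := mul_le_mul (hu (ψ m n + cψ + q h)) (hu (ψ m n + cψ + q h')) (norm_nonneg _)
        zero_le_one
      simpa using this
    have t3 := norm_sub_norm_le (bavg N (Ψ h h')) (bavg N (fun m n => (u (ψ m n + cψ + q h) *
        (starRingEnd ℂ) (u (ψ m n + cψ + q h'))) *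
          ((J : ℂ)⁻¹ * ∑ j ∈ range J, a (φ m n + (c₂ + c) + (s * h + j)) *
              (starRingEnd ℂ) (a (φ m n + (c₂ + c) + (s * h' + j))))))
    linarith
  have s6 : ‖bavg N Φ‖ ≤ 2 * B₁ / N + ‖bavg N (fun m n => v (χ m n + cχ) * X m n)‖ := by
    have := norm_sub_norm_le (bavg N Φ) (bavg N (fun m n => v (χ m n + cχ) * X m n))
    linarith
  have s7 : ‖bavg N Φ‖ ^ 2 ≤ 2 * (2 * B₁ / N) ^ 2 +
      2 * ‖bavg N (fun m n => v (χ m n + cχ) * X m n)‖ ^ 2 := by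
    have h1 := pow_le_pow_left₀ (norm_nonneg _) s6 2
    nlinarith [sq_nonneg (2 * B₁ / N - ‖bavg N (fun m n => v (χ m n + cχ) * X m n)‖ : ℝ)]
  refine s7.trans ?_
  gcongr
  refine s3.trans (s4.trans ?_)
  gcongr with h hh h' hh'
  exact s5 h hh h' hh'

end

end Pool.Agent.Helper498.NCR
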