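import Mathlib
import Pool.Agent.Helper498.NCR.VdC

set_option autoImplicit false
open Finset MeasureTheory

namespace Pool.Agent.Helper498.NCR

noncomputable section

variable {Ω : Type*} [MeasurableSpace Ω]

/-- The correlation condition used in the van der Corput argument. -/
def Ctrl (μ : Measure Ω) (T : Ω → Ω) (g : Ω → ℂ) (s : ℕ) : Prop :=
  ∀ ε > (0 : ℝ), ∃ H J : ℕ, 1 ≤ H ∧ 1 ≤ J ∧
    ((H : ℝ) ^ 2)⁻¹ * ∑ h ∈ range H, ∑ h' ∈ range H,
      ∫ x, ‖(J : ℂ)⁻¹ * ∑ j ∈ range J, g (T^[s * h + j] x) *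
        (starRingEnd ℂ) (g (T^[s * h' + j] x))‖ ∂μ ≤ ε

lemma integral_comp_mp {μ : Measure Ω} {T : Ω → Ω} (hT : MeasurePreserving T μ μ)
    {F : Ω → ℝ} (hF : Measurable F) : ∫ x, F (T x) ∂μ = ∫ x, F x ∂μ := by
  have h := integral_map (μ := μ) (φ := T) hT.measurable.aemeasurable (f := F)
    hF.aestronglyMeasurable
  rw [hT.map_eq] at h
  exact h.symm

lemma integrable_of_bdd {μ : Measure Ω} [IsFiniteMeasure μ] {F : Ω → ℝ} (hF : Measurable F)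
    (C : ℝ) (hC : ∀ x, ‖F x‖ ≤ C) : Integrable F μ :=
  Integrable.of_bound hF.aestronglyMeasurable C (Filter.Eventually.of_forall hC)

lemma norm_bavg_le_one (N : ℕ) (F : ℕ → ℕ → ℂ) (hF : ∀ m n, ‖F m n‖ ≤ 1) :
    ‖bavg N F‖ ≤ 1 := by
  refine (norm_bavg_le N F).trans ?_
  rcases Nat.eq_zero_or_pos N with h | h
  · subst h; simp
  have hN0 : (0 : ℝ) < N := by exact_mod_cast h
  calc ((N : ℝ) ^ 2)⁻¹ * ∑ m ∈ range N, ∑ n ∈ range N, ‖F m n‖
      ≤ ((N : ℝ) ^ 2)⁻¹ * ∑ m ∈ range N, ∑ n ∈ range N, (1 : ℝ) := by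
        gcongr with m _ n _; exact hF m n
    _ = 1 := by simp; field_simp

theorem control_abs {μ : Measure Ω} [IsProbabilityMeasure μ] {T : Ω → Ω}
    (hT : MeasurePreserving T μ μ) {g : Ω → ℂ} (hg : Measurable g) (hg1 : ∀ x, ‖g x‖ ≤ 1)
    (s : ℕ) (hC : Ctrl μ T g s) (φ ψ χ : ℕ → ℕ → ℕ)
    (hs1 : ∀ H : ℕ, ∃ (α₁ β₁ q : ℕ → ℕ) (c cχ B₁ : ℕ), (∀ h < H, α₁ h + β₁ h ≤ B₁) ∧
      (∀ h < H, ∀ m n, φ (m + α₁ h) (n + β₁ h) = φ m n + c + s * h) ∧
      (∀ h < H, ∀ m n, ψ (m + α₁ h) (n + β₁ h) = ψ m n + q h) ∧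
      (∀ h < H, ∀ m n, χ (m + α₁ h) (n + β₁ h) = χ m n + cχ))
    (hs2 : ∀ J : ℕ, ∃ (α₂ β₂ : ℕ → ℕ) (c₂ cψ B₂ : ℕ), (∀ j < J, α₂ j + β₂ j ≤ B₂) ∧
      (∀ j < J, ∀ m n, φ (m + α₂ j) (n + β₂ j) = φ m n + c₂ + j) ∧
      (∀ j < J, ∀ m n, ψ (m + α₂ j) (n + β₂ j) = ψ m n + cψ)) :
    ∀ ε > (0 : ℝ), ∃ N₀ : ℕ, ∀ N ≥ N₀, ∀ (u v : ℕ → Ω → ℂ),
      (∀ k, Measurable (u k)) → (∀ k x, ‖u k x‖ ≤ 1) →
      (∀ k, Measurable (v k)) → (∀ k x, ‖v k x‖ ≤ 1) →
      ∫ x, ‖bavg N (fun m n => g (T^[φ m n] x) * u (ψ m n) x * v (χ m n) x)‖ ^ 2 ∂μ ≤ ε := by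
  intro ε hε
  obtain ⟨H, J, hH, hJ, hHJ⟩ := hC (ε / 8) (by positivity)
  obtain ⟨α₁, β₁, q, c, cχ, B₁, hB₁, hφ₁, hψ₁, hχ₁⟩ := hs1 H
  obtain ⟨α₂, β₂, c₂, cψ, B₂, hB₂, hφ₂, hψ₂⟩ := hs2 J
  -- choose N₀
  have lim1 : Filter.Tendsto (fun N : ℕ => 2 * (2 * (B₁ : ℝ) / N) ^ 2) Filter.atTop (nhds 0) := by
    have : Filter.Tendsto (fun N : ℕ => 2 * (B₁ : ℝ) / N) Filter.atTop (nhds 0) :=
      tendsto_const_div_atTop_nhds_zero_nat _
    simpa using (this.pow 2).const_mul 2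
  have lim2 : Filter.Tendsto (fun N : ℕ => 2 * (B₂ : ℝ) / N) Filter.atTop (nhds 0) :=
    tendsto_const_div_atTop_nhds_zero_nat _
  have ev1 := (lim1.eventually (gt_mem_nhds (show (0 : ℝ) < ε / 4 by positivity)))
  have ev2 := (lim2.eventually (gt_mem_nhds (show (0 : ℝ) < ε / 8 by positivity)))
  obtain ⟨N₁, hN₁⟩ := Filter.eventually_atTop.1 (ev1.and ev2)
  refine ⟨max N₁ 1, fun N hN u v hu hu1 hv hv1 => ?_⟩
  have hN1 : 1 ≤ N := le_trans (le_max_right _ _) hN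
  obtain ⟨hb1, hb2⟩ := hN₁ N (le_trans (le_max_left _ _) hN)
  have hN0 : (0 : ℝ) < N := by exact_mod_cast hN1
  have hH0 : (0 : ℝ) < H := by exact_mod_cast hH
  -- the local averages
  set D : ℕ → ℕ → Ω → ℝ := fun h h' y => ‖(J : ℂ)⁻¹ * ∑ j ∈ range J, g (T^[s * h + j] y) *
        (starRingEnd ℂ) (g (T^[s * h' + j] y))‖ with hD
  have hTm : ∀ k, Measurable (T^[k]) := fun k => hT.measurable.iterate k
  have hgm : ∀ k, Measurable (fun x => g (T^[k] x)) := fun k => hg.comp (hTm k)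
  have hDm : ∀ h h', Measurable (D h h') := by
    intro h h'
    refine Measurable.norm ?_
    refine Measurable.const_mul ?_ _
    refine Finset.measurable_sum _ fun j _ => ?_
    exact (hgm _).mul (Complex.continuous_conj.measurable.comp (hgm _))
  have hD1 : ∀ h h' y, ‖D h h' y‖ ≤ 1 := by
    intro h h' y
    simp only [hD]
    rw [norm_norm, norm_mul, norm_inv, Complex.norm_natCast]
    have hJ0 : (0 : ℝ) < J := by exact_mod_cast hJ
    calc (J : ℝ)⁻¹ * ‖∑ j ∈ range J, g (T^[s * h + j] y) *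
        (starRingEnd ℂ) (g (T^[s * h' + j] y))‖ ≤ (J : ℝ)⁻¹ * ∑ j ∈ range J, (1 : ℝ) := by
          gcongr
          refine (norm_sum_le _ _).trans (Finset.sum_le_sum fun j _ => ?_)
          rw [norm_mul, RCLike.norm_conj]
          simpa using mul_le_mul (hg1 _) (hg1 _) (norm_nonneg _) zero_le_one
      _ = 1 := by simp; field_simp
  have hDint : ∀ h h' k, Integrable (fun x => D h h' (T^[k] x)) μ := fun h h' k =>
    integrable_of_bdd ((hDm h h').comp (hTm k)) 1 fun x => hD1 h h' _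
  have hDinv : ∀ h h' k, ∫ x, D h h' (T^[k] x) ∂μ = ∫ x, D h h' x ∂μ := fun h h' k =>
    integral_comp_mp (hT.iterate k) (hDm h h')
  -- pointwise inequality
  have pt : ∀ x, ‖bavg N (fun m n => g (T^[φ m n] x) * u (ψ m n) x * v (χ m n) x)‖ ^ 2
      ≤ 2 * (2 * B₁ / N) ^ 2 + 2 * (((H : ℝ) ^ 2)⁻¹ * ∑ h ∈ range H, ∑ h' ∈ range H,
          (((N : ℝ) ^ 2)⁻¹ * ∑ m ∈ range N, ∑ n ∈ range N,
            D h h' (T^[φ m n + (c₂ + c)] x) + 2 * B₂ / N)) := by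
    intro x
    have := det_ineq φ ψ χ H J hH hJ α₁ β₁ q c s cχ α₂ β₂ c₂ cψ B₁ B₂ hB₁ hB₂ hφ₁ hψ₁ hχ₁ hφ₂
      hψ₂ (fun k => g (T^[k] x)) (fun k => u k x) (fun k => v k x) (fun k => hg1 _)
      (fun k => hu1 k x) (fun k => hv1 k x) N hN1
    refine this.trans (le_of_eq ?_)
    congr 3
    refine Finset.sum_congr rfl fun h _ => Finset.sum_congr rfl fun h' _ => ?_
    congr 2
    refine Finset.sum_congr rfl fun m _ => Finset.sum_congr rfl fun n _ => ?_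
    simp only [hD]
    congr 2
    refine Finset.sum_congr rfl fun j _ => ?_
    rw [← Function.iterate_add_apply, ← Function.iterate_add_apply,
      add_comm (s * h + j), add_comm (s * h' + j)]
  have hLm : Measurable (fun x => ‖bavg N (fun m n => g (T^[φ m n] x) * u (ψ m n) x *
      v (χ m n) x)‖ ^ 2) := by
    refine (Measurable.norm ?_).pow_const 2
    unfold bavg
    refine Measurable.const_mul ?_ _
    exact Finset.measurable_sum _ fun m _ => Finset.measurable_sum _ fun n _ =>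
      ((hgm _).mul (hu _)).mul (hv _)
  have hL1 : ∀ x, ‖(‖bavg N (fun m n => g (T^[φ m n] x) * u (ψ m n) x *
      v (χ m n) x)‖ ^ 2 : ℝ)‖ ≤ 1 := by
    intro x
    rw [Real.norm_of_nonneg (by positivity)]
    refine pow_le_one₀ (norm_nonneg _) (norm_bavg_le_one N _ fun m n => ?_)
    rw [norm_mul, norm_mul]
    have A := mul_le_mul (mul_le_mul (hg1 (T^[φ m n] x)) (hu1 (ψ m n) x) (norm_nonneg _)
      zero_le_one) (hv1 (χ m n) x) (norm_nonneg _) (by norm_num)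
    simpa using A
  have hRint : Integrable (fun x => 2 * (2 * (B₁ : ℝ) / N) ^ 2 + 2 * (((H : ℝ) ^ 2)⁻¹ *
      ∑ h ∈ range H, ∑ h' ∈ range H, (((N : ℝ) ^ 2)⁻¹ * ∑ m ∈ range N, ∑ n ∈ range N,
            D h h' (T^[φ m n + (c₂ + c)] x) + 2 * B₂ / N))) μ := by
    refine (integrable_const _).add (Integrable.const_mul (Integrable.const_mul ?_ _) _)
    refine integrable_finsetSum _ fun h _ => integrable_finsetSum _ fun h' _ => ?_
    refine Integrable.add (Integrable.const_mul ?_ _) (integrable_const _)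
    exact integrable_finsetSum _ fun m _ => integrable_finsetSum _ fun n _ => hDint _ _ _
  have key := integral_mono (integrable_of_bdd hLm 1 hL1) hRint pt
  refine key.trans ?_
  have hcalc : ∫ x, (2 * (2 * (B₁ : ℝ) / N) ^ 2 + 2 * (((H : ℝ) ^ 2)⁻¹ *
      ∑ h ∈ range H, ∑ h' ∈ range H, (((N : ℝ) ^ 2)⁻¹ * ∑ m ∈ range N, ∑ n ∈ range N,
            D h h' (T^[φ m n + (c₂ + c)] x) + 2 * B₂ / N))) ∂μ
      = 2 * (2 * (B₁ : ℝ) / N) ^ 2 + 2 * (((H : ℝ) ^ 2)⁻¹ *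
      ∑ h ∈ range H, ∑ h' ∈ range H, (∫ x, D h h' x ∂μ + 2 * B₂ / N)) := by
    have i1 : ∀ h h', Integrable (fun x => ((N : ℝ) ^ 2)⁻¹ * ∑ m ∈ range N, ∑ n ∈ range N,
            D h h' (T^[φ m n + (c₂ + c)] x)) μ := fun h h' =>
      Integrable.const_mul (integrable_finsetSum _ fun m _ =>
        integrable_finsetSum _ fun n _ => hDint _ _ _) _
    have i2 : ∀ h h', Integrable (fun x => ((N : ℝ) ^ 2)⁻¹ * ∑ m ∈ range N, ∑ n ∈ range N,
            D h h' (T^[φ m n + (c₂ + c)] x) + 2 * B₂ / N) μ := fun h h' =>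
      (i1 h h').add (integrable_const _)
    rw [integral_add (integrable_const _) (Integrable.const_mul (Integrable.const_mul
      (integrable_finsetSum _ fun h _ => integrable_finsetSum _ fun h' _ => i2 h h') _) _),
      integral_const, integral_const_mul, integral_const_mul,
      integral_finsetSum _ fun h _ => integrable_finsetSum _ fun h' _ => i2 h h']
    simp only [integral_const, probReal_univ, smul_eq_mul, one_mul]
    congr 3
    refine Finset.sum_congr rfl fun h _ => ?_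
    rw [integral_finsetSum _ fun h' _ => i2 h h']
    refine Finset.sum_congr rfl fun h' _ => ?_
    rw [integral_add (i1 h h') (integrable_const _), integral_const_mul,
      integral_finsetSum _ fun m _ => integrable_finsetSum _ fun n _ => hDint _ _ _]
    have : ∀ m ∈ range N, ∫ x, ∑ n ∈ range N, D h h' (T^[φ m n + (c₂ + c)] x) ∂μ
        = N * ∫ x, D h h' x ∂μ := by
      intro m _
      rw [integral_finsetSum _ fun n _ => hDint _ _ _]
      simp only [hDinv, sum_const, card_range, nsmul_eq_mul]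
    rw [Finset.sum_congr rfl this]
    simp only [sum_const, card_range, nsmul_eq_mul, integral_const, probReal_univ, smul_eq_mul,
      one_mul]
    field_simp
  rw [hcalc]
  have h9 : ((H : ℝ) ^ 2)⁻¹ * ∑ h ∈ range H, ∑ h' ∈ range H, (∫ x, D h h' x ∂μ + 2 * B₂ / N)
      = ((H : ℝ) ^ 2)⁻¹ * (∑ h ∈ range H, ∑ h' ∈ range H, ∫ x, D h h' x ∂μ) + 2 * B₂ / N := by
    simp only [Finset.sum_add_distrib, sum_const, card_range, nsmul_eq_mul]
    field_simp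
  rw [h9]
  linarith

section three

variable {μ : Measure Ω} [IsProbabilityMeasure μ] {T : Ω → Ω}

/-- the form `m` -/
theorem control_fst (hT : MeasurePreserving T μ μ) {g : Ω → ℂ} (hg : Measurable g)
    (hg1 : ∀ x, ‖g x‖ ≤ 1) (hC : Ctrl μ T g 2) :
    ∀ ε > (0 : ℝ), ∃ N₀ : ℕ, ∀ N ≥ N₀, ∀ (u v : ℕ → Ω → ℂ),
      (∀ k, Measurable (u k)) → (∀ k x, ‖u k x‖ ≤ 1) →
      (∀ k, Measurable (v k)) → (∀ k x, ‖v k x‖ ≤ 1) →
      ∫ x, ‖bavg N (fun m n => g (T^[m] x) * u (m + n) x * v (m + 2 * n) x)‖ ^ 2 ∂μ ≤ ε := by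
  refine control_abs hT hg hg1 2 hC (fun m _ => m) (fun m n => m + n) (fun m n => m + 2 * n)
    (fun H => ⟨fun h => 2 * h, fun h => H - h, fun h => H + h, 0, 2 * H, 2 * H, ?_, ?_, ?_, ?_⟩)
    (fun J => ⟨fun j => j, fun j => J - j, 0, J, J, ?_, ?_, ?_⟩)
  all_goals intros; (try simp only); (try omega)

/-- the form `m+n` -/
theorem control_snd (hT : MeasurePreserving T μ μ) {g : Ω → ℂ} (hg : Measurable g)
    (hg1 : ∀ x, ‖g x‖ ≤ 1) (hC : Ctrl μ T g 1) :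
    ∀ ε > (0 : ℝ), ∃ N₀ : ℕ, ∀ N ≥ N₀, ∀ (u v : ℕ → Ω → ℂ),
      (∀ k, Measurable (u k)) → (∀ k x, ‖u k x‖ ≤ 1) →
      (∀ k, Measurable (v k)) → (∀ k x, ‖v k x‖ ≤ 1) →
      ∫ x, ‖bavg N (fun m n => g (T^[m + n] x) * u (m + 2 * n) x * v m x)‖ ^ 2 ∂μ ≤ ε := by
  refine control_abs hT hg hg1 1 hC (fun m n => m + n) (fun m n => m + 2 * n) (fun m _ => m)
    (fun H => ⟨fun h => 0, fun h => h, fun h => 2 * h, 0, 0, H, ?_, ?_, ?_, ?_⟩)
    (fun J => ⟨fun j => 2 * j, fun j => J - j, J, 2 * J, 2 * J, ?_, ?_, ?_⟩)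
  all_goals intros; (try simp only); (try omega)

/-- the form `m+2n` -/
theorem control_thd (hT : MeasurePreserving T μ μ) {g : Ω → ℂ} (hg : Measurable g)
    (hg1 : ∀ x, ‖g x‖ ≤ 1) (hC : Ctrl μ T g 2) :
    ∀ ε > (0 : ℝ), ∃ N₀ : ℕ, ∀ N ≥ N₀, ∀ (u v : ℕ → Ω → ℂ),
      (∀ k, Measurable (u k)) → (∀ k x, ‖u k x‖ ≤ 1) →
      (∀ k, Measurable (v k)) → (∀ k x, ‖v k x‖ ≤ 1) →
      ∫ x, ‖bavg N (fun m n => g (T^[m + 2 * n] x) * u (m + n) x * v m x)‖ ^ 2 ∂μ ≤ ε := by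
  refine control_abs hT hg hg1 2 hC (fun m n => m + 2 * n) (fun m n => m + n) (fun m _ => m)
    (fun H => ⟨fun h => 0, fun h => h, fun h => h, 0, 0, H, ?_, ?_, ?_, ?_⟩)
    (fun J => ⟨fun j => J - j, fun j => j, J, J, J, ?_, ?_, ?_⟩)
  all_goals intros; (try simp only); (try omega)

end three

end

end Pool.Agent.Helper498.NCR
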