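import Mathlib

set_option autoImplicit false
open Finset Filter Topology

namespace Pool.Agent.Helper498.NCR

noncomputable section

variable {E : Type*} [NormedAddCommGroup E] [InnerProductSpace ℂ E]

/-- Span of the eigenvectors of `U` with unimodular eigenvalue. -/
def EigSpan (U : E →ₗᵢ[ℂ] E) : Submodule ℂ E :=
  Submodule.span ℂ {y | ∃ l : ℂ, ‖l‖ = 1 ∧ U y = l • y}

/-- twisted ergodic average -/
def tavg (U : E →ₗᵢ[ℂ] E) (l : ℂ) (N : ℕ) (x : E) : E :=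
  (N : ℂ)⁻¹ • ∑ n ∈ range N, l ^ n • (U ^ n) x

lemma U_pow_succ (U : E →ₗᵢ[ℂ] E) (n : ℕ) (x : E) : (U ^ (n + 1)) x = U ((U ^ n) x) := by
  rw [pow_succ', LinearIsometry.coe_mul, Function.comp_apply]

lemma U_pow_add (U : E →ₗᵢ[ℂ] E) (m n : ℕ) (x : E) : (U ^ (m + n)) x = (U ^ m) ((U ^ n) x) := by
  rw [pow_add, LinearIsometry.coe_mul, Function.comp_apply]

theorem tavg_tendsto_zero [CompleteSpace E] (U : E →ₗᵢ[ℂ] E) (α : ℂ) (hα : ‖α‖ = 1) (x : E)
    (hx : x ∈ (EigSpan U)ᗮ) : Tendsto (fun N : ℕ => tavg U α N x) atTop (𝓝 0) := by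
  set f : E →L[ℂ] E := α • U.toContinuousLinearMap with hf
  have hf1 : ‖f‖ ≤ 1 := by
    refine ContinuousLinearMap.opNorm_le_bound _ zero_le_one fun y => ?_
    simp [hf, norm_smul, hα]
  have hfx : ∀ y, f y = α • U y := fun y => by simp [hf]
  have hit : ∀ n : ℕ, f^[n] x = α ^ n • (U ^ n) x := by
    intro n
    induction n with
    | zero => simp
    | succ n ih =>
      rw [Function.iterate_succ_apply', ih, hfx, map_smul, smul_smul, ← pow_succ', U_pow_succ]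
  have h := f.tendsto_birkhoffAverage_orthogonalProjection hf1 x
  have h0 : (f.eqLocus (1 : E →L[ℂ] E)).orthogonalProjectionOnto x = 0 := by
    rw [Submodule.orthogonalProjectionOnto_eq_zero_iff, Submodule.mem_orthogonal]
    intro y hy
    have hy' : f y = y := by simpa using hy
    rw [hfx] at hy'
    have hα0 : α ≠ 0 := fun h => by simp [h] at hα
    have hUy : U y = α⁻¹ • y := by
      calc U y = α⁻¹ • (α • U y) := by rw [smul_smul, inv_mul_cancel₀ hα0, one_smul]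
        _ = α⁻¹ • y := by rw [hy']
    exact (Submodule.mem_orthogonal _ _).1 hx y
      (Submodule.subset_span ⟨α⁻¹, by simp [hα], hUy⟩)
  rw [h0] at h
  simpa [birkhoffAverage, birkhoffSum, tavg, hit] using h

/-- uniform smallness along powers of two -/
theorem tavg_uniform [CompleteSpace E] (U : E →ₗᵢ[ℂ] E) (x : E)
    (hx : x ∈ (EigSpan U)ᗮ) (ε : ℝ) (hε : 0 < ε) :
    ∃ k₀ : ℕ, ∀ k ≥ k₀, ∀ l : ℂ, ‖l‖ = 1 → ‖tavg U l (2 ^ k) x‖ < ε := by
  set F : ℕ → Circle → ℝ := fun k z => ‖tavg U (z : ℂ) (2 ^ k) x‖ with hF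
  have hcont : ∀ k, Continuous (F k) := by
    intro k
    simp only [hF, tavg]
    refine Continuous.norm ?_
    refine Continuous.const_smul ?_ _
    refine continuous_finsetSum _ fun n _ => ?_
    exact (Continuous.pow (by fun_prop) n).smul continuous_const
  have hanti : Antitone F := by
    refine antitone_nat_of_succ_le fun k => ?_
    intro z
    simp only [hF, tavg]
    have hsplit : ∑ n ∈ range (2 ^ (k + 1)), (z : ℂ) ^ n • (U ^ n) x =
        ∑ n ∈ range (2 ^ k), (z : ℂ) ^ n • (U ^ n) x +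
        (z : ℂ) ^ (2 ^ k) • (U ^ (2 ^ k)) (∑ n ∈ range (2 ^ k), (z : ℂ) ^ n • (U ^ n) x) := by
      rw [pow_succ, mul_two, Finset.sum_range_add, map_sum, Finset.smul_sum]
      congr 1
      refine Finset.sum_congr rfl fun n _ => ?_
      rw [map_smul, smul_smul, pow_add, U_pow_add]
    rw [hsplit, norm_smul, norm_smul]
    have h1 : ‖∑ n ∈ range (2 ^ k), (z : ℂ) ^ n • (U ^ n) x +
        (z : ℂ) ^ (2 ^ k) • (U ^ (2 ^ k)) (∑ n ∈ range (2 ^ k), (z : ℂ) ^ n • (U ^ n) x)‖ ≤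
        2 * ‖∑ n ∈ range (2 ^ k), (z : ℂ) ^ n • (U ^ n) x‖ := by
      refine (norm_add_le _ _).trans ?_
      rw [norm_smul, norm_pow, Circle.norm_coe, one_pow, one_mul, LinearIsometry.norm_map]
      linarith
    have h2 : ‖(((2 ^ (k + 1) : ℕ) : ℂ))⁻¹‖ = ‖(((2 ^ k : ℕ) : ℂ))⁻¹‖ / 2 := by
      push_cast
      rw [pow_succ]
      simp [mul_comm]
      ring
    rw [h2]
    have h3 : 0 ≤ ‖(((2 ^ k : ℕ) : ℂ))⁻¹‖ := norm_nonneg _
    nlinarith
  have hlim : ∀ z : Circle, Tendsto (fun k => F k z) atTop (𝓝 ((fun _ => (0 : ℝ)) z)) := by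
    intro z
    have h1 := tavg_tendsto_zero U (z : ℂ) (Circle.norm_coe z) x hx
    have h2 : Tendsto (fun k : ℕ => 2 ^ k) atTop atTop :=
      tendsto_pow_atTop_atTop_of_one_lt (by norm_num)
    simpa [hF] using (h1.comp h2).norm
  have hunif := hanti.tendstoUniformly_of_forall_tendsto hcont continuous_const hlim
  rw [Metric.tendstoUniformly_iff] at hunif
  obtain ⟨k₀, hk₀⟩ := eventually_atTop.1 (hunif ε hε)
  refine ⟨k₀, fun k hk l hl => ?_⟩
  have := hk₀ k hk (⟨l, by simpa [Submonoid.unitSphere] using hl⟩ : Circle)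
  simpa [hF] using this

/-- orthogonality of characters of `ℤ/M` -/
lemma root_orth (M : ℕ) (ζ : ℂ) (hζ : IsPrimitiveRoot ζ M) (hM : 0 < M) (a b : ℕ) (ha : a < M)
    (hb : b < M) : ∑ j ∈ range M, (starRingEnd ℂ) ((ζ ^ j) ^ a) * (ζ ^ j) ^ b
      = if a = b then (M : ℂ) else 0 := by
  have hn : ‖ζ‖ = 1 := hζ.norm'_eq_one hM.ne'
  have hc : (starRingEnd ℂ) ζ * ζ = 1 := by
    rw [mul_comm, Complex.mul_conj, Complex.normSq_eq_norm_sq, hn]; simp
  have hw : ∀ j, (starRingEnd ℂ) ((ζ ^ j) ^ a) * (ζ ^ j) ^ b =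
      (((starRingEnd ℂ) ζ) ^ a * ζ ^ b) ^ j := by
    intro j
    rw [map_pow, map_pow]; ring
  simp_rw [hw]
  by_cases hab : a = b
  · subst hab
    rw [← mul_pow, hc]; simp
  · rw [if_neg hab]
    set w := ((starRingEnd ℂ) ζ) ^ a * ζ ^ b with hwdef
    have hw1 : w ≠ 1 := by
      intro h1
      have : ζ ^ a * w = ζ ^ b := by
        rw [hwdef, ← mul_assoc, ← mul_pow, mul_comm ζ, hc, one_pow, one_mul]
      rw [h1, mul_one] at this
      exact hab (hζ.pow_inj ha hb this)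
    have hwM : w ^ M = 1 := by
      rw [hwdef, mul_pow, ← pow_mul, ← pow_mul, mul_comm a, mul_comm b, pow_mul, pow_mul,
        ← map_pow, hζ.pow_eq_one]; simp
    have := geom_sum_mul w M
    rw [hwM, sub_self] at this
    exact (mul_eq_zero.1 this).resolve_right (sub_ne_zero.2 hw1)

lemma inner_U_pow (U : E →ₗᵢ[ℂ] E) (x : E) (h k : ℕ) :
    inner ℂ ((U ^ k) x) ((U ^ (h + k)) x) = inner ℂ x ((U ^ h) x) := by
  rw [add_comm, U_pow_add, LinearIsometry.inner_map_map]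

/-- Fejér-type inequality -/
theorem fejer_ineq (U : E →ₗᵢ[ℂ] E) (x : E) (H : ℕ) (hH : 1 ≤ H) (s : ℝ) (hs : 0 ≤ s)
    (hsup : ∀ l : ℂ, ‖l‖ = 1 → ‖tavg U l H x‖ ≤ s) :
    (H : ℝ)⁻¹ * ∑ h ∈ range H, ‖inner ℂ x ((U ^ h) x)‖ ^ 2 ≤ 2 * s * ‖x‖ ^ 3 := by
  set N := 2 * H with hN
  set M := 3 * H with hM
  have hM0 : 0 < M := by omega
  have hH0 : (0 : ℝ) < H := by exact_mod_cast hH
  have hMr : (0 : ℝ) < M := by exact_mod_cast hM0
  obtain ⟨ζ, hζ⟩ : ∃ ζ : ℂ, IsPrimitiveRoot ζ M := ⟨_, Complex.isPrimitiveRoot_exp M hM0.ne'⟩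
  have hn : ‖ζ‖ = 1 := hζ.norm'_eq_one hM0.ne'
  set Y : ℕ → E := fun j => ∑ k ∈ range N, (ζ ^ j) ^ k • (U ^ k) x with hY
  set Z : ℕ → E := fun j => ∑ h ∈ range H, (ζ ^ j) ^ h • (U ^ h) x with hZ
  have hZn : ∀ j, ‖Z j‖ ≤ H * s := by
    intro j
    have h1 := hsup (ζ ^ j) (by simp [hn])
    have h2 : Z j = (H : ℂ) • tavg U (ζ ^ j) H x := by
      rw [tavg, smul_smul, mul_inv_cancel₀ (by exact_mod_cast (by omega : H ≠ 0)), one_smul]
    rw [h2, norm_smul, Complex.norm_natCast]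
    gcongr
  -- expansion of inner products
  have hYY : ∀ j, inner ℂ (Y j) (Y j) = ∑ k ∈ range N, ∑ m ∈ range N,
      (starRingEnd ℂ) ((ζ ^ j) ^ k) * (ζ ^ j) ^ m * inner ℂ ((U ^ k) x) ((U ^ m) x) := by
    intro j
    simp only [hY]
    rw [sum_inner]
    refine Finset.sum_congr rfl fun k _ => ?_
    rw [inner_sum]
    refine Finset.sum_congr rfl fun m _ => ?_
    rw [inner_smul_left, inner_smul_right]
    ring
  have hZx : ∀ j, inner ℂ (Z j) x = ∑ h ∈ range H,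
      (starRingEnd ℂ) ((ζ ^ j) ^ h) * (starRingEnd ℂ) (inner ℂ x ((U ^ h) x)) := by
    intro j
    simp only [hZ]
    rw [sum_inner]
    refine Finset.sum_congr rfl fun h _ => ?_
    rw [inner_smul_left, inner_conj_symm]
  -- total mass
  have hmass : ∑ j ∈ range M, inner ℂ (Y j) (Y j) = (M : ℂ) * (N * inner ℂ x x) := by
    simp_rw [hYY]
    rw [Finset.sum_comm]
    calc ∑ k ∈ range N, ∑ j ∈ range M, ∑ m ∈ range N,
        (starRingEnd ℂ) ((ζ ^ j) ^ k) * (ζ ^ j) ^ m * inner ℂ ((U ^ k) x) ((U ^ m) x)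
        = ∑ k ∈ range N, ∑ m ∈ range N, (∑ j ∈ range M,
        (starRingEnd ℂ) ((ζ ^ j) ^ k) * (ζ ^ j) ^ m) * inner ℂ ((U ^ k) x) ((U ^ m) x) := by
          refine Finset.sum_congr rfl fun k _ => ?_
          rw [Finset.sum_comm]
          refine Finset.sum_congr rfl fun m _ => ?_
          rw [Finset.sum_mul]
      _ = ∑ k ∈ range N, ∑ m ∈ range N, (if k = m then (M : ℂ) else 0) *
          inner ℂ ((U ^ k) x) ((U ^ m) x) := by
          refine Finset.sum_congr rfl fun k hk => Finset.sum_congr rfl fun m hm => ?_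
          rw [root_orth M ζ hζ hM0 k m (by have := mem_range.1 hk; omega)
            (by have := mem_range.1 hm; omega)]
      _ = ∑ k ∈ range N, (M : ℂ) * inner ℂ x x := by
          refine Finset.sum_congr rfl fun k hk => ?_
          rw [Finset.sum_eq_single k]
          · rw [if_pos rfl, LinearIsometry.inner_map_map]
          · intro m _ hmk
            rw [if_neg (Ne.symm hmk), zero_mul]
          · intro h; exact absurd hk h
      _ = (M : ℂ) * (N * inner ℂ x x) := by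
          rw [Finset.sum_const, card_range, nsmul_eq_mul]; ring
  -- the main identity
  have hmain : ∑ j ∈ range M, inner ℂ (Y j) (Y j) * inner ℂ (Z j) x
      = (M : ℂ) * ∑ h ∈ range H, ((N - h : ℕ) : ℂ) *
        ((‖inner ℂ x ((U ^ h) x)‖ ^ 2 : ℝ) : ℂ) := by
    have hexp : ∀ j, inner ℂ (Y j) (Y j) * inner ℂ (Z j) x = ∑ h ∈ range H, ∑ k ∈ range N,
        ∑ m ∈ range N, ((starRingEnd ℂ) ((ζ ^ j) ^ (h + k)) * (ζ ^ j) ^ m) *
          ((starRingEnd ℂ) (inner ℂ x ((U ^ h) x)) * inner ℂ ((U ^ k) x) ((U ^ m) x)) := by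
      intro j
      rw [hYY, hZx, mul_comm, Finset.sum_mul]
      refine Finset.sum_congr rfl fun h _ => ?_
      rw [Finset.mul_sum]
      refine Finset.sum_congr rfl fun k _ => ?_
      rw [Finset.mul_sum]
      refine Finset.sum_congr rfl fun m _ => ?_
      rw [pow_add, map_mul]; ring
    simp_rw [hexp]
    rw [Finset.sum_comm, Finset.mul_sum]
    refine Finset.sum_congr rfl fun h hh => ?_
    have hhH := mem_range.1 hh
    calc ∑ j ∈ range M, ∑ k ∈ range N,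
        ∑ m ∈ range N, ((starRingEnd ℂ) ((ζ ^ j) ^ (h + k)) * (ζ ^ j) ^ m) *
          ((starRingEnd ℂ) (inner ℂ x ((U ^ h) x)) * inner ℂ ((U ^ k) x) ((U ^ m) x))
        = ∑ k ∈ range N, ∑ m ∈ range N, (∑ j ∈ range M,
          ((starRingEnd ℂ) ((ζ ^ j) ^ (h + k)) * (ζ ^ j) ^ m)) *
          ((starRingEnd ℂ) (inner ℂ x ((U ^ h) x)) * inner ℂ ((U ^ k) x) ((U ^ m) x)) := by
          rw [Finset.sum_comm]
          refine Finset.sum_congr rfl fun k _ => ?_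
          rw [Finset.sum_comm]
          refine Finset.sum_congr rfl fun m _ => ?_
          rw [Finset.sum_mul]
      _ = ∑ k ∈ range N, ∑ m ∈ range N, (if h + k = m then (M : ℂ) else 0) *
          ((starRingEnd ℂ) (inner ℂ x ((U ^ h) x)) * inner ℂ ((U ^ k) x) ((U ^ m) x)) := by
          refine Finset.sum_congr rfl fun k hk => Finset.sum_congr rfl fun m hm => ?_
          have := mem_range.1 hk
          have := mem_range.1 hm
          rw [root_orth M ζ hζ hM0 (h + k) m (by omega) (by omega)]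
      _ = ∑ k ∈ range N, (if k < N - h then
          (M : ℂ) * ((‖inner ℂ x ((U ^ h) x)‖ ^ 2 : ℝ) : ℂ) else 0) := by
          refine Finset.sum_congr rfl fun k hk => ?_
          have hkN := mem_range.1 hk
          by_cases hk2 : k < N - h
          · rw [if_pos hk2, Finset.sum_eq_single (h + k)]
            · rw [if_pos rfl, inner_U_pow, ← Complex.normSq_eq_norm_sq, Complex.normSq_eq_conj_mul_self]
            · intro m _ hmk
              rw [if_neg (Ne.symm hmk), zero_mul]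
            · intro h3; exact absurd (mem_range.2 (by omega)) h3
          · rw [if_neg hk2]
            refine Finset.sum_eq_zero fun m hm => ?_
            have := mem_range.1 hm
            rw [if_neg (by omega), zero_mul]
      _ = (M : ℂ) * (((N - h : ℕ) : ℂ) * ((‖inner ℂ x ((U ^ h) x)‖ ^ 2 : ℝ) : ℂ)) := by
          rw [← Finset.sum_filter, Finset.sum_const]
          have : (Finset.filter (fun k => k < N - h) (range N)) = range (N - h) := by
            ext k; simp; omega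
          rw [this, card_range, nsmul_eq_mul]; ring
  -- take norms
  have hb1 : ‖∑ j ∈ range M, inner ℂ (Y j) (Y j) * inner ℂ (Z j) x‖ ≤
      (H * s * ‖x‖) * (M * (N * ‖x‖ ^ 2)) := by
    refine (norm_sum_le _ _).trans ?_
    have hterm : ∀ j ∈ range M, ‖inner ℂ (Y j) (Y j) * inner ℂ (Z j) x‖ ≤
        (H * s * ‖x‖) * (‖Y j‖ ^ 2) := by
      intro j _
      rw [norm_mul]
      have h1 : ‖inner ℂ (Y j) (Y j)‖ = ‖Y j‖ ^ 2 := by
        rw [inner_self_eq_norm_sq_to_K]; simp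
      have h2 : ‖inner ℂ (Z j) x‖ ≤ H * s * ‖x‖ := by
        refine (norm_inner_le_norm _ _).trans ?_
        exact mul_le_mul_of_nonneg_right (hZn j) (norm_nonneg _)
      rw [h1, mul_comm]
      exact mul_le_mul_of_nonneg_right h2 (by positivity)
    refine (Finset.sum_le_sum hterm).trans ?_
    rw [← Finset.mul_sum]
    have h4 : ∑ j ∈ range M, ‖Y j‖ ^ 2 = M * (N * ‖x‖ ^ 2) := by
      have h5 : ((∑ j ∈ range M, ‖Y j‖ ^ 2 : ℝ) : ℂ) = ((M * (N * ‖x‖ ^ 2) : ℝ) : ℂ) := by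
        push_cast
        have : ∀ j, ((‖Y j‖ : ℂ)) ^ 2 = inner ℂ (Y j) (Y j) := fun j => by
          rw [inner_self_eq_norm_sq_to_K]; rfl
        simp_rw [this]
        rw [hmass, inner_self_eq_norm_sq_to_K]
        simp
      exact_mod_cast h5
    rw [h4]
  rw [hmain] at hb1
  have hb2 : ‖(M : ℂ) * ∑ h ∈ range H, ((N - h : ℕ) : ℂ) *
        ((‖inner ℂ x ((U ^ h) x)‖ ^ 2 : ℝ) : ℂ)‖ =
        M * ∑ h ∈ range H, ((N - h : ℕ) : ℝ) * ‖inner ℂ x ((U ^ h) x)‖ ^ 2 := by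
    have : (M : ℂ) * ∑ h ∈ range H, ((N - h : ℕ) : ℂ) *
        ((‖inner ℂ x ((U ^ h) x)‖ ^ 2 : ℝ) : ℂ) =
        ((M * ∑ h ∈ range H, ((N - h : ℕ) : ℝ) * ‖inner ℂ x ((U ^ h) x)‖ ^ 2 : ℝ) : ℂ) := by
      push_cast; rfl
    rw [this, Complex.norm_real, Real.norm_of_nonneg]
    positivity
  rw [hb2] at hb1
  have hb3 : (H : ℝ) * ∑ h ∈ range H, ‖inner ℂ x ((U ^ h) x)‖ ^ 2 ≤
      ∑ h ∈ range H, ((N - h : ℕ) : ℝ) * ‖inner ℂ x ((U ^ h) x)‖ ^ 2 := by
    rw [Finset.mul_sum]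
    refine Finset.sum_le_sum fun h hh => ?_
    have := mem_range.1 hh
    have h6 : (H : ℝ) ≤ ((N - h : ℕ) : ℝ) := by exact_mod_cast (by omega : H ≤ N - h)
    gcongr
  have hb4 : (M : ℝ) * ((H : ℝ) * ∑ h ∈ range H, ‖inner ℂ x ((U ^ h) x)‖ ^ 2) ≤
      M * ((H * s * ‖x‖) * (N * ‖x‖ ^ 2)) := by
    calc (M : ℝ) * ((H : ℝ) * ∑ h ∈ range H, ‖inner ℂ x ((U ^ h) x)‖ ^ 2)
        ≤ M * ∑ h ∈ range H, ((N - h : ℕ) : ℝ) * ‖inner ℂ x ((U ^ h) x)‖ ^ 2 := by gcongr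
      _ ≤ _ := hb1
      _ = _ := by ring
  have hb5 := le_of_mul_le_mul_left hb4 hMr
  have hNr : (N : ℝ) = 2 * H := by rw [hN]; push_cast; ring
  rw [hNr] at hb5
  have hb6 : ∑ h ∈ range H, ‖inner ℂ x ((U ^ h) x)‖ ^ 2 ≤ s * ‖x‖ * (2 * H * ‖x‖ ^ 2) := by
    have : (H : ℝ) * ∑ h ∈ range H, ‖inner ℂ x ((U ^ h) x)‖ ^ 2 ≤
        H * (s * ‖x‖ * (2 * H * ‖x‖ ^ 2)) := by
      refine hb5.trans (le_of_eq ?_); ring
    exact le_of_mul_le_mul_left this hH0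
  calc (H : ℝ)⁻¹ * ∑ h ∈ range H, ‖inner ℂ x ((U ^ h) x)‖ ^ 2
      ≤ (H : ℝ)⁻¹ * (s * ‖x‖ * (2 * H * ‖x‖ ^ 2)) := by gcongr
    _ = 2 * s * ‖x‖ ^ 3 := by field_simp

/-- Wiener: the correlations of a vector orthogonal to all eigenvectors tend to zero in
density (along powers of two). -/
theorem wiener [CompleteSpace E] (U : E →ₗᵢ[ℂ] E) (x : E)
    (hx : x ∈ (EigSpan U)ᗮ) (ε : ℝ) (hε : 0 < ε) :
    ∃ H₀ : ℕ, ∃ H : ℕ, H₀ ≤ H ∧ 1 ≤ H ∧
      (H : ℝ)⁻¹ * ∑ h ∈ range H, ‖inner ℂ x ((U ^ h) x)‖ ^ 2 ≤ ε := by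
  obtain ⟨k₀, hk₀⟩ := tavg_uniform U x hx (ε / (2 * (‖x‖ ^ 3 + 1))) (by positivity)
  refine ⟨0, 2 ^ k₀, Nat.zero_le _, Nat.one_le_two_pow, ?_⟩
  refine (fejer_ineq U x (2 ^ k₀) Nat.one_le_two_pow (ε / (2 * (‖x‖ ^ 3 + 1))) (by positivity)
    fun l hl => (hk₀ k₀ le_rfl l hl).le).trans ?_
  have h1 : 0 ≤ ‖x‖ ^ 3 := by positivity
  rw [mul_div_assoc']
  rw [div_mul_eq_mul_div, div_le_iff₀ (by positivity)]
  nlinarith

/-- L¹ version, for all large powers of two. -/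
theorem wiener_one [CompleteSpace E] (U : E →ₗᵢ[ℂ] E) (x : E)
    (hx : x ∈ (EigSpan U)ᗮ) (ε : ℝ) (hε : 0 < ε) :
    ∃ k₀ : ℕ, ∀ k ≥ k₀,
      ((2 ^ k : ℕ) : ℝ)⁻¹ * ∑ h ∈ range (2 ^ k), ‖inner ℂ x ((U ^ h) x)‖ ≤ ε := by
  have hε2 : 0 < ε ^ 2 := by positivity
  obtain ⟨k₀, hk₀⟩ := tavg_uniform U x hx (ε ^ 2 / (2 * (‖x‖ ^ 3 + 1))) (by positivity)
  refine ⟨k₀, fun k hk => ?_⟩
  have h2 := fejer_ineq U x (2 ^ k) Nat.one_le_two_pow (ε ^ 2 / (2 * (‖x‖ ^ 3 + 1)))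
    (by positivity) fun l hl => (hk₀ k hk l hl).le
  have h1 : 0 ≤ ‖x‖ ^ 3 := by positivity
  have h3 : 2 * (ε ^ 2 / (2 * (‖x‖ ^ 3 + 1))) * ‖x‖ ^ 3 ≤ ε ^ 2 := by
    rw [mul_div_assoc', div_mul_eq_mul_div, div_le_iff₀ (by positivity)]
    nlinarith
  have h4 := h2.trans h3
  set H : ℕ := 2 ^ k with hH
  have hH0 : (0 : ℝ) < H := by positivity
  have h5 : ((H : ℝ)⁻¹ * ∑ h ∈ range H, ‖inner ℂ x ((U ^ h) x)‖) ^ 2 ≤ ε ^ 2 := by
    refine le_trans ?_ h4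
    have := sq_sum_le_card_mul_sum_sq (s := range H) (f := fun h => ‖inner ℂ x ((U ^ h) x)‖)
    rw [card_range] at this
    rw [mul_pow]
    calc ((H : ℝ)⁻¹) ^ 2 * (∑ h ∈ range H, ‖inner ℂ x ((U ^ h) x)‖) ^ 2
        ≤ ((H : ℝ)⁻¹) ^ 2 * (H * ∑ h ∈ range H, ‖inner ℂ x ((U ^ h) x)‖ ^ 2) := by gcongr
      _ = _ := by field_simp
  exact le_of_sq_le_sq h5 hε.le

end

end Pool.Agent.Helper498.NCR
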