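import Mathlib
import Pool.Agent.Helper498.NCR.Wiener
import Pool.Agent.Helper498.NCR.Control

set_option autoImplicit false
open Finset Filter Topology MeasureTheory

namespace Pool.Agent.Helper498.NCR

noncomputable section

variable {Ω : Type*} [MeasurableSpace Ω]

/-- The Koopman isometry on `L²`. -/
def koop {μ : Measure Ω} {T : Ω → Ω} (hT : MeasurePreserving T μ μ) :
    Lp ℂ 2 μ →ₗᵢ[ℂ] Lp ℂ 2 μ := Lp.compMeasurePreservingₗᵢ ℂ T hT

lemma koop_pow_apply {μ : Measure Ω} {T : Ω → Ω} (hT : MeasurePreserving T μ μ) (n : ℕ)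
    (F : Lp ℂ 2 μ) : (koop hT ^ n) F = Lp.compMeasurePreserving T^[n] (hT.iterate n) F := by
  rw [LinearIsometry.coe_pow, ← Lp.compMeasurePreserving_iterate]
  rfl

lemma koop_pow_coe {μ : Measure Ω} {T : Ω → Ω} (hT : MeasurePreserving T μ μ) (n : ℕ)
    (F : Lp ℂ 2 μ) : ⇑((koop hT ^ n) F) =ᵐ[μ] fun x => F (T^[n] x) := by
  rw [koop_pow_apply]
  exact Lp.coeFn_compMeasurePreserving F (hT.iterate n)

lemma koop_coe {μ : Measure Ω} {T : Ω → Ω} (hT : MeasurePreserving T μ μ)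
    (F : Lp ℂ 2 μ) : ⇑(koop hT F) =ᵐ[μ] fun x => F (T x) :=
  Lp.coeFn_compMeasurePreserving F hT

lemma koop_pow_toLp {μ : Measure Ω} {T : Ω → Ω} (hT : MeasurePreserving T μ μ) (n : ℕ)
    {g : Ω → ℂ} (hg : MemLp g 2 μ) :
    (koop hT ^ n) (hg.toLp g) = (hg.comp_measurePreserving (hT.iterate n)).toLp (g ∘ T^[n]) := by
  rw [koop_pow_apply, Lp.toLp_compMeasurePreserving]

lemma memLp_bdd {μ : Measure Ω} [IsFiniteMeasure μ] {g : Ω → ℂ} (hg : Measurable g) {C : ℝ}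
    (hC : ∀ x, ‖g x‖ ≤ C) : MemLp g 2 μ :=
  MemLp.of_bound hg.aestronglyMeasurable C (Eventually.of_forall hC)

lemma inner_toLp {μ : Measure Ω} {f g : Ω → ℂ} (hf : MemLp f 2 μ) (hg : MemLp g 2 μ) :
    inner ℂ (hf.toLp f) (hg.toLp g) = ∫ x, (starRingEnd ℂ) (f x) * g x ∂μ := by
  rw [L2.inner_def]
  refine integral_congr_ae ?_
  filter_upwards [hf.coeFn_toLp, hg.coeFn_toLp] with x h1 h2
  rw [h1, h2, RCLike.inner_apply, mul_comm]

lemma inner_eq {μ : Measure Ω} (F G : Lp ℂ 2 μ) :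
    inner ℂ F G = ∫ x, (starRingEnd ℂ) (F x) * G x ∂μ := by
  rw [L2.inner_def]
  refine integral_congr_ae (Eventually.of_forall fun x => ?_)
  simp only [RCLike.inner_apply, mul_comm]

lemma integral_norm_le_of_L2 {ν : Measure Ω} [IsFiniteMeasure ν] (F : Lp ℂ 2 ν) (δ : ℝ)
    (hδ : 0 < δ) : ∫ x, ‖F x‖ ∂ν ≤ δ / 2 * (ν Set.univ).toReal + (2 * δ)⁻¹ * ‖F‖ ^ 2 := by
  have hF2 : MemLp F 2 ν := Lp.memLp F
  have hF1 : Integrable F ν := hF2.integrable (by norm_num)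
  have hsq : Integrable (fun x => ‖F x‖ ^ 2) ν := hF2.integrable_norm_pow (by norm_num)
  have hn : ‖F‖ ^ 2 = ∫ x, ‖F x‖ ^ 2 ∂ν := by
    have h1 : ((‖F‖ ^ 2 : ℝ) : ℂ) = inner ℂ F F := by
      rw [inner_self_eq_norm_sq_to_K]; simp
    have h2 : inner ℂ F F = ((∫ x, ‖F x‖ ^ 2 ∂ν : ℝ) : ℂ) := by
      rw [inner_eq, ← integral_complex_ofReal]
      refine integral_congr_ae (Eventually.of_forall fun x => ?_)
      simp only
      rw [← Complex.normSq_eq_norm_sq, Complex.normSq_eq_conj_mul_self]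
    exact_mod_cast h1.trans h2
  rw [hn]
  have h3 : ∫ x, ‖F x‖ ∂ν ≤ ∫ x, (δ / 2 + (2 * δ)⁻¹ * ‖F x‖ ^ 2) ∂ν := by
    refine integral_mono hF1.norm ((integrable_const _).add (hsq.const_mul _)) fun x => ?_
    simp only
    have h4 : 0 ≤ (‖F x‖ - δ) ^ 2 := sq_nonneg _
    have h5 : δ / 2 + (2 * δ)⁻¹ * ‖F x‖ ^ 2 - ‖F x‖ = (2 * δ)⁻¹ * (‖F x‖ - δ) ^ 2 := by
      field_simp; ring
    have h6 : 0 ≤ (2 * δ)⁻¹ * (‖F x‖ - δ) ^ 2 := by positivity
    linarith
  refine h3.trans (le_of_eq ?_)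
  rw [integral_add (integrable_const _) (hsq.const_mul _), integral_const, integral_const_mul]
  simp [Measure.real, mul_comm]

/-- L¹-convergence of ergodic averages in the ergodic case (upper bound). -/
theorem erg_avg {ν : Measure Ω} [IsFiniteMeasure ν] {T : Ω → Ω} (hE : Ergodic T ν)
    {G : Ω → ℂ} (hG : Measurable G) (hG1 : ∀ x, ‖G x‖ ≤ 1) (ε : ℝ) (hε : 0 < ε) :
    ∀ᶠ J : ℕ in atTop, ∫ x, ‖(J : ℂ)⁻¹ * ∑ j ∈ range J, G (T^[j] x)‖ ∂ν ≤
      ‖∫ x, G x ∂ν‖ + ε := by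
  have hT : MeasurePreserving T ν ν := hE.toMeasurePreserving
  have hGL : MemLp G 2 ν := memLp_bdd hG hG1
  set U := koop hT with hU
  set x0 : Lp ℂ 2 ν := hGL.toLp G with hx0
  have hf1 : ‖U.toContinuousLinearMap‖ ≤ 1 := by
    refine ContinuousLinearMap.opNorm_le_bound _ zero_le_one fun y => ?_
    simp
  have h := U.toContinuousLinearMap.tendsto_birkhoffAverage_orthogonalProjection hf1 x0
  set P : Lp ℂ 2 ν := ((U.toContinuousLinearMap.eqLocus
    (1 : Lp ℂ 2 ν →L[ℂ] Lp ℂ 2 ν)).orthogonalProjectionOnto x0 : Lp ℂ 2 ν) with hP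
  have hPfix : U P = P := by
    have hmem : P ∈ (U.toContinuousLinearMap.eqLocus
      (1 : Lp ℂ 2 ν →L[ℂ] Lp ℂ 2 ν)) := ((U.toContinuousLinearMap.eqLocus
      (1 : Lp ℂ 2 ν →L[ℂ] Lp ℂ 2 ν)).orthogonalProjectionOnto x0).2
    exact hmem
  -- P is constant
  have hPc : ∃ c : ℂ, ⇑P =ᵐ[ν] fun _ => c := by
    have h1 : (fun x => P (T x)) =ᵐ[ν] P := by
      have := koop_coe hT P
      rw [← hU, hPfix] at this
      exact this.symm
    have h2 := hE.ae_eq_const_of_ae_eq_comp_ae (Lp.aestronglyMeasurable P) h1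
    obtain ⟨c, hc⟩ := h2
    exact ⟨c, hc⟩
  obtain ⟨c, hc⟩ := hPc
  -- averages as L² elements
  set A : ℕ → Lp ℂ 2 ν := fun J => (J : ℂ)⁻¹ • ∑ j ∈ range J, (U ^ j) x0 with hA
  have hAlim : Tendsto A atTop (𝓝 P) := by
    have : ∀ J : ℕ, birkhoffAverage ℂ (⇑(U.toContinuousLinearMap)) _root_.id J x0 = A J := by
      intro J
      simp only [birkhoffAverage, birkhoffSum, hA, _root_.id]
      congr 1
      refine Finset.sum_congr rfl fun j _ => ?_
      rw [LinearIsometry.coe_pow]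
      rfl
    exact h.congr this
  have hAcoe : ∀ J, ⇑(A J) =ᵐ[ν] fun x => (J : ℂ)⁻¹ * ∑ j ∈ range J, G (T^[j] x) := by
    intro J
    have h1 : ∀ j : ℕ, ⇑((U ^ j) x0) =ᵐ[ν] fun x => G (T^[j] x) := by
      intro j
      rw [hU, hx0, koop_pow_toLp]
      exact MemLp.coeFn_toLp _
    have h2 : ⇑(∑ j ∈ range J, (U ^ j) x0) =ᵐ[ν] fun x => ∑ j ∈ range J, G (T^[j] x) := by
      have h3 := Lp.coeFn_finsetSum (range J) (fun j => (U ^ j) x0)
      refine h3.trans ?_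
      have h4 : ∀ᵐ x ∂ν, ∀ j : ℕ, ((U ^ j) x0 : Ω → ℂ) x = G (T^[j] x) := by
        rw [ae_all_iff]
        exact h1
      filter_upwards [h4] with x hx
      simp only [Finset.sum_apply]
      exact Finset.sum_congr rfl fun j _ => hx j
    refine (Lp.coeFn_smul _ _).trans ?_
    filter_upwards [h2] with x hx
    simp only [Pi.smul_apply, smul_eq_mul]
    rw [hx]
  -- integral of P
  have hGint : ∀ j, ∫ x, G (T^[j] x) ∂ν = ∫ x, G x ∂ν := by
    intro j
    have h1 := integral_map (μ := ν) (φ := T^[j]) (hT.iterate j).measurable.aemeasurable (f := G)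
      hG.aestronglyMeasurable
    rw [(hT.iterate j).map_eq] at h1
    exact h1.symm
  have h1L : MemLp (fun _ : Ω => (1 : ℂ)) 2 ν := memLp_const 1
  have hPint : ∫ x, P x ∂ν = ∫ x, G x ∂ν := by
    have e1 : ∀ J, inner ℂ (h1L.toLp _) (A J) = ∫ x, (J : ℂ)⁻¹ * ∑ j ∈ range J, G (T^[j] x) ∂ν := by
      intro J
      rw [inner_eq]
      refine integral_congr_ae ?_
      filter_upwards [h1L.coeFn_toLp, hAcoe J] with x h1 h2
      rw [h1, h2]; simp
    have e2 : ∀ J : ℕ, 1 ≤ J → inner ℂ (h1L.toLp _) (A J) = ∫ x, G x ∂ν := by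
      intro J hJ
      rw [e1, integral_const_mul, integral_finsetSum]
      · simp_rw [hGint]
        rw [Finset.sum_const, card_range, nsmul_eq_mul, inv_mul_cancel_left₀]
        exact_mod_cast (by omega : J ≠ 0)
      · intro j _
        exact Integrable.of_bound (hG.comp (hT.measurable.iterate j)).aestronglyMeasurable 1
          (Eventually.of_forall fun x => hG1 _)
    have e3 : Tendsto (fun J => inner ℂ (h1L.toLp (fun _ : Ω => (1 : ℂ))) (A J)) atTop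
        (𝓝 (inner ℂ (h1L.toLp _) P)) := tendsto_const_nhds.inner hAlim
    have e4 : Tendsto (fun J => inner ℂ (h1L.toLp (fun _ : Ω => (1 : ℂ))) (A J)) atTop
        (𝓝 (∫ x, G x ∂ν)) := by
      refine tendsto_const_nhds.congr' ?_
      filter_upwards [eventually_ge_atTop 1] with J hJ
      exact (e2 J hJ).symm
    have e5 := tendsto_nhds_unique e3 e4
    rw [← e5, inner_eq]
    refine integral_congr_ae ?_
    filter_upwards [h1L.coeFn_toLp] with x h1
    rw [h1]; simp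
  have hPnorm : ∫ x, ‖P x‖ ∂ν = ‖∫ x, G x ∂ν‖ := by
    rw [← hPint]
    have h1 : ∫ x, ‖P x‖ ∂ν = ∫ x, ‖c‖ ∂ν := integral_congr_ae (hc.mono fun x hx => by simp [hx])
    have h2 : ∫ x, P x ∂ν = ∫ x, c ∂ν := integral_congr_ae hc
    rw [h1, h2, integral_const, integral_const, norm_smul, Real.norm_of_nonneg measureReal_nonneg,
      smul_eq_mul]
  -- conclusion
  set δ : ℝ := ε / ((ν Set.univ).toReal + 1) with hδ
  have hm0 : 0 ≤ (ν Set.univ).toReal := ENNReal.toReal_nonneg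
  have hδ0 : 0 < δ := by positivity
  have hsub : Tendsto (fun J => ‖A J - P‖) atTop (𝓝 0) := by
    have := (hAlim.sub_const P).norm
    simpa using this
  have hev : ∀ᶠ J : ℕ in atTop, ‖A J - P‖ ^ 2 < δ * ε := by
    have h1 : Tendsto (fun J => ‖A J - P‖ ^ 2) atTop (𝓝 0) := by simpa using hsub.pow 2
    exact h1.eventually (gt_mem_nhds (by positivity))
  filter_upwards [hev] with J hJ
  have h1 := integral_norm_le_of_L2 (A J - P) δ hδ0
  have i1 : Integrable (fun x => ‖(A J) x‖) ν :=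
    ((Lp.memLp (A J)).integrable (by norm_num)).norm
  have i2 : Integrable (fun x => ‖(A J - P : Lp ℂ 2 ν) x‖) ν :=
    ((Lp.memLp (A J - P)).integrable (by norm_num)).norm
  have i3 : Integrable (fun x => ‖P x‖) ν :=
    ((Lp.memLp P).integrable (by norm_num)).norm
  have h2 : ∫ x, ‖(J : ℂ)⁻¹ * ∑ j ∈ range J, G (T^[j] x)‖ ∂ν = ∫ x, ‖(A J) x‖ ∂ν := by
    refine integral_congr_ae ?_
    filter_upwards [hAcoe J] with x hx
    rw [hx]
  have h3 : ∫ x, ‖(A J) x‖ ∂ν ≤ ∫ x, (‖(A J - P : Lp ℂ 2 ν) x‖ + ‖P x‖) ∂ν := by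
    refine integral_mono_ae i1 (i2.add i3) ?_
    filter_upwards [Lp.coeFn_sub (A J) P] with x hx
    rw [hx]
    simp only [Pi.sub_apply]
    calc ‖(A J) x‖ = ‖((A J) x - P x) + P x‖ := by congr 1; ring
      _ ≤ _ := norm_add_le _ _
  rw [integral_add i2 i3, hPnorm] at h3
  rw [h2]
  refine h3.trans ?_
  have h4 : δ / 2 * (ν Set.univ).toReal ≤ ε / 2 := by
    rw [hδ, div_div, div_mul_eq_mul_div, div_le_div_iff₀ (by positivity) (by positivity)]
    nlinarith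
  have h5 : (2 * δ)⁻¹ * ‖A J - P‖ ^ 2 ≤ ε / 2 := by
    calc (2 * δ)⁻¹ * ‖A J - P‖ ^ 2 ≤ (2 * δ)⁻¹ * (δ * ε) := by gcongr
      _ = ε / 2 := by field_simp
  linarith

end

end Pool.Agent.Helper498.NCR
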