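import Mathlib
import Pool.Agent.Helper498.NCR.Koopman
import Pool.Agent.Helper498.NCR.Weights

set_option autoImplicit false
open Finset Filter Topology MeasureTheory

namespace Pool.Agent.Helper498.NCR

noncomputable section

section hilbert

variable {E : Type*} [NormedAddCommGroup E] [InnerProductSpace ℂ E]

/-- finite sums of eigenvectors -/
def FinEig (U : E →ₗᵢ[ℂ] E) (z : E) : Prop :=
  ∃ (ι : Type) (_ : Fintype ι) (e : ι → E) (l : ι → ℂ), (∀ i, ‖l i‖ = 1) ∧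
    (∀ i, U (e i) = l i • e i) ∧ z = ∑ i, e i

lemma finEig_of_span (U : E →ₗᵢ[ℂ] E) (z : E) (hz : z ∈ EigSpan U) : FinEig U z := by
  unfold EigSpan at hz
  induction hz using Submodule.span_induction with
  | zero => exact ⟨Empty, inferInstance, fun _ => 0, fun _ => 1, by simp, by simp, by simp⟩
  | add a b _ _ ha hb =>
    obtain ⟨ι, _, e, l, h1, h2, h3⟩ := ha
    obtain ⟨ι', _, e', l', h1', h2', h3'⟩ := hb
    refine ⟨ι ⊕ ι', inferInstance, Sum.elim e e', Sum.elim l l', ?_, ?_, ?_⟩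
    · rintro (i | i) <;> simp [h1, h1']
    · rintro (i | i) <;> simp [h2, h2']
    · rw [Fintype.sum_sum_type]; simp [h3, h3']
  | smul c a _ ha =>
    obtain ⟨ι, _, e, l, h1, h2, h3⟩ := ha
    refine ⟨ι, inferInstance, fun i => c • e i, l, h1, fun i => ?_, ?_⟩
    · rw [map_smul, h2, smul_comm]
    · rw [h3, Finset.smul_sum]
  | mem y hy =>
    obtain ⟨l, hl, hUy⟩ := hy
    exact ⟨Unit, inferInstance, fun _ => y, fun _ => l, fun _ => hl, fun _ => hUy, by simp⟩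

lemma eig_pow (U : E →ₗᵢ[ℂ] E) {e : E} {l : ℂ} (h : U e = l • e) (k : ℕ) :
    (U ^ k) e = l ^ k • e := by
  induction k with
  | zero => simp
  | succ k ih => rw [U_pow_succ, ih, map_smul, h, smul_smul, ← pow_succ]

/-- displacement of an almost finite sum of eigenvectors -/
lemma disp_le (U : E →ₗᵢ[ℂ] E) {ι : Type} [Fintype ι] (e : ι → E) (l : ι → ℂ)
    (he : ∀ i, U (e i) = l i • e i) (y : E) (k : ℕ) :
    ‖(U ^ k) y - y‖ ≤ 2 * ‖y - ∑ i, e i‖ + ∑ i, ‖l i ^ k - 1‖ * ‖e i‖ := by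
  set z := ∑ i, e i with hz
  have h1 : (U ^ k) y - y = ((U ^ k) (y - z) - (y - z)) + ((U ^ k) z - z) := by
    rw [map_sub]; abel
  have h2 : (U ^ k) z - z = ∑ i, (l i ^ k - 1) • e i := by
    rw [hz, map_sum, ← Finset.sum_sub_distrib]
    refine Finset.sum_congr rfl fun i _ => ?_
    rw [eig_pow U (he i), sub_smul, one_smul]
  rw [h1]
  refine (norm_add_le _ _).trans (add_le_add ?_ ?_)
  · refine (norm_sub_le _ _).trans ?_
    rw [LinearIsometry.norm_map]; linarith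
  · rw [h2]
    refine (norm_sum_le _ _).trans (le_of_eq ?_)
    exact Finset.sum_congr rfl fun i _ => norm_smul _ _

/-- closure elements are approximated -/
lemma approx_of_closure (U : E →ₗᵢ[ℂ] E) (y : E) (hy : y ∈ (EigSpan U).topologicalClosure)
    (δ : ℝ) (hδ : 0 < δ) : ∃ z, FinEig U z ∧ ‖y - z‖ ≤ δ := by
  have hy' : y ∈ closure (EigSpan U : Set E) := hy
  obtain ⟨z, hz, hd⟩ := Metric.mem_closure_iff.1 hy' δ hδ
  exact ⟨z, finEig_of_span U z hz, by rw [← dist_eq_norm]; exact hd.le⟩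

lemma ravg_add (N : ℕ) (F G : ℕ → ℕ → ℝ) :
    ravg N (fun m n => F m n + G m n) = ravg N F + ravg N G := by
  unfold ravg; simp only [Finset.sum_add_distrib]; ring

lemma ravg_smul (N : ℕ) (c : ℝ) (F : ℕ → ℕ → ℝ) :
    ravg N (fun m n => c * F m n) = c * ravg N F := by
  unfold ravg; simp only [← Finset.mul_sum]; ring

lemma ravg_sum {ι : Type} (s : Finset ι) (N : ℕ) (F : ι → ℕ → ℕ → ℝ) :
    ravg N (fun m n => ∑ i ∈ s, F i m n) = ∑ i ∈ s, ravg N (F i) := by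
  classical
  induction s using Finset.induction_on with
  | empty => simp [ravg]
  | insert a s ha ih =>
    simp only [Finset.sum_insert ha]
    rw [ravg_add, ih]

/-- weighted displacement estimate, one operator -/
lemma disp_avg (U : E →ₗᵢ[ℂ] E) {ι : Type} [Fintype ι] (e : ι → E) (l : ι → ℂ)
    (he : ∀ i, U (e i) = l i • e i) (y : E) (δ : ℝ) (hδ : 0 < δ)
    (hy : ‖y - ∑ i, e i‖ ≤ δ / 8) (φ : ℕ → ℕ → ℕ)
    (W : ℕ → ℕ → ℝ) (M : ℝ) (hM : 0 < M) (hW0 : ∀ m n, 0 ≤ W m n)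
    (hWM : Tendsto (fun N => ravg N W) atTop (𝓝 M))
    (t : ℝ) (ht : 0 < t) (hte : t * (∑ i, ‖e i‖) ≤ δ / 3)
    (hdev : ∀ i, ∀ᶠ N in atTop, ravg N (fun m n => W m n * ‖l i ^ (φ m n) - 1‖ ^ 2) ≤ t ^ 2 * M) :
    ∀ᶠ N in atTop, ravg N (fun m n => W m n * ‖(U ^ (φ m n)) y - y‖) ≤ δ * M := by
  have hW2 : ∀ᶠ N in atTop, ravg N W ≤ 2 * M :=
    (hWM.eventually (gt_mem_nhds (show M < 2 * M by linarith))).mono fun N h => h.le
  have hall : ∀ᶠ N in atTop, ∀ i, ravg N (fun m n => W m n * ‖l i ^ (φ m n) - 1‖ ^ 2)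
      ≤ t ^ 2 * M := by
    rw [Filter.eventually_all]; exact hdev
  filter_upwards [hW2, hall] with N h2 hd
  have hpt : ∀ m n, W m n * ‖(U ^ (φ m n)) y - y‖ ≤ 2 * (δ / 8) * W m n +
      ∑ i, ‖e i‖ * ((t / 2) * W m n + (2 * t)⁻¹ * (W m n * ‖l i ^ (φ m n) - 1‖ ^ 2)) := by
    intro m n
    have h3 := disp_le U e l he y (φ m n)
    have h4 : ∀ i, ‖l i ^ (φ m n) - 1‖ ≤ t / 2 + (2 * t)⁻¹ * ‖l i ^ (φ m n) - 1‖ ^ 2 := by
      intro i
      have h5 : t / 2 + (2 * t)⁻¹ * ‖l i ^ (φ m n) - 1‖ ^ 2 - ‖l i ^ (φ m n) - 1‖ =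
          (2 * t)⁻¹ * (‖l i ^ (φ m n) - 1‖ - t) ^ 2 := by field_simp; ring
      have h6 : 0 ≤ (2 * t)⁻¹ * (‖l i ^ (φ m n) - 1‖ - t) ^ 2 := by positivity
      linarith
    calc W m n * ‖(U ^ (φ m n)) y - y‖ ≤ W m n * (2 * (δ / 8) +
          ∑ i, (t / 2 + (2 * t)⁻¹ * ‖l i ^ (φ m n) - 1‖ ^ 2) * ‖e i‖) := by
          refine mul_le_mul_of_nonneg_left (h3.trans ?_) (hW0 m n)
          refine add_le_add (by linarith) (Finset.sum_le_sum fun i _ => ?_)
          exact mul_le_mul_of_nonneg_right (h4 i) (norm_nonneg _)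
      _ = _ := by
          rw [mul_add, Finset.mul_sum]
          congr 1
          · ring
          · refine Finset.sum_congr rfl fun i _ => ?_
            ring
  refine (ravg_mono N hpt).trans ?_
  rw [ravg_add, ravg_smul, ravg_sum]
  have h7 : ∀ i ∈ (Finset.univ : Finset ι), ravg N (fun m n => ‖e i‖ * ((t / 2) * W m n +
      (2 * t)⁻¹ * (W m n * ‖l i ^ (φ m n) - 1‖ ^ 2))) ≤ ‖e i‖ * (3 / 2 * t * M) := by
    intro i _
    rw [ravg_smul, ravg_add, ravg_smul, ravg_smul]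
    refine mul_le_mul_of_nonneg_left ?_ (norm_nonneg _)
    have h8 := hd i
    have h9 : (2 * t)⁻¹ * ravg N (fun m n => W m n * ‖l i ^ (φ m n) - 1‖ ^ 2) ≤ t / 2 * M := by
      calc (2 * t)⁻¹ * ravg N (fun m n => W m n * ‖l i ^ (φ m n) - 1‖ ^ 2)
          ≤ (2 * t)⁻¹ * (t ^ 2 * M) := by gcongr
        _ = t / 2 * M := by field_simp
    have h10 : t / 2 * ravg N W ≤ t / 2 * (2 * M) := by gcongr
    linarith
  have h11 := Finset.sum_le_sum h7
  rw [← Finset.sum_mul] at h11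
  have h12 : (∑ i, ‖e i‖) * (3 / 2 * t * M) ≤ δ / 2 * M := by
    nlinarith
  have h13 : 2 * (δ / 8) * ravg N W ≤ δ / 2 * M := by nlinarith
  linarith

/-- weighted averages kill the orthogonal complement -/
lemma wavg_kill [CompleteSpace E] (U : E →ₗᵢ[ℂ] E) (g : E) (hg : g ∈ (EigSpan U)ᗮ)
    (W : ℕ → ℕ → ℂ) (hW : HasExp W) :
    Tendsto (fun N : ℕ => ((N : ℂ) ^ 2)⁻¹ • ∑ m ∈ range N, ∑ n ∈ range N, W m n • (U ^ m) g)
      atTop (𝓝 0) := by
  obtain ⟨Q, S, w, α, β, hα, hβ, hWe⟩ := hW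
  have h1 : ∀ q ∈ S, Tendsto (fun N : ℕ => w q • (((N : ℂ)⁻¹ * ∑ n ∈ range N, β q ^ n) •
      tavg U (α q) N g)) atTop (𝓝 0) := by
    intro q _
    have h2 := (char_avg (β q) (hβ q)).smul (tavg_tendsto_zero U (α q) (hα q) g hg)
    simpa using h2.const_smul (w q)
  have h3 := tendsto_finsetSum S h1
  rw [Finset.sum_const_zero] at h3
  refine h3.congr fun N => ?_
  simp_rw [hWe]
  calc ∑ q ∈ S, w q • (((N : ℂ)⁻¹ * ∑ n ∈ range N, β q ^ n) • tavg U (α q) N g)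
      = ∑ q ∈ S, ((N : ℂ) ^ 2)⁻¹ • ∑ m ∈ range N, ∑ n ∈ range N,
          (w q * (α q ^ m * β q ^ n)) • (U ^ m) g := by
        refine Finset.sum_congr rfl fun q _ => ?_
        unfold tavg
        have e1 : ∀ m ∈ range N, ∑ n ∈ range N, (w q * (α q ^ m * β q ^ n)) • (U ^ m) g =
            (w q * (∑ n ∈ range N, β q ^ n)) • (α q ^ m • (U ^ m) g) := by
          intro m _
          rw [← Finset.sum_smul, smul_smul]
          congr 1
          rw [← Finset.mul_sum, ← Finset.mul_sum]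
          ring
        rw [Finset.sum_congr rfl e1, ← Finset.smul_sum, smul_smul, smul_smul, smul_smul]
        congr 1
        rw [sq, mul_inv]; ring
    _ = ((N : ℂ) ^ 2)⁻¹ • ∑ q ∈ S, ∑ m ∈ range N, ∑ n ∈ range N,
          (w q * (α q ^ m * β q ^ n)) • (U ^ m) g := by rw [Finset.smul_sum]
    _ = ((N : ℂ) ^ 2)⁻¹ • ∑ m ∈ range N, ∑ q ∈ S, ∑ n ∈ range N,
          (w q * (α q ^ m * β q ^ n)) • (U ^ m) g := by rw [Finset.sum_comm]
    _ = _ := by
        congr 1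
        refine Finset.sum_congr rfl fun m _ => ?_
        rw [Finset.sum_comm]
        refine Finset.sum_congr rfl fun n _ => ?_
        rw [Finset.sum_smul]

end hilbert

end

end Pool.Agent.Helper498.NCR
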