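import Mathlib
import Pool.Agent.Helper498.NCR.Koopman

set_option autoImplicit false
open Finset Filter Topology MeasureTheory

namespace Pool.Agent.Helper498.NCR

noncomputable section

variable {Ω : Type*} [MeasurableSpace Ω]

/-- truncated distance -/
def dd (a b : ℕ) : ℕ := (a - b) + (b - a)

lemma sum_dd_row (F : ℕ → ℝ) (hF : ∀ d, 0 ≤ F d) (H h : ℕ) (hh : h < H) :
    ∑ h' ∈ range H, F (dd h h') ≤ 2 * ∑ d ∈ range H, F d := by
  rw [← Finset.sum_filter_add_sum_filter_not (range H) (fun h' => h' ≤ h)]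
  have h1 : ∑ h' ∈ (range H).filter (fun h' => h' ≤ h), F (dd h h') ≤ ∑ d ∈ range H, F d := by
    have hinj : Set.InjOn (dd h) ((range H).filter (fun h' => h' ≤ h) : Finset ℕ) := by
      intro a ha b hb hab
      simp only [coe_filter, mem_range, Set.mem_ofPred_eq] at ha hb
      unfold dd at hab; omega
    rw [← Finset.sum_image (f := F) hinj]
    refine Finset.sum_le_sum_of_subset_of_nonneg ?_ fun _ _ _ => hF _
    intro d hd
    simp only [mem_image, mem_filter, mem_range] at hd ⊢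
    obtain ⟨a, ⟨_, _⟩, rfl⟩ := hd
    unfold dd; omega
  have h2 : ∑ h' ∈ (range H).filter (fun h' => ¬ h' ≤ h), F (dd h h') ≤ ∑ d ∈ range H, F d := by
    have hinj : Set.InjOn (dd h) ((range H).filter (fun h' => ¬ h' ≤ h) : Finset ℕ) := by
      intro a ha b hb hab
      simp only [coe_filter, mem_range, Set.mem_ofPred_eq] at ha hb
      unfold dd at hab; omega
    rw [← Finset.sum_image (f := F) hinj]
    refine Finset.sum_le_sum_of_subset_of_nonneg ?_ fun _ _ _ => hF _
    intro d hd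
    simp only [mem_image, mem_filter, mem_range] at hd ⊢
    obtain ⟨a, ⟨_, _⟩, rfl⟩ := hd
    unfold dd; omega
  linarith

lemma sum_dd_le (F : ℕ → ℝ) (hF : ∀ d, 0 ≤ F d) (H s : ℕ) (hs1 : 1 ≤ s) (hs2 : s ≤ 2) :
    ∑ h ∈ range H, ∑ h' ∈ range H, F (s * dd h h') ≤ H * (2 * ∑ d ∈ range (2 * H), F d) := by
  have h1 : ∑ d ∈ range H, F (s * d) ≤ ∑ d ∈ range (2 * H), F d := by
    have hinj : Set.InjOn (fun d => s * d) (range H : Finset ℕ) := by
      intro a _ b _ hab
      exact Nat.eq_of_mul_eq_mul_left hs1 hab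
    rw [← Finset.sum_image (f := F) (g := fun d => s * d) hinj]
    refine Finset.sum_le_sum_of_subset_of_nonneg ?_ fun _ _ _ => hF _
    intro d hd
    simp only [mem_image, mem_range] at hd ⊢
    obtain ⟨a, ha, rfl⟩ := hd
    nlinarith
  calc ∑ h ∈ range H, ∑ h' ∈ range H, F (s * dd h h')
      ≤ ∑ h ∈ range H, (2 * ∑ d ∈ range H, F (s * d)) :=
        Finset.sum_le_sum fun h hh =>
          sum_dd_row (fun d => F (s * d)) (fun d => hF _) H h (mem_range.1 hh)
    _ = H * (2 * ∑ d ∈ range H, F (s * d)) := by rw [sum_const, card_range, nsmul_eq_mul]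
    _ ≤ _ := by gcongr

/-- an invariant piece is a.e. strictly invariant -/
lemma ae_mem_iff {μ : Measure Ω} [IsFiniteMeasure μ] {T : Ω → Ω} (hT : MeasurePreserving T μ μ)
    {B : Set Ω} (hB : MeasurableSet B)
    (hTB : MeasurePreserving T (μ.restrict B) (μ.restrict B)) :
    ∀ᵐ x ∂μ, (T x ∈ B ↔ x ∈ B) := by
  have h1 : (μ.restrict B) (T ⁻¹' Bᶜ) = 0 := by
    rw [hTB.measure_preimage hB.compl.nullMeasurableSet, Measure.restrict_apply hB.compl]
    simp
  rw [Measure.restrict_apply (hT.measurable hB.compl)] at h1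
  -- B \ T⁻¹ B null
  have h2 : μ (B \ T ⁻¹' B) = 0 := by
    have : B \ T ⁻¹' B = T ⁻¹' Bᶜ ∩ B := by ext x; simp [and_comm]
    rw [this]; exact h1
  have h3 : μ (T ⁻¹' B \ B) = 0 := by
    have e1 : μ (T ⁻¹' B) = μ B := hT.measure_preimage hB.nullMeasurableSet
    have e2 : μ (T ⁻¹' B ∩ B) + μ (T ⁻¹' B \ B) = μ (T ⁻¹' B) := measure_inter_add_sdiff _ hB
    have e3 : μ (B ∩ T ⁻¹' B) + μ (B \ T ⁻¹' B) = μ B :=
      measure_inter_add_sdiff _ (hT.measurable hB)
    rw [h2, add_zero, Set.inter_comm] at e3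
    rw [e1, e3] at e2
    have e4 : μ B ≠ ⊤ := measure_ne_top _ _
    by_contra h
    have : μ B < μ B + μ (T ⁻¹' B \ B) := ENNReal.lt_add_right e4 h
    rw [e2] at this
    exact lt_irrefl _ this
  have h4 : ∀ᵐ x ∂μ, x ∉ B \ T ⁻¹' B := measure_eq_zero_iff_ae_notMem.1 h2
  have h5 : ∀ᵐ x ∂μ, x ∉ T ⁻¹' B \ B := measure_eq_zero_iff_ae_notMem.1 h3
  filter_upwards [h4, h5] with x hx1 hx2
  simp only [Set.mem_sdiff, Set.mem_preimage, not_and, not_not] at hx1 hx2
  exact ⟨hx2, hx1⟩

lemma ae_mem_iterate {μ : Measure Ω} [IsFiniteMeasure μ] {T : Ω → Ω}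
    (hT : MeasurePreserving T μ μ) {B : Set Ω} (hB : MeasurableSet B)
    (hTB : MeasurePreserving T (μ.restrict B) (μ.restrict B)) (d : ℕ) :
    ∀ᵐ x ∂μ, (T^[d] x ∈ B ↔ x ∈ B) :=
  ae_mem_iff (hT.iterate d) hB (hTB.iterate d)

lemma measurable_ind {B : Set Ω} (hB : MeasurableSet B) {g : Ω → ℂ} (hg : Measurable g) :
    Measurable (B.indicator g) := hg.indicator hB

omit [MeasurableSpace Ω] in
lemma norm_ind_le {B : Set Ω} {g : Ω → ℂ} (hg1 : ∀ x, ‖g x‖ ≤ 1) (x : Ω) :
    ‖B.indicator g x‖ ≤ 1 := (norm_indicator_le_norm_self g x).trans (hg1 x)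

/-- Cutting to an invariant set preserves orthogonality to eigenfunctions. -/
lemma ind_orth {μ : Measure Ω} [IsFiniteMeasure μ] {T : Ω → Ω} (hT : MeasurePreserving T μ μ)
    {B : Set Ω} (hB : MeasurableSet B)
    (hTB : MeasurePreserving T (μ.restrict B) (μ.restrict B)) {g : Ω → ℂ} (hg : Measurable g)
    (hg1 : ∀ x, ‖g x‖ ≤ 1)
    (horth : (memLp_bdd (μ := μ) hg hg1).toLp g ∈ (EigSpan (koop hT))ᗮ) :
    (memLp_bdd (μ := μ) (measurable_ind hB hg) (norm_ind_le (B := B) hg1)).toLp (B.indicator g)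
      ∈ (EigSpan (koop hT))ᗮ := by
  rw [Submodule.mem_orthogonal]
  intro y hy
  unfold EigSpan at hy
  induction hy using Submodule.span_induction with
  | zero => simp
  | add a b _ _ ha hb => rw [inner_add_left, ha, hb, add_zero]
  | smul c a _ ha => rw [inner_smul_left, ha, mul_zero]
  | mem y hy =>
    obtain ⟨l, hl, hUy⟩ := hy
    -- the cut vector
    have hyL : MemLp (B.indicator (y : Ω → ℂ)) 2 μ := (Lp.memLp y).indicator hB
    have hz : koop hT (hyL.toLp _) = l • (hyL.toLp _) := by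
      apply Lp.ext
      have e1 := koop_coe hT (hyL.toLp _)
      have e2 : (fun x => (hyL.toLp _ : Lp ℂ 2 μ) (T x)) =ᵐ[μ]
          fun x => B.indicator (y : Ω → ℂ) (T x) := hT.quasiMeasurePreserving.ae_eq_comp hyL.coeFn_toLp
      have e3 := koop_coe hT y
      rw [hUy] at e3
      have e4 := Lp.coeFn_smul l y
      have e5 := Lp.coeFn_smul l (hyL.toLp _)
      filter_upwards [e1, e2, e3, e4, e5, ae_mem_iff hT hB hTB, hyL.coeFn_toLp] with x
        f1 f2 f3 f4 f5 f6 f7
      rw [f1, f2, f5, Pi.smul_apply, f7]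
      rw [f3, Pi.smul_apply] at f4
      by_cases hx : x ∈ B
      · rw [Set.indicator_of_mem hx, Set.indicator_of_mem (f6.2 hx)]
        exact f4
      · rw [Set.indicator_of_notMem hx, Set.indicator_of_notMem (fun h => hx (f6.1 h)), smul_zero]
    have h1 := (Submodule.mem_orthogonal _ _).1 horth (hyL.toLp _)
      (Submodule.subset_span ⟨l, hl, hz⟩)
    rw [inner_eq] at h1 ⊢
    rw [← h1]
    refine integral_congr_ae ?_
    filter_upwards [hyL.coeFn_toLp, (memLp_bdd (μ := μ) hg hg1).coeFn_toLp,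
      (memLp_bdd (μ := μ) (measurable_ind hB hg) (norm_ind_le (B := B) hg1)).coeFn_toLp]
      with x f1 f2 f3
    rw [f1, f2, f3]
    by_cases hx : x ∈ B
    · rw [Set.indicator_of_mem hx, Set.indicator_of_mem hx]
    · rw [Set.indicator_of_notMem hx, Set.indicator_of_notMem hx]; simp

/-- correlation over an invariant piece -/
lemma corr_piece {μ : Measure Ω} [IsFiniteMeasure μ] {T : Ω → Ω} (hT : MeasurePreserving T μ μ)
    {B : Set Ω} (hB : MeasurableSet B)
    (hTB : MeasurePreserving T (μ.restrict B) (μ.restrict B)) {g : Ω → ℂ} (hg : Measurable g)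
    (hg1 : ∀ x, ‖g x‖ ≤ 1) (a b : ℕ) :
    ‖∫ x in B, g (T^[a] x) * (starRingEnd ℂ) (g (T^[b] x)) ∂μ‖ =
      ‖inner ℂ ((memLp_bdd (μ := μ) (measurable_ind hB hg)
          (norm_ind_le (B := B) hg1)).toLp (B.indicator g))
        ((koop hT ^ (dd a b)) ((memLp_bdd (μ := μ) (measurable_ind hB hg)
          (norm_ind_le (B := B) hg1)).toLp (B.indicator g)))‖ := by
  have key : ∀ a b : ℕ, b ≤ a → ∫ x in B, g (T^[a] x) * (starRingEnd ℂ) (g (T^[b] x)) ∂μ =
      inner ℂ ((memLp_bdd (μ := μ) (measurable_ind hB hg)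
          (norm_ind_le (B := B) hg1)).toLp (B.indicator g))
        ((koop hT ^ (a - b)) ((memLp_bdd (μ := μ) (measurable_ind hB hg)
          (norm_ind_le (B := B) hg1)).toLp (B.indicator g))) := by
    intro a b hab
    rw [koop_pow_toLp, inner_toLp]
    have hm : Measurable (fun y => g (T^[a - b] y) * (starRingEnd ℂ) (g y)) :=
      (hg.comp (hT.measurable.iterate _)).mul (Complex.continuous_conj.measurable.comp hg)
    have h1 : ∫ x in B, g (T^[a] x) * (starRingEnd ℂ) (g (T^[b] x)) ∂μ =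
        ∫ x in B, g (T^[a - b] x) * (starRingEnd ℂ) (g x) ∂μ := by
      have h2 := integral_map (μ := μ.restrict B) (φ := T^[b])
        (hTB.iterate b).measurable.aemeasurable
        (f := fun y => g (T^[a - b] y) * (starRingEnd ℂ) (g y)) hm.aestronglyMeasurable
      rw [(hTB.iterate b).map_eq] at h2
      rw [h2]
      refine integral_congr_ae (Eventually.of_forall fun x => ?_)
      simp only
      rw [← Function.iterate_add_apply, Nat.sub_add_cancel hab]
    rw [h1, ← integral_indicator hB]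
    refine integral_congr_ae ?_
    filter_upwards [ae_mem_iterate hT hB hTB (a - b)] with x hx
    simp only [Function.comp_apply]
    by_cases hxB : x ∈ B
    · rw [Set.indicator_of_mem hxB, Set.indicator_of_mem hxB, Set.indicator_of_mem (hx.2 hxB)]
      ring
    · rw [Set.indicator_of_notMem hxB, Set.indicator_of_notMem hxB]; simp
  rcases le_total b a with hab | hab
  · rw [key a b hab]
    have : dd a b = a - b := by unfold dd; omega
    rw [this]
  · have h1 : ∫ x in B, g (T^[a] x) * (starRingEnd ℂ) (g (T^[b] x)) ∂μ =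
        (starRingEnd ℂ) (∫ x in B, g (T^[b] x) * (starRingEnd ℂ) (g (T^[a] x)) ∂μ) := by
      rw [← integral_conj]
      refine integral_congr_ae (Eventually.of_forall fun x => ?_)
      simp only [map_mul, Complex.conj_conj]
      ring
    rw [h1, RCLike.norm_conj, key b a hab]
    have : dd a b = b - a := by unfold dd; omega
    rw [this]

theorem ctrl_of_components {μ : Measure Ω} [IsProbabilityMeasure μ] {T : Ω → Ω}
    (hT : MeasurePreserving T μ μ) (B : ℕ → Set Ω) (hBm : ∀ i, MeasurableSet (B i))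
    (hBe : ∀ i, Ergodic T (μ.restrict (B i))) (hBc : μ (⋃ i, B i)ᶜ = 0)
    {g : Ω → ℂ} (hg : Measurable g) (hg1 : ∀ x, ‖g x‖ ≤ 1)
    (horth : (memLp_bdd (μ := μ) hg hg1).toLp g ∈ (EigSpan (koop hT))ᗮ)
    (s : ℕ) (hs1 : 1 ≤ s) (hs2 : s ≤ 2) : Ctrl μ T g s := by
  intro ε hε
  -- the tail
  set R : ℕ → Set Ω := fun I => (⋃ i ∈ range I, B i)ᶜ with hR
  have hRm : ∀ I, MeasurableSet (R I) := fun I =>
    (Finset.measurableSet_biUnion _ fun i _ => hBm i).compl
  have hRlim : Tendsto (fun I => μ (R I)) atTop (𝓝 0) := by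
    have hanti : Antitone R := by
      intro I I' hII'
      apply Set.compl_subset_compl.2
      intro x hx
      simp only [Set.mem_iUnion, mem_range] at hx ⊢
      obtain ⟨i, hi, hxi⟩ := hx
      exact ⟨i, lt_of_lt_of_le hi hII', hxi⟩
    have h1 := tendsto_measure_iInter_atTop (μ := μ) (s := R)
      (fun I => (hRm I).nullMeasurableSet) hanti ⟨0, measure_ne_top _ _⟩
    have h2 : ⋂ I, R I = (⋃ i, B i)ᶜ := by
      ext x
      simp only [hR, Set.mem_iInter, Set.mem_compl_iff, Set.mem_iUnion, mem_range, not_exists]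
      constructor
      · intro h i hi
        exact h (i + 1) i (Nat.lt_succ_self i) hi
      · intro h I i _ hi
        exact h i hi
    rw [h2, hBc] at h1
    exact h1
  obtain ⟨I, hI⟩ : ∃ I, (μ (R I)).toReal ≤ ε / 4 := by
    have h1 : Tendsto (fun I => (μ (R I)).toReal) atTop (𝓝 0) := by
      simpa [Function.comp_def] using (ENNReal.tendsto_toReal ENNReal.zero_ne_top).comp hRlim
    obtain ⟨I, hI⟩ := (h1.eventually (gt_mem_nhds (show (0 : ℝ) < ε / 4 by positivity))).exists
    exact ⟨I, hI.le⟩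
  -- Wiener on each piece
  set V : ℕ → Lp ℂ 2 μ := fun i => (memLp_bdd (μ := μ) (measurable_ind (hBm i) hg)
      (norm_ind_le (B := B i) hg1)).toLp ((B i).indicator g) with hV
  have hVorth : ∀ i, V i ∈ (EigSpan (koop hT))ᗮ := fun i =>
    ind_orth hT (hBm i) (hBe i).toMeasurePreserving hg hg1 horth
  set ε' : ℝ := ε / (16 * (I + 1)) with hε'
  have hε'0 : 0 < ε' := by positivity
  choose k₀ hk₀ using fun i => wiener_one (koop hT) (V i) (hVorth i) ε' hε'0
  set K : ℕ := (range I).sup k₀ with hK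
  set H : ℕ := 2 ^ K with hH
  have hH1 : 1 ≤ H := Nat.one_le_two_pow
  have hH0 : (0 : ℝ) < H := by exact_mod_cast hH1
  have hW : ∀ i ∈ range I, ∑ d ∈ range (2 * H), ‖inner ℂ (V i) ((koop hT ^ d) (V i))‖
      ≤ 2 * H * ε' := by
    intro i hi
    have h1 : k₀ i ≤ K + 1 := (Finset.le_sup hi).trans (Nat.le_succ _)
    have h2 := hk₀ i (K + 1) h1
    have h3 : 2 ^ (K + 1) = 2 * H := by rw [hH, pow_succ]; ring
    rw [h3] at h2
    have h4 : (0 : ℝ) < ((2 * H : ℕ) : ℝ) := by push_cast; positivity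
    rw [inv_mul_le_iff₀ h4] at h2
    push_cast at h2
    linarith
  -- choose J
  set G : ℕ → ℕ → Ω → ℂ := fun h h' y => g (T^[s * h] y) * (starRingEnd ℂ) (g (T^[s * h'] y))
    with hG
  have hGm : ∀ h h', Measurable (G h h') := fun h h' =>
    (hg.comp (hT.measurable.iterate _)).mul
      (Complex.continuous_conj.measurable.comp (hg.comp (hT.measurable.iterate _)))
  have hG1 : ∀ h h' y, ‖G h h' y‖ ≤ 1 := by
    intro h h' y
    simp only [hG, norm_mul, RCLike.norm_conj]
    simpa using mul_le_mul (hg1 _) (hg1 _) (norm_nonneg _) zero_le_one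
  have hJev : ∀ᶠ J : ℕ in atTop, ∀ i ∈ range I, ∀ h ∈ range H, ∀ h' ∈ range H,
      ∫ x in B i, ‖(J : ℂ)⁻¹ * ∑ j ∈ range J, G h h' (T^[j] x)‖ ∂μ ≤
        ‖∫ x in B i, G h h' x ∂μ‖ + ε' := by
    rw [Filter.eventually_all_finset]; intro i _
    rw [Filter.eventually_all_finset]; intro h _
    rw [Filter.eventually_all_finset]; intro h' _
    exact erg_avg (hBe i) (hGm h h') (hG1 h h') ε' hε'0
  obtain ⟨J, hJ, hJ1⟩ := (hJev.and (eventually_ge_atTop 1)).exists
  refine ⟨H, J, hH1, hJ1, ?_⟩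
  have hJ0 : (0 : ℝ) < J := by exact_mod_cast hJ1
  -- the local averages
  set D : ℕ → ℕ → Ω → ℝ := fun h h' x => ‖(J : ℂ)⁻¹ * ∑ j ∈ range J, G h h' (T^[j] x)‖ with hD
  have hDm : ∀ h h', Measurable (D h h') := fun h h' =>
    (Measurable.const_mul (Finset.measurable_sum _ fun j _ =>
      (hGm h h').comp (hT.measurable.iterate j)) _).norm
  have hD1 : ∀ h h' x, D h h' x ≤ 1 := by
    intro h h' x
    simp only [hD]
    rw [norm_mul, norm_inv, Complex.norm_natCast]
    calc (J : ℝ)⁻¹ * ‖∑ j ∈ range J, G h h' (T^[j] x)‖ ≤ (J : ℝ)⁻¹ * ∑ j ∈ range J, (1 : ℝ) := by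
          gcongr
          exact (norm_sum_le _ _).trans (Finset.sum_le_sum fun j _ => hG1 _ _ _)
      _ = 1 := by simp; field_simp
  have hD0 : ∀ h h' x, 0 ≤ D h h' x := fun _ _ _ => norm_nonneg _
  have hDint : ∀ h h', Integrable (D h h') μ := fun h h' =>
    integrable_of_bdd (hDm h h') 1 fun x => by
      rw [Real.norm_of_nonneg (hD0 _ _ _)]; exact hD1 _ _ _
  have hbound : ∀ h ∈ range H, ∀ h' ∈ range H, ∫ x, D h h' x ∂μ ≤
      ∑ i ∈ range I, (‖inner ℂ (V i) ((koop hT ^ (s * dd h h')) (V i))‖ + ε') + ε / 4 := by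
    intro h hh h' hh'
    have h1 : ∫ x, D h h' x ∂μ = ∫ x in ⋃ i ∈ range I, B i, D h h' x ∂μ +
        ∫ x in R I, D h h' x ∂μ :=
      (integral_add_compl (Finset.measurableSet_biUnion _ fun i _ => hBm i) (hDint h h')).symm
    have h2 : ∫ x in R I, D h h' x ∂μ ≤ ε / 4 := by
      have : ∫ x in R I, D h h' x ∂μ ≤ ∫ x in R I, (1 : ℝ) ∂μ :=
        integral_mono ((hDint h h').integrableOn) (integrable_const _) fun x => hD1 _ _ _
      refine this.trans ?_
      rw [setIntegral_const]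
      simpa [Measure.real] using hI
    have h3 : ∫ x in ⋃ i ∈ range I, B i, D h h' x ∂μ ≤ ∑ i ∈ range I, ∫ x in B i, D h h' x ∂μ := by
      have hgen : ∀ S : Finset ℕ, ∫ x in ⋃ i ∈ S, B i, D h h' x ∂μ ≤
          ∑ i ∈ S, ∫ x in B i, D h h' x ∂μ := by
        intro S
        induction S using Finset.induction_on with
        | empty => simp
        | insert a S ha ih =>
          rw [Finset.set_biUnion_insert, Finset.sum_insert ha]
          have h4 : ∫ x in B a ∪ ⋃ i ∈ S, B i, D h h' x ∂μ ≤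
              ∫ x in B a, D h h' x ∂μ + ∫ x in ⋃ i ∈ S, B i, D h h' x ∂μ := by
            rw [← Set.union_sdiff_self, setIntegral_union Set.disjoint_sdiff_right
              ((Finset.measurableSet_biUnion _ fun i _ => hBm i).diff (hBm a))
              (hDint h h').integrableOn (hDint h h').integrableOn]
            have h9 : ∫ x in (⋃ i ∈ S, B i) \ B a, D h h' x ∂μ ≤
                ∫ x in ⋃ i ∈ S, B i, D h h' x ∂μ :=
              setIntegral_mono_set (hDint h h').integrableOn
                (Eventually.of_forall fun x => hD0 _ _ _)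
                (LE.le.eventuallyLE Set.sdiff_subset)
            linarith
          linarith
      exact hgen _
    have h5 : ∀ i ∈ range I, ∫ x in B i, D h h' x ∂μ ≤
        ‖inner ℂ (V i) ((koop hT ^ (s * dd h h')) (V i))‖ + ε' := by
      intro i hi
      refine (hJ i hi h hh h' hh').trans ?_
      have h6 := corr_piece hT (hBm i) (hBe i).toMeasurePreserving hg hg1 (s * h) (s * h')
      have h7 : dd (s * h) (s * h') = s * dd h h' := by
        unfold dd; rw [Nat.mul_add, Nat.mul_sub, Nat.mul_sub]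
      rw [h7] at h6
      simp only [hG]
      rw [h6]
    rw [h1]
    have h8 := Finset.sum_le_sum h5
    linarith
  -- put together
  have hrw : ∀ h h', ∫ x, ‖(J : ℂ)⁻¹ * ∑ j ∈ range J, g (T^[s * h + j] x) *
        (starRingEnd ℂ) (g (T^[s * h' + j] x))‖ ∂μ = ∫ x, D h h' x ∂μ := by
    intro h h'
    simp only [hD, hG]
    simp_rw [← Function.iterate_add_apply]
  simp_rw [hrw]
  have hfin : ∑ h ∈ range H, ∑ h' ∈ range H, ∫ x, D h h' x ∂μ ≤
      ∑ i ∈ range I, (H * (2 * (2 * H * ε'))) + H * (H * (I * ε' + ε / 4)) := by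
    calc ∑ h ∈ range H, ∑ h' ∈ range H, ∫ x, D h h' x ∂μ
        ≤ ∑ h ∈ range H, ∑ h' ∈ range H,
          (∑ i ∈ range I, (‖inner ℂ (V i) ((koop hT ^ (s * dd h h')) (V i))‖ + ε') + ε / 4) :=
          Finset.sum_le_sum fun h hh => Finset.sum_le_sum fun h' hh' => hbound h hh h' hh'
      _ = ∑ i ∈ range I, (∑ h ∈ range H, ∑ h' ∈ range H,
            ‖inner ℂ (V i) ((koop hT ^ (s * dd h h')) (V i))‖) + H * (H * (I * ε' + ε / 4)) := by
          have sw : ∑ h ∈ range H, ∑ h' ∈ range H, ∑ i ∈ range I,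
              ‖inner ℂ (V i) ((koop hT ^ (s * dd h h')) (V i))‖ =
              ∑ i ∈ range I, ∑ h ∈ range H, ∑ h' ∈ range H,
              ‖inner ℂ (V i) ((koop hT ^ (s * dd h h')) (V i))‖ := by
            calc ∑ h ∈ range H, ∑ h' ∈ range H, ∑ i ∈ range I,
              ‖inner ℂ (V i) ((koop hT ^ (s * dd h h')) (V i))‖
                = ∑ h ∈ range H, ∑ i ∈ range I, ∑ h' ∈ range H,
              ‖inner ℂ (V i) ((koop hT ^ (s * dd h h')) (V i))‖ :=
                  Finset.sum_congr rfl fun h _ => Finset.sum_comm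
              _ = _ := Finset.sum_comm
          rw [← sw]
          simp only [Finset.sum_add_distrib, sum_const, card_range, nsmul_eq_mul]
          ring
      _ ≤ _ := by
          gcongr with i hi
          refine (sum_dd_le (fun d => ‖inner ℂ (V i) ((koop hT ^ d) (V i))‖)
            (fun d => norm_nonneg _) H s hs1 hs2).trans ?_
          gcongr
          exact hW i hi
  calc ((H : ℝ) ^ 2)⁻¹ * ∑ h ∈ range H, ∑ h' ∈ range H, ∫ x, D h h' x ∂μ
      ≤ ((H : ℝ) ^ 2)⁻¹ * (∑ i ∈ range I, (H * (2 * (2 * H * ε'))) +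
          H * (H * (I * ε' + ε / 4))) := by gcongr
    _ = 5 * (I * ε') + ε / 4 := by
        rw [sum_const, card_range, nsmul_eq_mul]; field_simp; ring
    _ ≤ ε := by
        have : (I : ℝ) * ε' ≤ ε / 16 := by
          rw [hε', mul_div_assoc', div_le_div_iff₀ (by positivity) (by positivity)]
          nlinarith
        linarith

end

end Pool.Agent.Helper498.NCR
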