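import Mathlib
import Pool.Agent.Helper498.NCR.Compact

set_option autoImplicit false
open Finset Filter Topology MeasureTheory

namespace Pool.Agent.Helper498.NCR

noncomputable section

variable {Ω : Type*} [MeasurableSpace Ω]

/-- complex numbers in `[0,1]` -/
def I01 : Set ℂ := {z : ℂ | 0 ≤ z.re ∧ z.re ≤ 1 ∧ z.im = 0}

lemma isClosed_I01 : IsClosed I01 := by
  have h1 : IsClosed {z : ℂ | 0 ≤ z.re} := isClosed_le continuous_const Complex.continuous_re
  have h2 : IsClosed {z : ℂ | z.re ≤ 1} := isClosed_le Complex.continuous_re continuous_const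
  have h3 : IsClosed {z : ℂ | z.im = 0} := isClosed_eq Complex.continuous_im continuous_const
  exact h1.inter (h2.inter h3)

/-- `L²` functions with values in `[0,1]`. -/
def Box01 (μ : Measure Ω) : Set (Lp ℂ 2 μ) := {F | ∀ᵐ x ∂μ, F x ∈ I01}

lemma isClosed_box01 (μ : Measure Ω) : IsClosed (Box01 μ) := by
  refine IsSeqClosed.isClosed ?_
  intro F f hF hlim
  have h1 := tendstoInMeasure_of_tendsto_Lp hlim
  obtain ⟨ns, _, hns⟩ := h1.exists_seq_tendsto_ae
  have h2 : ∀ᵐ x ∂μ, ∀ i, F (ns i) x ∈ I01 := ae_all_iff.2 fun i => hF (ns i)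
  change ∀ᵐ x ∂μ, f x ∈ I01
  filter_upwards [hns, h2] with x hx1 hx2
  exact isClosed_I01.mem_of_tendsto hx1 (Eventually.of_forall hx2)

/-- The closed span of the eigenvectors. -/
abbrev Ec {E : Type*} [NormedAddCommGroup E] [InnerProductSpace ℂ E] (U : E →ₗᵢ[ℂ] E) :
    Submodule ℂ E := (EigSpan U).topologicalClosure

lemma ecperp {E : Type*} [NormedAddCommGroup E] [InnerProductSpace ℂ E] (U : E →ₗᵢ[ℂ] E) :
    (Ec U)ᗮ = (EigSpan U)ᗮ := Submodule.orthogonal_closure _

variable {μ : Measure Ω} [IsProbabilityMeasure μ] {T : Ω → Ω}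

theorem proj_box (hT : MeasurePreserving T μ μ) {f : Ω → ℂ} (hf : MemLp f 2 μ)
    (hf01 : ∀ x, f x ∈ I01) :
    (Ec (koop hT)).starProjection (hf.toLp f) ∈ Box01 μ := by
  set U := koop hT with hU
  set y := (Ec U).starProjection (hf.toLp f) with hy
  have hyE : y ∈ Ec U := Submodule.starProjection_apply_mem _ _
  have hgperp : hf.toLp f - y ∈ (EigSpan U)ᗮ := by
    rw [← ecperp]; exact Submodule.sub_starProjection_mem_orthogonal _
  rw [← (isClosed_box01 μ).closure_eq, Metric.mem_closure_iff]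
  intro ε hε
  set δ : ℝ := ε / 8 with hδ
  have hδ0 : 0 < δ := by positivity
  obtain ⟨z, ⟨ι, _, e, l, hl, he, hz⟩, hyz⟩ := approx_of_closure U y hyE (δ / 8) (by positivity)
  set Se : ℝ := ∑ i, ‖e i‖ with hSe
  have hSe0 : 0 ≤ Se := Finset.sum_nonneg fun i _ => norm_nonneg _
  set t : ℝ := δ / (3 * (Se + 1)) with ht
  have ht0 : 0 < t := by positivity
  have htS : t * Se ≤ δ / 3 := by
    rw [ht, div_mul_eq_mul_div, div_le_div_iff₀ (by positivity) (by positivity)]
    nlinarith
  obtain ⟨W, M, hM, hW0, hW1, hWe, hWM, hWdev⟩ := weights_exist (a := l) (b := fun _ => 1) hl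
    (by simp) (t ^ 2) (by positivity)
  have hdisp := disp_avg U e l he y δ hδ0 (by rw [← hz]; exact hyz) (fun m _ => m) W M hM hW0 hWM t
    ht0 htS (fun i => by simpa using hWdev i)
  have hkill := wavg_kill U (hf.toLp f - y) hgperp _ hWe
  have hkill2 : ∀ᶠ N : ℕ in atTop, ‖((N : ℂ) ^ 2)⁻¹ • ∑ m ∈ range N, ∑ n ∈ range N,
      (W m n : ℂ) • (U ^ m) (hf.toLp f - y)‖ < δ * M := by
    have := hkill.norm
    rw [norm_zero] at this
    exact this.eventually (gt_mem_nhds (by positivity))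
  have hMhalf : ∀ᶠ N in atTop, M / 2 < ravg N W := hWM.eventually (lt_mem_nhds (by linarith))
  obtain ⟨N, hN1, hN2, hN3, hN4⟩ :=
    (hdisp.and (hkill2.and (hMhalf.and (eventually_ge_atTop 1)))).exists
  have hr0 : 0 < ravg N W := lt_trans (by positivity) hN3
  set Sf : Lp ℂ 2 μ := ((N : ℂ) ^ 2)⁻¹ • ∑ m ∈ range N, ∑ n ∈ range N,
      (W m n : ℂ) • (U ^ m) (hf.toLp f) with hSf
  refine ⟨((ravg N W : ℝ) : ℂ)⁻¹ • Sf, ?_, ?_⟩
  · -- membership
    have h1 : ∀ m : ℕ, ⇑((U ^ m) (hf.toLp f)) =ᵐ[μ] fun x => f (T^[m] x) := by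
      intro m
      rw [hU, koop_pow_toLp]
      exact MemLp.coeFn_toLp _
    have h2 : ⇑(((ravg N W : ℝ) : ℂ)⁻¹ • Sf) =ᵐ[μ] fun x => ((ravg N W : ℝ) : ℂ)⁻¹ *
        (((N : ℂ) ^ 2)⁻¹ * ∑ m ∈ range N, ∑ n ∈ range N, (W m n : ℂ) * f (T^[m] x)) := by
      have e1 := Lp.coeFn_smul (((ravg N W : ℝ) : ℂ)⁻¹) Sf
      have e2 := Lp.coeFn_smul (((N : ℂ) ^ 2)⁻¹) (∑ m ∈ range N, ∑ n ∈ range N,
        (W m n : ℂ) • (U ^ m) (hf.toLp f))
      have e3 := Lp.coeFn_finsetSum (range N) (fun m => ∑ n ∈ range N,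
        (W m n : ℂ) • (U ^ m) (hf.toLp f))
      have e4 : ∀ᵐ x ∂μ, ∀ m, (∑ n ∈ range N, (W m n : ℂ) • (U ^ m) (hf.toLp f) : Lp ℂ 2 μ) x =
          ∑ n ∈ range N, ((W m n : ℂ) • (U ^ m) (hf.toLp f) : Lp ℂ 2 μ) x := by
        rw [ae_all_iff]; intro m
        filter_upwards [Lp.coeFn_finsetSum (range N) (fun n =>
          (W m n : ℂ) • (U ^ m) (hf.toLp f))] with x hx
        rw [hx, Finset.sum_apply]
      have e5 : ∀ᵐ x ∂μ, ∀ m n, ((W m n : ℂ) • (U ^ m) (hf.toLp f) : Lp ℂ 2 μ) x =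
          (W m n : ℂ) * f (T^[m] x) := by
        rw [ae_all_iff]; intro m
        rw [ae_all_iff]; intro n
        filter_upwards [Lp.coeFn_smul (W m n : ℂ) ((U ^ m) (hf.toLp f)), h1 m] with x g1 g2
        rw [g1, Pi.smul_apply, g2, smul_eq_mul]
      filter_upwards [e1, e2, e3, e4, e5] with x g1 g2 g3 g4 g5
      rw [g1, Pi.smul_apply, hSf, g2, Pi.smul_apply, g3, Finset.sum_apply, smul_eq_mul, smul_eq_mul]
      congr 2
      refine Finset.sum_congr rfl fun m _ => ?_
      rw [g4 m]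
      exact Finset.sum_congr rfl fun n _ => g5 m n
    change ∀ᵐ x ∂μ, _ ∈ I01
    filter_upwards [h2] with x hx
    rw [hx]
    have h3 : ∀ m n, (W m n : ℂ) * f (T^[m] x) = ((W m n * (f (T^[m] x)).re : ℝ) : ℂ) := by
      intro m n
      have := (hf01 (T^[m] x)).2.2
      apply Complex.ext <;> simp [this]
    have h4 : ((ravg N W : ℝ) : ℂ)⁻¹ * (((N : ℂ) ^ 2)⁻¹ * ∑ m ∈ range N, ∑ n ∈ range N,
        (W m n : ℂ) * f (T^[m] x)) =
        (((ravg N W)⁻¹ * ravg N (fun m n => W m n * (f (T^[m] x)).re) : ℝ) : ℂ) := by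
      simp_rw [h3]
      unfold ravg
      push_cast
      rfl
    rw [h4]
    have h5 : 0 ≤ ravg N (fun m n => W m n * (f (T^[m] x)).re) := by
      unfold ravg
      have : ∀ m n, 0 ≤ W m n * (f (T^[m] x)).re := fun m n =>
        mul_nonneg (hW0 m n) (hf01 _).1
      have h6 : 0 ≤ ∑ m ∈ range N, ∑ n ∈ range N, W m n * (f (T^[m] x)).re :=
        Finset.sum_nonneg fun m _ => Finset.sum_nonneg fun n _ => this m n
      positivity
    have h6 : ravg N (fun m n => W m n * (f (T^[m] x)).re) ≤ ravg N W :=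
      ravg_mono N fun m n => mul_le_of_le_one_right (hW0 m n) (hf01 _).2.1
    refine ⟨?_, ?_, ?_⟩
    · rw [Complex.ofReal_re]; positivity
    · rw [Complex.ofReal_re, inv_mul_le_iff₀ hr0]; linarith
    · exact Complex.ofReal_im _
  · -- distance
    have h1 : Sf - ((ravg N W : ℝ) : ℂ) • y = (((N : ℂ) ^ 2)⁻¹ • ∑ m ∈ range N, ∑ n ∈ range N,
        (W m n : ℂ) • (U ^ m) (hf.toLp f - y)) + (((N : ℂ) ^ 2)⁻¹ • ∑ m ∈ range N,
        ∑ n ∈ range N, (W m n : ℂ) • ((U ^ m) y - y)) := by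
      rw [hSf, ← smul_add, ← Finset.sum_add_distrib]
      have e1 : ((ravg N W : ℝ) : ℂ) • y = ((N : ℂ) ^ 2)⁻¹ • ∑ m ∈ range N, ∑ n ∈ range N,
          (W m n : ℂ) • y := by
        simp_rw [← Finset.sum_smul]
        rw [smul_smul]
        congr 1
        unfold ravg; push_cast; rfl
      rw [e1, ← smul_sub, ← Finset.sum_sub_distrib]
      congr 1
      refine Finset.sum_congr rfl fun m _ => ?_
      rw [← Finset.sum_sub_distrib, ← Finset.sum_add_distrib]
      refine Finset.sum_congr rfl fun n _ => ?_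
      rw [map_sub]
      simp only [smul_sub]
      abel
    have h2 : ‖((N : ℂ) ^ 2)⁻¹ • ∑ m ∈ range N,
        ∑ n ∈ range N, (W m n : ℂ) • ((U ^ m) y - y)‖ ≤ δ * M := by
      refine le_trans ?_ hN1
      rw [norm_smul, norm_inv, norm_pow, Complex.norm_natCast]
      unfold ravg
      gcongr
      refine (norm_sum_le _ _).trans (Finset.sum_le_sum fun m _ => ?_)
      refine (norm_sum_le _ _).trans (Finset.sum_le_sum fun n _ => ?_)
      rw [norm_smul, Complex.norm_real, Real.norm_of_nonneg (hW0 m n)]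
    have h3 : ‖Sf - ((ravg N W : ℝ) : ℂ) • y‖ ≤ 2 * (δ * M) := by
      rw [h1]
      refine (norm_add_le _ _).trans ?_
      linarith
    have h4 : y - ((ravg N W : ℝ) : ℂ)⁻¹ • Sf =
        -(((ravg N W : ℝ) : ℂ)⁻¹ • (Sf - ((ravg N W : ℝ) : ℂ) • y)) := by
      have : ((ravg N W : ℝ) : ℂ) ≠ 0 := by exact_mod_cast hr0.ne'
      rw [smul_sub, inv_smul_smul₀ this]; abel
    rw [dist_eq_norm, h4, norm_neg, norm_smul, norm_inv, Complex.norm_real,
      Real.norm_of_nonneg hr0.le]
    calc (ravg N W)⁻¹ * ‖Sf - ((ravg N W : ℝ) : ℂ) • y‖ ≤ (M / 2)⁻¹ * (2 * (δ * M)) := by gcongr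
      _ = 4 * δ := by field_simp; ring
      _ < ε := by rw [hδ]; linarith

/-- indicator as a complex function -/
def cind (A : Set Ω) : Ω → ℂ := A.indicator fun _ => (1 : ℂ)

omit [MeasurableSpace Ω] in
lemma cind_I01 (A : Set Ω) (x : Ω) : cind A x ∈ I01 := by
  unfold cind
  by_cases hx : x ∈ A
  · rw [Set.indicator_of_mem hx]; exact ⟨by norm_num, by norm_num, by norm_num⟩
  · rw [Set.indicator_of_notMem hx]; exact ⟨by norm_num, by norm_num, by norm_num⟩

lemma cind_meas {A : Set Ω} (hA : MeasurableSet A) : Measurable (cind A) :=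
  measurable_const.indicator hA

omit [MeasurableSpace Ω] in
lemma I01_norm {z : ℂ} (hz : z ∈ I01) : ‖z‖ ≤ 1 := by
  have : z = ((z.re : ℝ) : ℂ) := by apply Complex.ext <;> simp [hz.2.2]
  rw [this, Complex.norm_real, Real.norm_of_nonneg hz.1]
  exact hz.2.1

omit [MeasurableSpace Ω] in
lemma cind_norm (A : Set Ω) (x : Ω) : ‖cind A x‖ ≤ 1 := I01_norm (cind_I01 A x)

lemma cind_memLp (μ : Measure Ω) [IsFiniteMeasure μ] {A : Set Ω} (hA : MeasurableSet A) :
    MemLp (cind A) 2 μ := memLp_bdd (cind_meas hA) (cind_norm A)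

/-- The compact part of an indicator. -/
theorem compact_part (hT : MeasurePreserving T μ μ) {A : Set Ω} (hA : MeasurableSet A) :
    ∃ f : Ω → ℝ, Measurable f ∧ (∀ x, 0 ≤ f x) ∧ (∀ x, f x ≤ 1) ∧
      (∀ h : MemLp (fun x => (f x : ℂ)) 2 μ, h.toLp _ ∈ Ec (koop hT)) ∧
      (∀ h : MemLp (fun x => cind A x - (f x : ℂ)) 2 μ, h.toLp _ ∈ (EigSpan (koop hT))ᗮ) ∧
      (∀ᵐ x ∂μ, x ∈ A → 0 < f x) := by
  set U := koop hT with hU
  set P := (Ec U).starProjection with hP
  set y : Lp ℂ 2 μ := P ((cind_memLp μ hA).toLp _) with hy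
  have hyBox : y ∈ Box01 μ := proj_box hT (cind_memLp μ hA) (cind_I01 A)
  have hyE : y ∈ Ec U := Submodule.starProjection_apply_mem _ _
  have hymeas : Measurable y := (Lp.stronglyMeasurable y).measurable
  set f : Ω → ℝ := fun x => max 0 (min 1 (y x).re) with hf
  have hfm : Measurable f := measurable_const.max (measurable_const.min
    (Complex.measurable_re.comp hymeas))
  have hf0 : ∀ x, 0 ≤ f x := fun x => le_max_left _ _
  have hf1 : ∀ x, f x ≤ 1 := fun x => max_le zero_le_one (min_le_left _ _)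
  have hfy : (fun x => (f x : ℂ)) =ᵐ[μ] y := by
    have hyb : ∀ᵐ x ∂μ, y x ∈ I01 := hyBox
    filter_upwards [hyb] with x hx
    have h1 : f x = (y x).re := by
      simp only [hf]
      rw [min_eq_right hx.2.1, max_eq_right hx.1]
    rw [h1]
    apply Complex.ext <;> simp [hx.2.2]
  refine ⟨f, hfm, hf0, hf1, ?_, ?_, ?_⟩
  · intro h
    have : h.toLp _ = y := by
      apply Lp.ext
      exact h.coeFn_toLp.trans hfy
    rw [this]; exact hyE
  · intro h
    have : h.toLp _ = (cind_memLp μ hA).toLp _ - y := by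
      apply Lp.ext
      refine h.coeFn_toLp.trans ?_
      filter_upwards [hfy, Lp.coeFn_sub ((cind_memLp μ hA).toLp _) y,
        (cind_memLp μ hA).coeFn_toLp] with x h1 h2 h3
      rw [h2, Pi.sub_apply, h3, h1]
    rw [this, ← ecperp]
    exact Submodule.sub_starProjection_mem_orthogonal _
  · -- positivity
    set C : Set Ω := A ∩ {x | f x = 0} with hC
    have hCm : MeasurableSet C := hA.inter (hfm (measurableSet_singleton 0))
    have hDm : MeasurableSet (A \ C) := hA.diff hCm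
    have hsplit : (cind_memLp μ hA).toLp (cind A) =
        (cind_memLp μ hCm).toLp (cind C) + (cind_memLp μ hDm).toLp (cind (A \ C)) := by
      apply Lp.ext
      refine (cind_memLp μ hA).coeFn_toLp.trans ?_
      filter_upwards [Lp.coeFn_add ((cind_memLp μ hCm).toLp (cind C))
        ((cind_memLp μ hDm).toLp (cind (A \ C))), (cind_memLp μ hCm).coeFn_toLp,
        (cind_memLp μ hDm).coeFn_toLp] with x h1 h2 h3
      rw [h1, Pi.add_apply, h2, h3]
      unfold cind
      by_cases hx : x ∈ A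
      · by_cases hxC : x ∈ C
        · rw [Set.indicator_of_mem hx, Set.indicator_of_mem hxC,
            Set.indicator_of_notMem (fun h => h.2 hxC), add_zero]
        · rw [Set.indicator_of_mem hx, Set.indicator_of_notMem hxC,
            Set.indicator_of_mem (show x ∈ A \ C from ⟨hx, hxC⟩), zero_add]
      · rw [Set.indicator_of_notMem hx, Set.indicator_of_notMem (fun h => hx h.1),
          Set.indicator_of_notMem (fun h => hx h.1), add_zero]
    set yC := P ((cind_memLp μ hCm).toLp (cind C)) with hyC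
    set yD := P ((cind_memLp μ hDm).toLp (cind (A \ C))) with hyD
    have hysum : y = yC + yD := by rw [hy, hsplit, map_add]
    have hyCb : ∀ᵐ x ∂μ, yC x ∈ I01 := proj_box hT (cind_memLp μ hCm) (cind_I01 C)
    have hyDb : ∀ᵐ x ∂μ, yD x ∈ I01 := proj_box hT (cind_memLp μ hDm) (cind_I01 (A \ C))
    have hzero : ∀ᵐ x ∂μ, x ∈ C → yC x = 0 := by
      filter_upwards [hyCb, hyDb, hfy, Lp.coeFn_add yC yD] with x h1 h2 h3 h4 hxC
      have h5 : f x = 0 := hxC.2
      rw [h5, hysum, h4, Pi.add_apply] at h3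
      have h6 : (yC x).re + (yD x).re = 0 := by
        have := congrArg Complex.re h3
        simpa using this.symm
      have h7 : (yC x).re = 0 := by linarith [h1.1, h2.1]
      exact Complex.ext (by simpa using h7) (by simpa using h1.2.2)
    have hin : inner ℂ ((cind_memLp μ hCm).toLp (cind C)) yC = 0 := by
      rw [inner_eq]
      have : ∫ x, (starRingEnd ℂ) (((cind_memLp μ hCm).toLp (cind C)) x) * yC x ∂μ =
          ∫ x, (0 : ℂ) ∂μ := by
        refine integral_congr_ae ?_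
        filter_upwards [hzero, (cind_memLp μ hCm).coeFn_toLp] with x h1 h2
        rw [h2]
        by_cases hx : x ∈ C
        · rw [h1 hx, mul_zero]
        · unfold cind; rw [Set.indicator_of_notMem hx]; simp
      rw [this]; simp
    have hyC0 : yC = 0 := by
      have h1 : inner ℂ ((cind_memLp μ hCm).toLp (cind C)) yC = inner ℂ yC yC := by
        have h2 : inner ℂ ((cind_memLp μ hCm).toLp (cind C) - yC) yC = 0 :=
          Submodule.starProjection_inner_eq_zero _ _ (Submodule.starProjection_apply_mem _ _)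
        rw [inner_sub_left, sub_eq_zero] at h2
        exact h2
      rw [h1] at hin
      exact inner_self_eq_zero.1 hin
    -- the constant function one
    have h1L : MemLp (fun _ : Ω => (1 : ℂ)) 2 μ := memLp_const 1
    have h1E : h1L.toLp _ ∈ Ec U := by
      refine Submodule.le_topologicalClosure _ (Submodule.subset_span ⟨1, by simp, ?_⟩)
      rw [one_smul]
      have := koop_pow_toLp hT 1 h1L
      rw [pow_one] at this
      rw [hU, this]
      rfl
    have hin1 : inner ℂ ((cind_memLp μ hCm).toLp (cind C)) (h1L.toLp _) = 0 := by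
      have h2 : inner ℂ ((cind_memLp μ hCm).toLp (cind C) - yC) (h1L.toLp _) = 0 :=
        Submodule.starProjection_inner_eq_zero _ _ h1E
      rw [hyC0, sub_zero] at h2
      exact h2
    rw [inner_toLp] at hin1
    have hμC : μ C = 0 := by
      have h2 : ∫ x, (starRingEnd ℂ) (cind C x) * 1 ∂μ = ((μ.real C : ℝ) : ℂ) := by
        have : (fun x => (starRingEnd ℂ) (cind C x) * 1) = C.indicator fun _ => (1 : ℂ) := by
          funext x
          unfold cind
          by_cases hx : x ∈ C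
          · simp [hx]
          · simp [hx]
        rw [this, integral_indicator hCm, setIntegral_const]
        simp
      rw [h2] at hin1
      have h3 : μ.real C = 0 := by exact_mod_cast hin1
      rw [Measure.real, ENNReal.toReal_eq_zero_iff] at h3
      exact h3.resolve_right (measure_ne_top _ _)
    have h3 : ∀ᵐ x ∂μ, x ∉ C := measure_eq_zero_iff_ae_notMem.1 hμC
    filter_upwards [h3] with x hx hxA
    rcases (hf0 x).lt_or_eq with h | h
    · exact h
    · exact absurd ⟨hxA, h.symm⟩ hx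

end

end Pool.Agent.Helper498.NCR
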