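import Mathlib
import Pool.Agent.Helper498.NCR.Positive

set_option autoImplicit false
open Finset Filter Topology MeasureTheory

namespace Pool.Agent.Helper498.NCR

noncomputable section

section hilbert
variable {E : Type*} [NormedAddCommGroup E] [InnerProductSpace ℂ E]

lemma eigSpan_sq (U : E →ₗᵢ[ℂ] E) : EigSpan (U ^ 2) ≤ EigSpan U := by
  unfold EigSpan
  rw [Submodule.span_le]
  rintro y ⟨l, hl, hy⟩
  have hU2 : U (U y) = l • y := by
    have h := U_pow_succ U 1 y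
    rw [pow_one] at h
    rw [← h]; exact hy
  obtain ⟨c, hc⟩ := IsAlgClosed.exists_pow_nat_eq l (n := 2) (by norm_num)
  have hcn : ‖c‖ = 1 := by
    have : ‖c‖ ^ 2 = 1 := by rw [← norm_pow, hc, hl]
    nlinarith [norm_nonneg c]
  have hc0 : c ≠ 0 := fun h => by simp [h] at hcn
  set y1 : E := (2 : ℂ)⁻¹ • (y + c⁻¹ • U y) with hy1
  set y2 : E := (2 : ℂ)⁻¹ • (y - c⁻¹ • U y) with hy2
  have e1 : U y1 = c • y1 := by
    rw [hy1, map_smul, map_add, map_smul, hU2, ← hc]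
    match_scalars <;> field_simp
  have e2 : U y2 = (-c) • y2 := by
    rw [hy2, map_smul, map_sub, map_smul, hU2, ← hc]
    match_scalars <;> field_simp
  have e3 : y = y1 + y2 := by
    rw [hy1, hy2, ← smul_add, add_add_sub_cancel, ← two_smul ℂ y, smul_smul]
    norm_num
  rw [e3]
  refine Submodule.add_mem _ (Submodule.subset_span ⟨c, hcn, e1⟩)
    (Submodule.subset_span ⟨-c, by rw [norm_neg, hcn], e2⟩)

lemma eigSpan_pow_le (U : E →ₗᵢ[ℂ] E) (s : ℕ) (h1 : 1 ≤ s) (h2 : s ≤ 2) :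
    EigSpan (U ^ s) ≤ EigSpan U := by
  interval_cases s
  · rw [pow_one]
  · exact eigSpan_sq U

end hilbert

/-- deterministic two-term inequality -/
theorem det_two (ψ χ : ℕ → ℕ → ℕ) (J : ℕ) (hJ : 1 ≤ J) (s : ℕ)
    (α₂ β₂ : ℕ → ℕ) (c₂ cχ B₂ : ℕ) (hB₂ : ∀ j < J, α₂ j + β₂ j ≤ B₂)
    (hψ : ∀ j < J, ∀ m n, ψ (m + α₂ j) (n + β₂ j) = ψ m n + c₂ + s * j)
    (hχ : ∀ j < J, ∀ m n, χ (m + α₂ j) (n + β₂ j) = χ m n + cχ)
    (a v : ℕ → ℂ) (ha : ∀ k, ‖a k‖ ≤ 1) (hv : ∀ k, ‖v k‖ ≤ 1) (N : ℕ) (hN : 1 ≤ N) :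
    ‖bavg N (fun m n => a (ψ m n) * v (χ m n))‖ ^ 2 ≤ 2 * (2 * B₂ / N) ^ 2 +
      2 * (((N : ℝ) ^ 2)⁻¹ * ∑ m ∈ range N, ∑ n ∈ range N,
        ‖(J : ℂ)⁻¹ * ∑ j ∈ range J, a (ψ m n + c₂ + s * j)‖ ^ 2) := by
  set Φ : ℕ → ℕ → ℂ := fun m n => a (ψ m n) * v (χ m n) with hΦ
  have hΦ1 : ∀ m n, ‖Φ m n‖ ≤ 1 := by
    intro m n
    simp only [hΦ, norm_mul]
    simpa using mul_le_mul (ha (ψ m n)) (hv (χ m n)) (norm_nonneg _) zero_le_one
  have s1 := avg_shift Φ hΦ1 N J B₂ hN hJ α₂ β₂ hB₂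
  have e1 : (fun m n => (J : ℂ)⁻¹ * ∑ j ∈ range J, Φ (m + α₂ j) (n + β₂ j))
      = fun m n => v (χ m n + cχ) * ((J : ℂ)⁻¹ * ∑ j ∈ range J, a (ψ m n + c₂ + s * j)) := by
    funext m n
    rw [mul_left_comm, Finset.mul_sum (range J) _ (v _)]
    congr 1
    refine Finset.sum_congr rfl fun j hj => ?_
    simp only [hΦ]
    rw [hψ j (mem_range.1 hj), hχ j (mem_range.1 hj)]
    ring
  rw [e1] at s1
  have s2 : ‖bavg N (fun m n => v (χ m n + cχ) *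
      ((J : ℂ)⁻¹ * ∑ j ∈ range J, a (ψ m n + c₂ + s * j)))‖ ≤
      ((N : ℝ) ^ 2)⁻¹ * ∑ m ∈ range N, ∑ n ∈ range N,
        ‖(J : ℂ)⁻¹ * ∑ j ∈ range J, a (ψ m n + c₂ + s * j)‖ := by
    refine (norm_bavg_le _ _).trans ?_
    gcongr with m _ n _
    rw [norm_mul]
    exact mul_le_of_le_one_left (norm_nonneg _) (hv _)
  have s3 := (pow_le_pow_left₀ (norm_nonneg _) s2 2).trans (sq_avg_le N _)
  have s4 := norm_sub_norm_le (bavg N Φ) (bavg N (fun m n => v (χ m n + cχ) *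
      ((J : ℂ)⁻¹ * ∑ j ∈ range J, a (ψ m n + c₂ + s * j))))
  have s5 : ‖bavg N Φ‖ ≤ 2 * B₂ / N + ‖bavg N (fun m n => v (χ m n + cχ) *
      ((J : ℂ)⁻¹ * ∑ j ∈ range J, a (ψ m n + c₂ + s * j)))‖ := by linarith
  have s6 := pow_le_pow_left₀ (norm_nonneg _) s5 2
  nlinarith [sq_nonneg (2 * B₂ / N - ‖bavg N (fun m n => v (χ m n + cχ) *
      ((J : ℂ)⁻¹ * ∑ j ∈ range J, a (ψ m n + c₂ + s * j)))‖ : ℝ)]

variable {Ω : Type*} [MeasurableSpace Ω] {μ : Measure Ω} [IsProbabilityMeasure μ] {T : Ω → Ω}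

lemma norm_sq_eq (F : Lp ℂ 2 μ) : ‖F‖ ^ 2 = ∫ x, ‖F x‖ ^ 2 ∂μ := by
  have h1 : ((‖F‖ ^ 2 : ℝ) : ℂ) = inner ℂ F F := by
    rw [inner_self_eq_norm_sq_to_K]; simp
  have h2 : inner ℂ F F = ((∫ x, ‖F x‖ ^ 2 ∂μ : ℝ) : ℂ) := by
    rw [inner_eq, ← integral_complex_ofReal]
    refine integral_congr_ae (Eventually.of_forall fun x => ?_)
    simp only
    rw [← Complex.normSq_eq_norm_sq, Complex.normSq_eq_conj_mul_self]
  exact_mod_cast h1.trans h2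

/-- Two-term control. -/
theorem control_two (hT : MeasurePreserving T μ μ) {g : Ω → ℂ} (hg : Measurable g)
    (hg1 : ∀ x, ‖g x‖ ≤ 1)
    (horth : (memLp_bdd (μ := μ) hg hg1).toLp g ∈ (EigSpan (koop hT))ᗮ)
    (s : ℕ) (hs1 : 1 ≤ s) (hs2 : s ≤ 2) (ψ χ : ℕ → ℕ → ℕ)
    (hsh : ∀ J : ℕ, ∃ (α₂ β₂ : ℕ → ℕ) (c₂ cχ B₂ : ℕ), (∀ j < J, α₂ j + β₂ j ≤ B₂) ∧
      (∀ j < J, ∀ m n, ψ (m + α₂ j) (n + β₂ j) = ψ m n + c₂ + s * j) ∧
      (∀ j < J, ∀ m n, χ (m + α₂ j) (n + β₂ j) = χ m n + cχ))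
    (A : ℂ) (hA : ‖A‖ = 1) :
    ∀ ε > (0 : ℝ), ∃ N₀ : ℕ, ∀ N ≥ N₀, ∀ (v : ℕ → Ω → ℂ),
      (∀ k, Measurable (v k)) → (∀ k x, ‖v k x‖ ≤ 1) →
      ∫ x, ‖bavg N (fun m n => (A ^ (ψ m n) * g (T^[ψ m n] x)) * v (χ m n) x)‖ ^ 2 ∂μ ≤ ε := by
  intro ε hε
  set x0 := (memLp_bdd (μ := μ) hg hg1).toLp g with hx0
  set U := koop hT with hU
  have hperp : x0 ∈ (EigSpan (U ^ s))ᗮ :=
    Submodule.orthogonal_le (eigSpan_pow_le U s hs1 hs2) horth
  have hlim := tavg_tendsto_zero (U ^ s) (A ^ s) (by rw [norm_pow, hA, one_pow]) x0 hperp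
  have hlim2 : Tendsto (fun J => ‖tavg (U ^ s) (A ^ s) J x0‖ ^ 2) atTop (𝓝 0) := by
    simpa using hlim.norm.pow 2
  obtain ⟨J, hJs, hJ⟩ := ((hlim2.eventually (gt_mem_nhds (show (0 : ℝ) < ε / 4 by positivity))).and
    (eventually_ge_atTop 1)).exists
  obtain ⟨α₂, β₂, c₂, cχ, B₂, hB₂, hψ, hχ⟩ := hsh J
  have lim1 : Tendsto (fun N : ℕ => 2 * (2 * (B₂ : ℝ) / N) ^ 2) atTop (𝓝 0) := by
    have : Tendsto (fun N : ℕ => 2 * (B₂ : ℝ) / N) atTop (𝓝 0) :=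
      tendsto_const_div_atTop_nhds_zero_nat _
    simpa using (this.pow 2).const_mul 2
  obtain ⟨N₁, hN₁⟩ := eventually_atTop.1
    (lim1.eventually (gt_mem_nhds (show (0 : ℝ) < ε / 2 by positivity)))
  refine ⟨max N₁ 1, fun N hN v hv hv1 => ?_⟩
  have hN1 : 1 ≤ N := le_trans (le_max_right _ _) hN
  have hb := hN₁ N (le_trans (le_max_left _ _) hN)
  have hN0 : (0 : ℝ) < N := by exact_mod_cast hN1
  set D : Ω → ℝ := fun y => ‖(J : ℂ)⁻¹ * ∑ j ∈ range J, A ^ (s * j) * g (T^[s * j] y)‖ ^ 2 with hD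
  have hTm : ∀ k, Measurable (T^[k]) := fun k => hT.measurable.iterate k
  have hgm : ∀ k, Measurable (fun x => g (T^[k] x)) := fun k => hg.comp (hTm k)
  have hDm : Measurable D := by
    refine (Measurable.norm ?_).pow_const 2
    exact Measurable.const_mul (Finset.measurable_sum _ fun j _ => (hgm _).const_mul _) _
  have hD1 : ∀ y, ‖D y‖ ≤ 1 := by
    intro y
    simp only [hD]
    rw [Real.norm_of_nonneg (by positivity)]
    refine pow_le_one₀ (norm_nonneg _) ?_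
    rw [norm_mul, norm_inv, Complex.norm_natCast]
    have hJ0 : (0 : ℝ) < J := by exact_mod_cast hJ
    calc (J : ℝ)⁻¹ * ‖∑ j ∈ range J, A ^ (s * j) * g (T^[s * j] y)‖
        ≤ (J : ℝ)⁻¹ * ∑ j ∈ range J, (1 : ℝ) := by
          gcongr
          refine (norm_sum_le _ _).trans (Finset.sum_le_sum fun j _ => ?_)
          rw [norm_mul, norm_pow, hA, one_pow, one_mul]
          exact hg1 _
      _ = 1 := by simp; field_simp
  have hDint : ∀ k, Integrable (fun x => D (T^[k] x)) μ := fun k =>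
    integrable_of_bdd (hDm.comp (hTm k)) 1 fun x => hD1 _
  have hDinv : ∀ k, ∫ x, D (T^[k] x) ∂μ = ∫ x, D x ∂μ := fun k =>
    integral_comp_mp (hT.iterate k) hDm
  have hDval : ∫ x, D x ∂μ = ‖tavg (U ^ s) (A ^ s) J x0‖ ^ 2 := by
    rw [norm_sq_eq]
    refine integral_congr_ae ?_
    have h1 : ∀ j : ℕ, ⇑(((U ^ s) ^ j) x0) =ᵐ[μ] fun x => g (T^[s * j] x) := by
      intro j
      rw [← pow_mul, hU, hx0, koop_pow_toLp]
      exact MemLp.coeFn_toLp _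
    have h4 : ∀ᵐ x ∂μ, ∀ j : ℕ, ((A ^ s) ^ j • ((U ^ s) ^ j) x0 : Lp ℂ 2 μ) x =
        A ^ (s * j) * g (T^[s * j] x) := by
      rw [ae_all_iff]; intro j
      filter_upwards [h1 j, Lp.coeFn_smul ((A ^ s) ^ j) (((U ^ s) ^ j) x0)] with x g1 g2
      rw [g2, Pi.smul_apply, g1, smul_eq_mul, pow_mul]
    unfold tavg
    filter_upwards [h4, Lp.coeFn_smul ((J : ℂ)⁻¹) (∑ n ∈ range J, (A ^ s) ^ n • ((U ^ s) ^ n) x0),
      Lp.coeFn_finsetSum (range J) (fun n => (A ^ s) ^ n • ((U ^ s) ^ n) x0)] with x g1 g2 g3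
    rw [g2, Pi.smul_apply, g3, Finset.sum_apply, smul_eq_mul]
    simp only [hD]
    congr 3
    exact Finset.sum_congr rfl fun j _ => (g1 j).symm
  have pt : ∀ x, ‖bavg N (fun m n => (A ^ (ψ m n) * g (T^[ψ m n] x)) * v (χ m n) x)‖ ^ 2 ≤
      2 * (2 * B₂ / N) ^ 2 + 2 * (((N : ℝ) ^ 2)⁻¹ * ∑ m ∈ range N, ∑ n ∈ range N,
        D (T^[ψ m n + c₂] x)) := by
    intro x
    have := det_two ψ χ J hJ s α₂ β₂ c₂ cχ B₂ hB₂ hψ hχ (fun k => A ^ k * g (T^[k] x))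
      (fun k => v k x) (fun k => by rw [norm_mul, norm_pow, hA, one_pow, one_mul]; exact hg1 _)
      (fun k => hv1 k x) N hN1
    refine this.trans (le_of_eq ?_)
    congr 3
    refine Finset.sum_congr rfl fun m _ => Finset.sum_congr rfl fun n _ => ?_
    simp only [hD]
    have e1 : ∑ j ∈ range J, A ^ (ψ m n + c₂ + s * j) * g (T^[ψ m n + c₂ + s * j] x) =
        A ^ (ψ m n + c₂) * ∑ j ∈ range J, A ^ (s * j) * g (T^[s * j] (T^[ψ m n + c₂] x)) := by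
      rw [Finset.mul_sum]
      refine Finset.sum_congr rfl fun j _ => ?_
      rw [← Function.iterate_add_apply, add_comm (s * j), pow_add]
      ring
    rw [e1, mul_left_comm, norm_mul, norm_pow, hA, one_pow, one_mul]
  have hLm : Measurable (fun x => ‖bavg N (fun m n => (A ^ (ψ m n) * g (T^[ψ m n] x)) *
      v (χ m n) x)‖ ^ 2) := by
    refine (Measurable.norm ?_).pow_const 2
    unfold bavg
    refine Measurable.const_mul ?_ _
    exact Finset.measurable_sum _ fun m _ => Finset.measurable_sum _ fun n _ =>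
      ((hgm _).const_mul _).mul (hv _)
  have hL1 : ∀ x, ‖(‖bavg N (fun m n => (A ^ (ψ m n) * g (T^[ψ m n] x)) *
      v (χ m n) x)‖ ^ 2 : ℝ)‖ ≤ 1 := by
    intro x
    rw [Real.norm_of_nonneg (by positivity)]
    refine pow_le_one₀ (norm_nonneg _) (norm_bavg_le_one N _ fun m n => ?_)
    rw [norm_mul, norm_mul, norm_pow, hA, one_pow, one_mul]
    simpa using mul_le_mul (hg1 (T^[ψ m n] x)) (hv1 (χ m n) x) (norm_nonneg _) zero_le_one
  have hRint : Integrable (fun x => 2 * (2 * (B₂ : ℝ) / N) ^ 2 + 2 * (((N : ℝ) ^ 2)⁻¹ *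
      ∑ m ∈ range N, ∑ n ∈ range N, D (T^[ψ m n + c₂] x))) μ := by
    refine (integrable_const _).add (Integrable.const_mul (Integrable.const_mul ?_ _) _)
    exact integrable_finsetSum _ fun m _ => integrable_finsetSum _ fun n _ => hDint _
  refine (integral_mono (integrable_of_bdd hLm 1 hL1) hRint pt).trans ?_
  rw [integral_add (integrable_const _) (Integrable.const_mul (Integrable.const_mul
    (integrable_finsetSum _ fun m _ => integrable_finsetSum _ fun n _ => hDint _) _) _),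
    integral_const, integral_const_mul, integral_const_mul,
    integral_finsetSum _ fun m _ => integrable_finsetSum _ fun n _ => hDint _]
  have h5 : ∀ m ∈ range N, ∫ x, ∑ n ∈ range N, D (T^[ψ m n + c₂] x) ∂μ = N * ∫ x, D x ∂μ := by
    intro m _
    rw [integral_finsetSum _ fun n _ => hDint _]
    simp only [hDinv, sum_const, card_range, nsmul_eq_mul]
  rw [Finset.sum_congr rfl h5]
  simp only [sum_const, card_range, nsmul_eq_mul, probReal_univ, smul_eq_mul, one_mul]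
  rw [hDval]
  have h6 : ((N : ℝ) ^ 2)⁻¹ * (N * (N * ‖tavg (U ^ s) (A ^ s) J x0‖ ^ 2)) =
      ‖tavg (U ^ s) (A ^ s) J x0‖ ^ 2 := by field_simp
  rw [h6]
  linarith

end

end Pool.Agent.Helper498.NCR
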