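import Mathlib
import Pool.Agent.Helper498.NCR.Two
import Pool.Agent.Helper498.NCR.Components

set_option autoImplicit false
open Finset Filter Topology MeasureTheory

namespace Pool.Agent.Helper498.NCR

noncomputable section

variable {Ω : Type*} [MeasurableSpace Ω] {μ : Measure Ω} [IsProbabilityMeasure μ]

lemma bavg_add (N : ℕ) (F G : ℕ → ℕ → ℂ) :
    bavg N (fun m n => F m n + G m n) = bavg N F + bavg N G := by
  unfold bavg; simp only [Finset.sum_add_distrib]; ring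

lemma bavg_smul (N : ℕ) (c : ℂ) (F : ℕ → ℕ → ℂ) :
    bavg N (fun m n => c * F m n) = c * bavg N F := by
  unfold bavg; simp only [← Finset.mul_sum]; ring

lemma bavg_sum {ι : Type} (s : Finset ι) (N : ℕ) (F : ι → ℕ → ℕ → ℂ) :
    bavg N (fun m n => ∑ i ∈ s, F i m n) = ∑ i ∈ s, bavg N (F i) := by
  classical
  induction s using Finset.induction_on with
  | empty => simp [bavg]
  | insert a s ha ih =>
    simp only [Finset.sum_insert ha]
    rw [bavg_add, ih]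

lemma bavg_sub (N : ℕ) (F G : ℕ → ℕ → ℂ) :
    bavg N (fun m n => F m n - G m n) = bavg N F - bavg N G := by
  unfold bavg; simp only [Finset.sum_sub_distrib]; ring

lemma bavg_meas (N : ℕ) (H : ℕ → ℕ → Ω → ℂ) (hH : ∀ m n, Measurable (H m n)) :
    Measurable (fun x => bavg N (fun m n => H m n x)) := by
  unfold bavg
  exact Measurable.const_mul (Finset.measurable_sum _ fun m _ =>
    Finset.measurable_sum _ fun n _ => hH m n) _

lemma norm_bavg_le_C (N : ℕ) (F : ℕ → ℕ → ℂ) (C : ℝ) (hC : 0 ≤ C) (hF : ∀ m n, ‖F m n‖ ≤ C) :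
    ‖bavg N F‖ ≤ C := by
  refine (norm_bavg_le N F).trans ?_
  rcases Nat.eq_zero_or_pos N with h | h
  · subst h; simpa using hC
  have hN0 : (0 : ℝ) < N := by exact_mod_cast h
  calc ((N : ℝ) ^ 2)⁻¹ * ∑ m ∈ range N, ∑ n ∈ range N, ‖F m n‖
      ≤ ((N : ℝ) ^ 2)⁻¹ * ∑ m ∈ range N, ∑ n ∈ range N, C := by
        gcongr with m _ n _; exact hF m n
    _ = C := by simp; field_simp

/-- Passing from characters to finite combinations of characters. -/
lemma exp_int (W : ℕ → ℕ → ℂ) (hW : HasExp W) (G : ℕ → ℕ → Ω → ℂ)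
    (hG : ∀ m n, Measurable (G m n)) (C : ℝ) (hC : 0 ≤ C) (hG1 : ∀ m n x, ‖G m n x‖ ≤ C)
    (h : ∀ α β : ℂ, ‖α‖ = 1 → ‖β‖ = 1 → ∀ ε > (0 : ℝ), ∀ᶠ N in atTop,
      ∫ x, ‖bavg N (fun m n => (α ^ m * β ^ n) * G m n x)‖ ^ 2 ∂μ ≤ ε) :
    ∀ ε > (0 : ℝ), ∀ᶠ N in atTop, ∫ x, ‖bavg N (fun m n => W m n * G m n x)‖ ^ 2 ∂μ ≤ ε := by
  obtain ⟨Q, S, w, α, β, hα, hβ, hWe⟩ := hW
  intro ε hε
  set K : ℝ := S.card * ∑ q ∈ S, ‖w q‖ ^ 2 with hK
  have hK0 : 0 ≤ K := by positivity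
  have hall : ∀ᶠ N in atTop, ∀ q ∈ S,
      ∫ x, ‖bavg N (fun m n => (α q ^ m * β q ^ n) * G m n x)‖ ^ 2 ∂μ ≤ ε / (K + 1) := by
    rw [Filter.eventually_all_finset]
    intro q _
    exact h (α q) (β q) (hα q) (hβ q) _ (by positivity)
  filter_upwards [hall] with N hN
  have hmeas : ∀ q, Measurable (fun x => ‖bavg N (fun m n => (α q ^ m * β q ^ n) *
      G m n x)‖ ^ 2) := fun q =>
    (bavg_meas N _ fun m n => (hG m n).const_mul _).norm.pow_const 2
  have hbd : ∀ q x, ‖bavg N (fun m n => (α q ^ m * β q ^ n) * G m n x)‖ ≤ C := by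
    intro q x
    refine norm_bavg_le_C N _ C hC fun m n => ?_
    rw [norm_mul, norm_mul, norm_pow, norm_pow, hα, hβ, one_pow, one_pow, one_mul, one_mul]
    exact hG1 m n x
  have hint : ∀ q, Integrable (fun x => ‖bavg N (fun m n => (α q ^ m * β q ^ n) *
      G m n x)‖ ^ 2) μ := fun q => integrable_of_bdd (hmeas q) (C ^ 2) fun x => by
    rw [Real.norm_of_nonneg (by positivity)]
    exact pow_le_pow_left₀ (norm_nonneg _) (hbd q x) 2
  have hpt : ∀ x, ‖bavg N (fun m n => W m n * G m n x)‖ ^ 2 ≤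
      S.card * ∑ q ∈ S, ‖w q‖ ^ 2 *
        ‖bavg N (fun m n => (α q ^ m * β q ^ n) * G m n x)‖ ^ 2 := by
    intro x
    have e1 : bavg N (fun m n => W m n * G m n x) = ∑ q ∈ S, w q *
        bavg N (fun m n => (α q ^ m * β q ^ n) * G m n x) := by
      simp_rw [hWe, Finset.sum_mul]
      rw [bavg_sum]
      refine Finset.sum_congr rfl fun q _ => ?_
      rw [← bavg_smul]
      congr 1
      funext m n; ring
    rw [e1]
    have h1 := pow_le_pow_left₀ (norm_nonneg _) (norm_sum_le S fun q => w q *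
        bavg N (fun m n => (α q ^ m * β q ^ n) * G m n x)) 2
    refine h1.trans ((sq_sum_le_card_mul_sum_sq).trans (le_of_eq ?_))
    congr 1
    refine Finset.sum_congr rfl fun q _ => ?_
    rw [norm_mul, mul_pow]
  have hLm : Measurable (fun x => ‖bavg N (fun m n => W m n * G m n x)‖ ^ 2) :=
    (bavg_meas N _ fun m n => (hG m n).const_mul _).norm.pow_const 2
  have hRint : Integrable (fun x => (S.card : ℝ) * ∑ q ∈ S, ‖w q‖ ^ 2 *
        ‖bavg N (fun m n => (α q ^ m * β q ^ n) * G m n x)‖ ^ 2) μ :=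
    (integrable_finsetSum _ fun q _ => (hint q).const_mul _).const_mul _
  have hLint : Integrable (fun x => ‖bavg N (fun m n => W m n * G m n x)‖ ^ 2) μ :=
    hRint.mono' hLm.aestronglyMeasurable (Eventually.of_forall fun x => by
      rw [Real.norm_of_nonneg (by positivity)]; exact hpt x)
  refine (integral_mono hLint hRint hpt).trans ?_
  rw [integral_const_mul, integral_finsetSum _ fun q _ => (hint q).const_mul _]
  simp_rw [integral_const_mul]
  calc (S.card : ℝ) * ∑ q ∈ S, ‖w q‖ ^ 2 *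
        ∫ x, ‖bavg N (fun m n => (α q ^ m * β q ^ n) * G m n x)‖ ^ 2 ∂μ
      ≤ (S.card : ℝ) * ∑ q ∈ S, ‖w q‖ ^ 2 * (ε / (K + 1)) := by
        gcongr with q hq; exact hN q hq
    _ = K * (ε / (K + 1)) := by rw [← Finset.sum_mul, hK]; ring
    _ ≤ ε := by
        rw [mul_div_assoc', div_le_iff₀ (by positivity)]
        nlinarith

/-- L¹ from L² -/
lemma int_norm_le {B : Ω → ℂ} (hB : Measurable B) (C : ℝ) (hC : ∀ x, ‖B x‖ ≤ C) (t : ℝ)
    (ht : 0 < t) : ∫ x, ‖B x‖ ∂μ ≤ t / 2 + (2 * t)⁻¹ * ∫ x, ‖B x‖ ^ 2 ∂μ := by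
  have i1 : Integrable (fun x => ‖B x‖) μ := integrable_of_bdd hB.norm C fun x => by
    rw [norm_norm]; exact hC x
  have i2 : Integrable (fun x => ‖B x‖ ^ 2) μ :=
    integrable_of_bdd (hB.norm.pow_const 2) (C ^ 2) fun x => by
      rw [Real.norm_of_nonneg (by positivity)]
      exact pow_le_pow_left₀ (norm_nonneg _) (hC x) 2
  have h3 : ∫ x, ‖B x‖ ∂μ ≤ ∫ x, (t / 2 + (2 * t)⁻¹ * ‖B x‖ ^ 2) ∂μ := by
    refine integral_mono i1 ((integrable_const _).add (i2.const_mul _)) fun x => ?_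
    simp only
    have h5 : t / 2 + (2 * t)⁻¹ * ‖B x‖ ^ 2 - ‖B x‖ = (2 * t)⁻¹ * (‖B x‖ - t) ^ 2 := by
      field_simp; ring
    have h6 : 0 ≤ (2 * t)⁻¹ * (‖B x‖ - t) ^ 2 := by positivity
    linarith
  refine h3.trans (le_of_eq ?_)
  rw [integral_add (integrable_const _) (i2.const_mul _), integral_const, integral_const_mul]
  simp

lemma ev_int_norm {B : ℕ → Ω → ℂ} (hB : ∀ N, Measurable (B N)) (C : ℝ) (hC : ∀ N x, ‖B N x‖ ≤ C)
    (h : ∀ ε > (0 : ℝ), ∀ᶠ N in atTop, ∫ x, ‖B N x‖ ^ 2 ∂μ ≤ ε) :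
    ∀ ε > (0 : ℝ), ∀ᶠ N in atTop, ∫ x, ‖B N x‖ ∂μ ≤ ε := by
  intro ε hε
  filter_upwards [h (ε ^ 2) (by positivity)] with N hN
  refine (int_norm_le (hB N) C (hC N) ε hε).trans ?_
  have : (2 * ε)⁻¹ * ∫ x, ‖B N x‖ ^ 2 ∂μ ≤ (2 * ε)⁻¹ * ε ^ 2 := by gcongr
  have h2 : (2 * ε)⁻¹ * ε ^ 2 = ε / 2 := by field_simp
  linarith

lemma L1_le_L2 (F : Lp ℂ 2 μ) : ∫ x, ‖F x‖ ∂μ ≤ ‖F‖ := by
  rcases (norm_nonneg F).eq_or_lt with h | h
  · have : F = 0 := norm_eq_zero.1 h.symm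
    rw [this]
    have h2 : ∫ x, ‖(0 : Lp ℂ 2 μ) x‖ ∂μ = ∫ x, (0 : ℝ) ∂μ := by
      refine integral_congr_ae ?_
      filter_upwards [Lp.coeFn_zero ℂ 2 μ] with x hx
      rw [hx]; simp
    rw [h2]; simp
  · have := integral_norm_le_of_L2 F ‖F‖ h
    refine this.trans (le_of_eq ?_)
    rw [measure_univ, ENNReal.toReal_one, mul_one]
    field_simp
    ring

/-- The error terms involving the compact part of the good transformation. -/
lemma err_compact {T : Ω → Ω} (hT : MeasurePreserving T μ μ) (φ : ℕ → ℕ → ℕ)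
    (hφ : ∀ l : ℂ, ‖l‖ = 1 → ∃ a b : ℂ, ‖a‖ = 1 ∧ ‖b‖ = 1 ∧ ∀ m n, l ^ (φ m n) = a ^ m * b ^ n)
    {f : Ω → ℂ} (hf : Measurable f) (hf1 : ∀ x, ‖f x‖ ≤ 1)
    (hfE : (memLp_bdd (μ := μ) hf hf1).toLp f ∈ Ec (koop hT))
    (G : ℕ → ℕ → Ω → ℂ) (hG : ∀ m n, Measurable (G m n)) (hG1 : ∀ m n x, ‖G m n x‖ ≤ 2)
    (h : ∀ α β : ℂ, ‖α‖ = 1 → ‖β‖ = 1 → ∀ ε > (0 : ℝ), ∀ᶠ N in atTop,
      ∫ x, ‖bavg N (fun m n => (α ^ m * β ^ n) * G m n x)‖ ^ 2 ∂μ ≤ ε)
    (W : ℕ → ℕ → ℝ) (M : ℝ) (hM : 0 < M) (hW0 : ∀ m n, 0 ≤ W m n) (hW1 : ∀ m n, W m n ≤ 1)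
    (hWe : HasExp (fun m n => (W m n : ℂ))) (hWM : Tendsto (fun N => ravg N W) atTop (𝓝 M))
    (δ : ℝ) (hδ : 0 < δ) :
    ∀ᶠ N in atTop, ∫ x, ‖bavg N (fun m n => (W m n : ℂ) * (f (T^[φ m n] x) * G m n x))‖ ∂μ
      ≤ δ * M := by
  set U := koop hT with hU
  set y := (memLp_bdd (μ := μ) hf hf1).toLp f with hy
  obtain ⟨z, ⟨ι, _, e, l, hl, he, hz⟩, hyz⟩ := approx_of_closure U y hfE (δ / 16) (by positivity)
  -- the remainder
  set r : Lp ℂ 2 μ := y - z with hr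
  have hrm : Measurable r := (Lp.stronglyMeasurable r).measurable
  have hem : ∀ i, Measurable (e i) := fun i => (Lp.stronglyMeasurable (e i)).measurable
  have hrint : Integrable (fun x => ‖r x‖) μ := ((Lp.memLp r).integrable (by norm_num)).norm
  have hr1 : ∫ x, ‖r x‖ ∂μ ≤ δ / 16 := (L1_le_L2 r).trans hyz
  have hrk : ∀ k, ∫ x, ‖r (T^[k] x)‖ ∂μ = ∫ x, ‖r x‖ ∂μ := fun k =>
    integral_comp_mp (hT.iterate k) hrm.norm
  have hrkint : ∀ k, Integrable (fun x => ‖r (T^[k] x)‖) μ := fun k =>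
    (hT.iterate k).integrable_comp_of_integrable hrint
  -- a.e. decomposition
  have hdec : ∀ᵐ x ∂μ, ∀ k : ℕ, f (T^[k] x) = ∑ i, l i ^ k * e i x + r (T^[k] x) := by
    rw [ae_all_iff]; intro k
    have h1 : ∀ᵐ x ∂μ, f x = ∑ i, e i x + r x := by
      have e1 := (memLp_bdd (μ := μ) hf hf1).coeFn_toLp
      have e2 := Lp.coeFn_sub y z
      have e3 := Lp.coeFn_finsetSum (Finset.univ) e
      rw [← hz] at e3
      filter_upwards [e1, e2, e3] with x g1 g2 g3
      rw [hr, g2, Pi.sub_apply, g3, Finset.sum_apply, hy, g1]; ring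
    have h2 : ∀ᵐ x ∂μ, f (T^[k] x) = ∑ i, e i (T^[k] x) + r (T^[k] x) :=
      (hT.iterate k).quasiMeasurePreserving.ae h1
    have h3 : ∀ᵐ x ∂μ, ∀ i, e i (T^[k] x) = l i ^ k * e i x := by
      rw [ae_all_iff]; intro i
      have g1 := koop_pow_coe hT k (e i)
      rw [← hU, eig_pow U (he i)] at g1
      filter_upwards [g1, Lp.coeFn_smul (l i ^ k) (e i)] with x q1 q2
      rw [← q1, q2, Pi.smul_apply, smul_eq_mul]
    filter_upwards [h2, h3] with x g2 g3
    rw [g2]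
    congr 1
    exact Finset.sum_congr rfl fun i _ => g3 i
  -- the functions for the eigen parts
  set Bi : ι → ℕ → Ω → ℂ := fun i N x => bavg N (fun m n => ((W m n : ℂ) * l i ^ (φ m n)) * G m n x)
    with hBi
  have hBim : ∀ i N, Measurable (Bi i N) := fun i N => bavg_meas N _ fun m n => (hG m n).const_mul _
  have hBi2 : ∀ i N x, ‖Bi i N x‖ ≤ 2 := by
    intro i N x
    refine norm_bavg_le_C N _ 2 (by norm_num) fun m n => ?_
    rw [norm_mul, norm_mul, norm_pow, hl, one_pow, mul_one, Complex.norm_real,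
      Real.norm_of_nonneg (hW0 m n)]
    have := mul_le_mul (hW1 m n) (hG1 m n x) (norm_nonneg _) zero_le_one
    linarith
  have hBilim : ∀ i, ∀ ε > (0 : ℝ), ∀ᶠ N in atTop, ∫ x, ‖Bi i N x‖ ^ 2 ∂μ ≤ ε := by
    intro i
    obtain ⟨a, b, ha, hb, hab⟩ := hφ (l i) (hl i)
    refine exp_int (fun m n => (W m n : ℂ) * l i ^ (φ m n)) ?_ G hG 2 (by norm_num) hG1 h
    obtain ⟨Q, S, w, α, β, hα, hβ, hWe⟩ := hWe
    refine ⟨Q, S, w, fun q => α q * a, fun q => β q * b, fun q => by rw [norm_mul, hα, ha, mul_one],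
      fun q => by rw [norm_mul, hβ, hb, mul_one], fun m n => ?_⟩
    have hWe' : (W m n : ℂ) = ∑ q ∈ S, w q * (α q ^ m * β q ^ n) := hWe m n
    simp only
    rw [hWe', hab, Finset.sum_mul]
    refine Finset.sum_congr rfl fun q _ => ?_
    rw [mul_pow, mul_pow]; ring
  set Se : ℝ := ∑ i, ∫ x, ‖e i x‖ ^ 2 ∂μ with hSe
  have hSe0 : 0 ≤ Se := Finset.sum_nonneg fun i _ => integral_nonneg fun x => by positivity
  set t : ℝ := δ * M / (2 * (Se + 1)) with ht
  have ht0 : 0 < t := by positivity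
  set ε' : ℝ := t * (δ * M) / (2 * (Fintype.card ι + 1)) with hε'
  have hε'0 : 0 < ε' := by positivity
  have hall : ∀ᶠ N in atTop, ∀ i, ∫ x, ‖Bi i N x‖ ^ 2 ∂μ ≤ ε' := by
    rw [Filter.eventually_all]; exact fun i => hBilim i ε' hε'0
  have hW2 : ∀ᶠ N in atTop, ravg N W ≤ 2 * M :=
    (hWM.eventually (gt_mem_nhds (show M < 2 * M by linarith))).mono fun N h => h.le
  filter_upwards [hall, hW2] with N hN hN2
  -- pointwise bound
  have hpt : ∀ᵐ x ∂μ, ‖bavg N (fun m n => (W m n : ℂ) * (f (T^[φ m n] x) * G m n x))‖ ≤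
      ∑ i, (t / 2 * ‖e i x‖ ^ 2 + (2 * t)⁻¹ * ‖Bi i N x‖ ^ 2) +
      2 * ravg N (fun m n => W m n * ‖r (T^[φ m n] x)‖) := by
    filter_upwards [hdec] with x hx
    have e1 : bavg N (fun m n => (W m n : ℂ) * (f (T^[φ m n] x) * G m n x)) =
        ∑ i, e i x * Bi i N x +
        bavg N (fun m n => (W m n : ℂ) * (r (T^[φ m n] x) * G m n x)) := by
      simp_rw [hx]
      have : ∀ m n, (W m n : ℂ) * ((∑ i, l i ^ (φ m n) * e i x + r (T^[φ m n] x)) * G m n x) =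
          (∑ i, e i x * (((W m n : ℂ) * l i ^ (φ m n)) * G m n x)) +
          (W m n : ℂ) * (r (T^[φ m n] x) * G m n x) := by
        intro m n
        rw [add_mul, mul_add, Finset.sum_mul, Finset.mul_sum]
        congr 1
        refine Finset.sum_congr rfl fun i _ => ?_
        ring
      simp_rw [this]
      rw [bavg_add, bavg_sum]
      congr 1
      refine Finset.sum_congr rfl fun i _ => ?_
      simp only [hBi]
      rw [bavg_smul]
    rw [e1]
    refine (norm_add_le _ _).trans (add_le_add ?_ ?_)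
    · refine (norm_sum_le _ _).trans (Finset.sum_le_sum fun i _ => ?_)
      rw [norm_mul]
      have h5 : t / 2 * ‖e i x‖ ^ 2 + (2 * t)⁻¹ * ‖Bi i N x‖ ^ 2 - ‖e i x‖ * ‖Bi i N x‖ =
          (2 * t)⁻¹ * (t * ‖e i x‖ - ‖Bi i N x‖) ^ 2 := by
        field_simp; ring
      have h6 : 0 ≤ (2 * t)⁻¹ * (t * ‖e i x‖ - ‖Bi i N x‖) ^ 2 := by positivity
      linarith
    · refine (norm_bavg_le _ _).trans ?_
      rw [← ravg_smul]
      unfold ravg
      gcongr with m _ n _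
      rw [norm_mul, norm_mul, Complex.norm_real, Real.norm_of_nonneg (hW0 m n)]
      have := mul_le_mul_of_nonneg_left (hG1 m n x)
        (mul_nonneg (hW0 m n) (norm_nonneg (r (T^[φ m n] x))))
      linarith
  have hLm : Measurable (fun x => ‖bavg N (fun m n => (W m n : ℂ) *
      (f (T^[φ m n] x) * G m n x))‖) :=
    (bavg_meas N _ fun m n => ((hf.comp (hT.measurable.iterate _)).mul (hG m n)).const_mul _).norm
  have hie : ∀ i, Integrable (fun x => ‖e i x‖ ^ 2) μ := fun i =>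
    (Lp.memLp (e i)).integrable_norm_pow (by norm_num)
  have hiB : ∀ i, Integrable (fun x => ‖Bi i N x‖ ^ 2) μ := fun i =>
    integrable_of_bdd ((hBim i N).norm.pow_const 2) (2 ^ 2) fun x => by
      rw [Real.norm_of_nonneg (by positivity)]
      exact pow_le_pow_left₀ (norm_nonneg _) (hBi2 i N x) 2
  have hi1 : ∀ i, Integrable (fun x => t / 2 * ‖e i x‖ ^ 2 + (2 * t)⁻¹ * ‖Bi i N x‖ ^ 2) μ :=
    fun i => ((hie i).const_mul _).add ((hiB i).const_mul _)
  have hi2 : Integrable (fun x => ravg N (fun m n => W m n * ‖r (T^[φ m n] x)‖)) μ := by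
    unfold ravg
    exact (integrable_finsetSum _ fun m _ => integrable_finsetSum _ fun n _ =>
      (hrkint _).const_mul _).const_mul _
  have hRint : Integrable (fun x => ∑ i, (t / 2 * ‖e i x‖ ^ 2 + (2 * t)⁻¹ * ‖Bi i N x‖ ^ 2) +
      2 * ravg N (fun m n => W m n * ‖r (T^[φ m n] x)‖)) μ :=
    (integrable_finsetSum _ fun i _ => hi1 i).add (hi2.const_mul _)
  have hLint : Integrable (fun x => ‖bavg N (fun m n => (W m n : ℂ) *
      (f (T^[φ m n] x) * G m n x))‖) μ :=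
    hRint.mono' hLm.aestronglyMeasurable (hpt.mono fun x hx => by rwa [norm_norm])
  refine (integral_mono_ae hLint hRint hpt).trans ?_
  rw [integral_add (integrable_finsetSum _ fun i _ => hi1 i) (hi2.const_mul _),
    integral_finsetSum _ fun i _ => hi1 i, integral_const_mul]
  have hA : ∑ i, ∫ x, (t / 2 * ‖e i x‖ ^ 2 + (2 * t)⁻¹ * ‖Bi i N x‖ ^ 2) ∂μ ≤ δ * M / 2 := by
    have h1 : ∀ i ∈ (Finset.univ : Finset ι),
        ∫ x, (t / 2 * ‖e i x‖ ^ 2 + (2 * t)⁻¹ * ‖Bi i N x‖ ^ 2) ∂μ ≤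
        t / 2 * ∫ x, ‖e i x‖ ^ 2 ∂μ + (2 * t)⁻¹ * ε' := by
      intro i _
      rw [integral_add ((hie i).const_mul _) ((hiB i).const_mul _), integral_const_mul,
        integral_const_mul]
      have := mul_le_mul_of_nonneg_left (hN i) (show 0 ≤ (2 * t)⁻¹ by positivity)
      linarith
    refine (Finset.sum_le_sum h1).trans ?_
    rw [Finset.sum_add_distrib, ← Finset.mul_sum, Finset.sum_const, Finset.card_univ,
      nsmul_eq_mul, ← hSe]
    have h2 : t / 2 * Se ≤ δ * M / 4 := by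
      rw [ht, div_div, div_mul_eq_mul_div, div_le_div_iff₀ (by positivity) (by positivity)]
      have : 0 < δ * M := by positivity
      nlinarith
    have h3 : (Fintype.card ι : ℝ) * ((2 * t)⁻¹ * ε') ≤ δ * M / 4 := by
      have e1 : (2 * t)⁻¹ * ε' = δ * M / (4 * (Fintype.card ι + 1)) := by
        rw [hε']; field_simp; ring
      rw [e1, mul_div_assoc', div_le_div_iff₀ (by positivity) (by positivity)]
      have : 0 < δ * M := by positivity
      have h4 : (0 : ℝ) ≤ Fintype.card ι := by positivity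
      nlinarith
    linarith
  have hB : ∫ x, ravg N (fun m n => W m n * ‖r (T^[φ m n] x)‖) ∂μ ≤ δ * M / 8 := by
    have e1 : ∫ x, ravg N (fun m n => W m n * ‖r (T^[φ m n] x)‖) ∂μ =
        ravg N W * ∫ x, ‖r x‖ ∂μ := by
      unfold ravg
      rw [integral_const_mul, integral_finsetSum _ fun m _ => integrable_finsetSum _ fun n _ =>
        (hrkint _).const_mul _]
      have : ∀ m ∈ range N, ∫ x, ∑ n ∈ range N, W m n * ‖r (T^[φ m n] x)‖ ∂μ =
          (∑ n ∈ range N, W m n) * ∫ x, ‖r x‖ ∂μ := by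
        intro m _
        rw [integral_finsetSum _ fun n _ => (hrkint _).const_mul _, Finset.sum_mul]
        refine Finset.sum_congr rfl fun n _ => ?_
        rw [integral_const_mul, hrk]
      rw [Finset.sum_congr rfl this, ← Finset.sum_mul]
      ring
    rw [e1]
    have h0 : 0 ≤ ∫ x, ‖r x‖ ∂μ := integral_nonneg fun x => norm_nonneg _
    calc ravg N W * ∫ x, ‖r x‖ ∂μ ≤ (2 * M) * (δ / 16) := by
          exact mul_le_mul hN2 hr1 h0 (by positivity)
      _ = δ * M / 8 := by ring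
  have : 0 < δ * M := by positivity
  linarith

end

end Pool.Agent.Helper498.NCR
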