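import Mathlib
import Pool.Agent.Helper498.NCR.Main

set_option autoImplicit false
open Finset Filter Topology MeasureTheory

namespace Pool.Agent.Helper498.NCR

noncomputable section

variable {Ω : Type*} [MeasurableSpace Ω] {μ : Measure Ω} [IsProbabilityMeasure μ]

/-- characters along a form are characters of `(m,n)` -/
def CharForm (φ : ℕ → ℕ → ℕ) : Prop :=
  ∀ l : ℂ, ‖l‖ = 1 → ∃ a b : ℂ, ‖a‖ = 1 ∧ ‖b‖ = 1 ∧ ∀ m n, l ^ (φ m n) = a ^ m * b ^ n

/-- shifts moving `ψ` by steps `s` and fixing `χ` -/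
def ShiftForm (s : ℕ) (ψ χ : ℕ → ℕ → ℕ) : Prop :=
  ∀ J : ℕ, ∃ (α₂ β₂ : ℕ → ℕ) (c₂ cχ B₂ : ℕ), (∀ j < J, α₂ j + β₂ j ≤ B₂) ∧
      (∀ j < J, ∀ m n, ψ (m + α₂ j) (n + β₂ j) = ψ m n + c₂ + s * j) ∧
      (∀ j < J, ∀ m n, χ (m + α₂ j) (n + β₂ j) = χ m n + cχ)

lemma disp_int {T : Ω → Ω} (hT : MeasurePreserving T μ μ) {f : Ω → ℂ} (hf : MemLp f 2 μ) (k : ℕ) :
    ∫ x, ‖f (T^[k] x) - f x‖ ∂μ ≤ ‖(koop hT ^ k) (hf.toLp f) - hf.toLp f‖ := by
  refine le_trans (le_of_eq ?_) (L1_le_L2 _)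
  refine integral_congr_ae ?_
  have h1 : ⇑((koop hT ^ k) (hf.toLp f)) =ᵐ[μ] fun x => f (T^[k] x) := by
    rw [koop_pow_toLp]; exact MemLp.coeFn_toLp _
  filter_upwards [h1, hf.coeFn_toLp, Lp.coeFn_sub ((koop hT ^ k) (hf.toLp f)) (hf.toLp f)]
    with x g1 g2 g3
  rw [g3, Pi.sub_apply, g1, g2]

omit [MeasurableSpace Ω] in
lemma diff_norm {z : ℂ} (hz : z ∈ I01) {w : ℝ} (h0 : 0 ≤ w) (h1 : w ≤ 1) : ‖z - (w : ℂ)‖ ≤ 1 := by
  have : z - (w : ℂ) = ((z.re - w : ℝ) : ℂ) := by apply Complex.ext <;> simp [hz.2.2]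
  rw [this, Complex.norm_real, Real.norm_eq_abs, abs_le]
  constructor <;> linarith [hz.1, hz.2.1]

lemma bavg_integral (N : ℕ) (H : ℕ → ℕ → Ω → ℂ) (hH : ∀ m n, Integrable (H m n) μ) :
    ∫ x, bavg N (fun m n => H m n x) ∂μ = bavg N (fun m n => ∫ x, H m n x ∂μ) := by
  unfold bavg
  rw [integral_const_mul, integral_finsetSum _ fun m _ => integrable_finsetSum _ fun n _ => hH m n]
  congr 1
  refine Finset.sum_congr rfl fun m _ => ?_
  rw [integral_finsetSum _ fun n _ => hH m n]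

set_option maxHeartbeats 4000000 in
theorem main_abs {T S R : Ω → Ω} (hT : MeasurePreserving T μ μ) (hS : MeasurePreserving S μ μ)
    (hR : MeasurePreserving R μ μ) (φ ψ χ : ℕ → ℕ → ℕ)
    (hctl : ∀ (g : Ω → ℂ) (hg : Measurable g) (hg1 : ∀ x, ‖g x‖ ≤ 1),
      (memLp_bdd (μ := μ) hg hg1).toLp g ∈ (EigSpan (koop hT))ᗮ →
      ∀ ε > (0 : ℝ), ∃ N₀ : ℕ, ∀ N ≥ N₀, ∀ (u v : ℕ → Ω → ℂ),
      (∀ k, Measurable (u k)) → (∀ k x, ‖u k x‖ ≤ 1) →
      (∀ k, Measurable (v k)) → (∀ k x, ‖v k x‖ ≤ 1) →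
      ∫ x, ‖bavg N (fun m n => g (T^[φ m n] x) * u (ψ m n) x * v (χ m n) x)‖ ^ 2 ∂μ ≤ ε)
    (habs : ∀ α β : ℂ, ‖α‖ = 1 → ‖β‖ = 1 → ∃ A B : ℂ, ‖A‖ = 1 ∧ ‖B‖ = 1 ∧
      ∀ m n, α ^ m * β ^ n = A ^ (ψ m n) * B ^ (χ m n))
    (hφ : CharForm φ) (hψ : CharForm ψ) (hχ : CharForm χ)
    (s₁ : ℕ) (hs₁ : 1 ≤ s₁) (hs₁' : s₁ ≤ 2) (hsh₁ : ShiftForm s₁ ψ χ)
    (s₂ : ℕ) (hs₂ : 1 ≤ s₂) (hs₂' : s₂ ≤ 2) (hsh₂ : ShiftForm s₂ χ ψ)
    {A : Set Ω} (hA : MeasurableSet A) (hμA : μ A ≠ 0) :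
    ∃ m n : ℕ, 1 ≤ m ∧ 1 ≤ n ∧
      μ (A ∩ T^[φ m n] ⁻¹' A ∩ S^[ψ m n] ⁻¹' A ∩ R^[χ m n] ⁻¹' A) ≠ 0 := by
  by_contra hcon
  push Not at hcon
  obtain ⟨fT, hTm, hT0, hT1, hTE, hTo, hTp⟩ := compact_part hT hA
  obtain ⟨fS, hSm, hS0, hS1, hSE, hSo, hSp⟩ := compact_part hS hA
  obtain ⟨fR, hRm, hR0, hR1, hRE, hRo, hRp⟩ := compact_part hR hA
  set F : Ω → ℂ := cind A with hF
  have hFm : Measurable F := cind_meas hA
  have hF1 : ∀ x, ‖F x‖ ≤ 1 := cind_norm A
  set a : Ω → ℂ := fun x => (fT x : ℂ) with ha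
  set b : Ω → ℂ := fun x => (fS x : ℂ) with hb
  set c : Ω → ℂ := fun x => (fR x : ℂ) with hc
  have ham : Measurable a := Complex.measurable_ofReal.comp hTm
  have hbm : Measurable b := Complex.measurable_ofReal.comp hSm
  have hcm : Measurable c := Complex.measurable_ofReal.comp hRm
  have ha1 : ∀ x, ‖a x‖ ≤ 1 := fun x => by
    simp only [ha, Complex.norm_real, Real.norm_of_nonneg (hT0 x)]; exact hT1 x
  have hb1 : ∀ x, ‖b x‖ ≤ 1 := fun x => by
    simp only [hb, Complex.norm_real, Real.norm_of_nonneg (hS0 x)]; exact hS1 x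
  have hc1 : ∀ x, ‖c x‖ ≤ 1 := fun x => by
    simp only [hc, Complex.norm_real, Real.norm_of_nonneg (hR0 x)]; exact hR1 x
  set ga : Ω → ℂ := fun x => F x - a x with hga
  set gb : Ω → ℂ := fun x => F x - b x with hgb
  set gc : Ω → ℂ := fun x => F x - c x with hgc
  have hgam : Measurable ga := hFm.sub ham
  have hgbm : Measurable gb := hFm.sub hbm
  have hgcm : Measurable gc := hFm.sub hcm
  have hga1 : ∀ x, ‖ga x‖ ≤ 1 := fun x => diff_norm (cind_I01 A x) (hT0 x) (hT1 x)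
  have hgb1 : ∀ x, ‖gb x‖ ≤ 1 := fun x => diff_norm (cind_I01 A x) (hS0 x) (hS1 x)
  have hgc1 : ∀ x, ‖gc x‖ ≤ 1 := fun x => diff_norm (cind_I01 A x) (hR0 x) (hR1 x)
  have haE : (memLp_bdd (μ := μ) ham ha1).toLp a ∈ Ec (koop hT) := hTE _
  have hbE : (memLp_bdd (μ := μ) hbm hb1).toLp b ∈ Ec (koop hS) := hSE _
  have hcE : (memLp_bdd (μ := μ) hcm hc1).toLp c ∈ Ec (koop hR) := hRE _
  have hgao : (memLp_bdd (μ := μ) hgam hga1).toLp ga ∈ (EigSpan (koop hT))ᗮ := hTo _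
  have hgbo : (memLp_bdd (μ := μ) hgbm hgb1).toLp gb ∈ (EigSpan (koop hS))ᗮ := hSo _
  have hgco : (memLp_bdd (μ := μ) hgcm hgc1).toLp gc ∈ (EigSpan (koop hR))ᗮ := hRo _
  have hTi : ∀ k, Measurable (T^[k]) := fun k => hT.measurable.iterate k
  have hSi : ∀ k, Measurable (S^[k]) := fun k => hS.measurable.iterate k
  have hRi : ∀ k, Measurable (R^[k]) := fun k => hR.measurable.iterate k
  -- the main constant
  set c0 : ℝ := ∫ x, (F x).re * (fT x * fS x * fR x) ∂μ with hc0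
  have hFre : ∀ x, (F x).re = A.indicator (fun _ => (1 : ℝ)) x := by
    intro x
    simp only [hF, cind]
    by_cases hx : x ∈ A
    · rw [Set.indicator_of_mem hx, Set.indicator_of_mem hx]; simp
    · rw [Set.indicator_of_notMem hx, Set.indicator_of_notMem hx]; simp
  have hFre0 : ∀ x, 0 ≤ (F x).re := fun x => (cind_I01 A x).1
  have hFre1 : ∀ x, (F x).re ≤ 1 := fun x => (cind_I01 A x).2.1
  have hprod0 : ∀ x, 0 ≤ (F x).re * (fT x * fS x * fR x) := fun x =>
    mul_nonneg (hFre0 x) (mul_nonneg (mul_nonneg (hT0 x) (hS0 x)) (hR0 x))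
  have hprod1 : ∀ x, (F x).re * (fT x * fS x * fR x) ≤ 1 := fun x => by
    have h1 : fT x * fS x ≤ 1 := mul_le_one₀ (hT1 x) (hS0 x) (hS1 x)
    have h2 : fT x * fS x * fR x ≤ 1 := mul_le_one₀ h1 (hR0 x) (hR1 x)
    exact mul_le_one₀ (hFre1 x) (mul_nonneg (mul_nonneg (hT0 x) (hS0 x)) (hR0 x)) h2
  have hprodm : Measurable (fun x => (F x).re * (fT x * fS x * fR x)) :=
    (Complex.measurable_re.comp hFm).mul ((hTm.mul hSm).mul hRm)
  have hprodint : Integrable (fun x => (F x).re * (fT x * fS x * fR x)) μ :=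
    integrable_of_bdd hprodm 1 fun x => by
      rw [Real.norm_of_nonneg (hprod0 x)]; exact hprod1 x
  have hc0pos : 0 < c0 := by
    rw [hc0, integral_pos_iff_support_of_nonneg hprod0 hprodint]
    have hsub : ∀ᵐ x ∂μ, x ∈ A →
        x ∈ Function.support (fun x => (F x).re * (fT x * fS x * fR x)) := by
      filter_upwards [hTp, hSp, hRp] with x h1 h2 h3 hx
      rw [Function.mem_support, hFre, Set.indicator_of_mem hx, one_mul]
      have := mul_pos (mul_pos (h1 hx) (h2 hx)) (h3 hx)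
      exact this.ne'
    exact lt_of_lt_of_le (pos_iff_ne_zero.2 hμA) (measure_mono_ae hsub)
  -- finite eigen-approximations and weights
  set δ : ℝ := c0 / 16 with hδ
  have hδ0 : 0 < δ := by positivity
  obtain ⟨z₁, ⟨ι₁, _, e₁, l₁, hl₁, he₁, hz₁⟩, hyz₁⟩ :=
    approx_of_closure (koop hT) _ haE (δ / 8) (by positivity)
  obtain ⟨z₂, ⟨ι₂, _, e₂, l₂, hl₂, he₂, hz₂⟩, hyz₂⟩ :=
    approx_of_closure (koop hS) _ hbE (δ / 8) (by positivity)
  obtain ⟨z₃, ⟨ι₃, _, e₃, l₃, hl₃, he₃, hz₃⟩, hyz₃⟩ :=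
    approx_of_closure (koop hR) _ hcE (δ / 8) (by positivity)
  choose a₁ b₁ ha₁ hb₁ hab₁ using fun i => hφ (l₁ i) (hl₁ i)
  choose a₂ b₂ ha₂ hb₂ hab₂ using fun i => hψ (l₂ i) (hl₂ i)
  choose a₃ b₃ ha₃ hb₃ hab₃ using fun i => hχ (l₃ i) (hl₃ i)
  set Se : ℝ := ∑ i, ‖e₁ i‖ + ∑ i, ‖e₂ i‖ + ∑ i, ‖e₃ i‖ with hSe
  have hn1 : 0 ≤ ∑ i, ‖e₁ i‖ := Finset.sum_nonneg fun i _ => norm_nonneg _
  have hn2 : 0 ≤ ∑ i, ‖e₂ i‖ := Finset.sum_nonneg fun i _ => norm_nonneg _
  have hn3 : 0 ≤ ∑ i, ‖e₃ i‖ := Finset.sum_nonneg fun i _ => norm_nonneg _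
  have hSe0 : 0 ≤ Se := by positivity
  set t : ℝ := δ / (3 * (Se + 1)) with ht
  have ht0 : 0 < t := by positivity
  have htS : t * Se ≤ δ / 3 := by
    rw [ht, div_mul_eq_mul_div, div_le_div_iff₀ (by positivity) (by positivity)]
    nlinarith
  obtain ⟨W, M, hM, hW0, hW1, hWe, hWM, hWdev⟩ := weights_exist
    (a := Sum.elim a₁ (Sum.elim a₂ a₃)) (b := Sum.elim b₁ (Sum.elim b₂ b₃))
    (by rintro (i | i | i) <;> simp [ha₁, ha₂, ha₃])
    (by rintro (i | i | i) <;> simp [hb₁, hb₂, hb₃]) (t ^ 2) (by positivity)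
  have ev1 := disp_avg (koop hT) e₁ l₁ he₁ _ δ hδ0 (by rw [← hz₁]; exact hyz₁) φ W M hM hW0 hWM t
    ht0 (by nlinarith) (fun i => by simpa [hab₁] using hWdev (Sum.inl i))
  have ev2 := disp_avg (koop hS) e₂ l₂ he₂ _ δ hδ0 (by rw [← hz₂]; exact hyz₂) ψ W M hM hW0 hWM t
    ht0 (by nlinarith) (fun i => by simpa [hab₂] using hWdev (Sum.inr (Sum.inl i)))
  have ev3 := disp_avg (koop hR) e₃ l₃ he₃ _ δ hδ0 (by rw [← hz₃]; exact hyz₃) χ W M hM hW0 hWM t
    ht0 (by nlinarith) (fun i => by simpa [hab₃] using hWdev (Sum.inr (Sum.inr i)))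
  -- error term one
  set G1 : ℕ → ℕ → Ω → ℂ := fun m n x =>
    ga (T^[φ m n] x) * F (S^[ψ m n] x) * F (R^[χ m n] x) with hG1
  have hG1m : ∀ m n, Measurable (G1 m n) := fun m n =>
    ((hgam.comp (hTi _)).mul (hFm.comp (hSi _))).mul (hFm.comp (hRi _))
  have hG1b : ∀ m n x, ‖G1 m n x‖ ≤ 1 := by
    intro m n x
    simp only [hG1, norm_mul]
    have := mul_le_mul (mul_le_mul (hga1 (T^[φ m n] x)) (hF1 (S^[ψ m n] x)) (norm_nonneg _)
      zero_le_one) (hF1 (R^[χ m n] x)) (norm_nonneg _) (by norm_num)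
    simpa using this
  have ev4 : ∀ᶠ N in atTop, ∫ x, ‖bavg N (fun m n => (W m n : ℂ) * G1 m n x)‖ ∂μ ≤ δ * M := by
    refine ev_int_norm (fun N => bavg_meas N _ fun m n => (hG1m m n).const_mul _) 1
      (fun N x => norm_bavg_le_C N _ 1 zero_le_one fun m n => ?_) ?_ _ (by positivity)
    · rw [norm_mul, Complex.norm_real, Real.norm_of_nonneg (hW0 m n)]
      exact mul_le_one₀ (hW1 m n) (norm_nonneg _) (hG1b m n x)
    · refine exp_int _ hWe G1 hG1m 1 zero_le_one hG1b ?_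
      intro α β hα hβ ε hε
      obtain ⟨A', B', hA', hB', hAB⟩ := habs α β hα hβ
      obtain ⟨N₀, hN₀⟩ := hctl ga hgam hga1 hgao ε hε
      filter_upwards [eventually_ge_atTop N₀] with N hN
      have := hN₀ N hN (fun k x => A' ^ k * F (S^[k] x)) (fun k x => B' ^ k * F (R^[k] x))
        (fun k => (hFm.comp (hSi _)).const_mul _)
        (fun k x => by rw [norm_mul, norm_pow, hA', one_pow, one_mul]; exact hF1 _)
        (fun k => (hFm.comp (hRi _)).const_mul _)
        (fun k x => by rw [norm_mul, norm_pow, hB', one_pow, one_mul]; exact hF1 _)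
      refine le_trans (le_of_eq ?_) this
      refine integral_congr_ae (Eventually.of_forall fun x => ?_)
      simp only [hG1]
      congr 3
      funext m n
      rw [hAB]; ring
  -- error term two
  set G2 : ℕ → ℕ → Ω → ℂ := fun m n x =>
    gb (S^[ψ m n] x) * F (R^[χ m n] x) + b (S^[ψ m n] x) * gc (R^[χ m n] x) with hG2
  have hG2m : ∀ m n, Measurable (G2 m n) := fun m n =>
    ((hgbm.comp (hSi _)).mul (hFm.comp (hRi _))).add ((hbm.comp (hSi _)).mul (hgcm.comp (hRi _)))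
  have hG2b : ∀ m n x, ‖G2 m n x‖ ≤ 2 := by
    intro m n x
    simp only [hG2]
    refine (norm_add_le _ _).trans ?_
    rw [norm_mul, norm_mul]
    have h1 := mul_le_mul (hgb1 (S^[ψ m n] x)) (hF1 (R^[χ m n] x)) (norm_nonneg _) zero_le_one
    have h2 := mul_le_mul (hb1 (S^[ψ m n] x)) (hgc1 (R^[χ m n] x)) (norm_nonneg _) zero_le_one
    linarith
  have hG2lim : ∀ α β : ℂ, ‖α‖ = 1 → ‖β‖ = 1 → ∀ ε > (0 : ℝ), ∀ᶠ N in atTop,
      ∫ x, ‖bavg N (fun m n => (α ^ m * β ^ n) * G2 m n x)‖ ^ 2 ∂μ ≤ ε := by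
    intro α β hα hβ ε hε
    obtain ⟨A', B', hA', hB', hAB⟩ := habs α β hα hβ
    obtain ⟨N₁, hN₁⟩ := control_two hS hgbm hgb1 hgbo s₁ hs₁ hs₁' ψ χ hsh₁ A' hA' (ε / 4)
      (by positivity)
    obtain ⟨N₂, hN₂⟩ := control_two hR hgcm hgc1 hgco s₂ hs₂ hs₂' χ ψ hsh₂ B' hB' (ε / 4)
      (by positivity)
    filter_upwards [eventually_ge_atTop N₁, eventually_ge_atTop N₂] with N h1 h2
    have k1 := hN₁ N h1 (fun k x => B' ^ k * F (R^[k] x)) (fun k => (hFm.comp (hRi _)).const_mul _)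
        (fun k x => by rw [norm_mul, norm_pow, hB', one_pow, one_mul]; exact hF1 _)
    have k2 := hN₂ N h2 (fun k x => A' ^ k * b (S^[k] x)) (fun k => (hbm.comp (hSi _)).const_mul _)
        (fun k x => by rw [norm_mul, norm_pow, hA', one_pow, one_mul]; exact hb1 _)
    set H1 : Ω → ℂ := fun x => bavg N (fun m n => (A' ^ (ψ m n) * gb (S^[ψ m n] x)) *
      (B' ^ (χ m n) * F (R^[χ m n] x))) with hH1
    set H2 : Ω → ℂ := fun x => bavg N (fun m n => (B' ^ (χ m n) * gc (R^[χ m n] x)) *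
      (A' ^ (ψ m n) * b (S^[ψ m n] x))) with hH2
    have hH1m : Measurable H1 := bavg_meas N _ fun m n =>
      ((hgbm.comp (hSi _)).const_mul _).mul ((hFm.comp (hRi _)).const_mul _)
    have hH2m : Measurable H2 := bavg_meas N _ fun m n =>
      ((hgcm.comp (hRi _)).const_mul _).mul ((hbm.comp (hSi _)).const_mul _)
    have hH1b : ∀ x, ‖H1 x‖ ≤ 1 := fun x => norm_bavg_le_C N _ 1 zero_le_one fun m n => by
      rw [norm_mul, norm_mul, norm_mul, norm_pow, norm_pow, hA', hB', one_pow, one_pow, one_mul,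
        one_mul]
      exact mul_le_one₀ (hgb1 _) (norm_nonneg _) (hF1 _)
    have hH2b : ∀ x, ‖H2 x‖ ≤ 1 := fun x => norm_bavg_le_C N _ 1 zero_le_one fun m n => by
      rw [norm_mul, norm_mul, norm_mul, norm_pow, norm_pow, hA', hB', one_pow, one_pow, one_mul,
        one_mul]
      exact mul_le_one₀ (hgc1 _) (norm_nonneg _) (hb1 _)
    have hi1 : Integrable (fun x => ‖H1 x‖ ^ 2) μ :=
      integrable_of_bdd (hH1m.norm.pow_const 2) 1 fun x => by
        rw [Real.norm_of_nonneg (by positivity)]; exact pow_le_one₀ (norm_nonneg _) (hH1b x)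
    have hi2 : Integrable (fun x => ‖H2 x‖ ^ 2) μ :=
      integrable_of_bdd (hH2m.norm.pow_const 2) 1 fun x => by
        rw [Real.norm_of_nonneg (by positivity)]; exact pow_le_one₀ (norm_nonneg _) (hH2b x)
    have hpt : ∀ x, ‖bavg N (fun m n => (α ^ m * β ^ n) * G2 m n x)‖ ^ 2 ≤
        2 * ‖H1 x‖ ^ 2 + 2 * ‖H2 x‖ ^ 2 := by
      intro x
      have e1 : bavg N (fun m n => (α ^ m * β ^ n) * G2 m n x) = H1 x + H2 x := by
        simp only [hH1, hH2]
        rw [← bavg_add]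
        congr 1
        funext m n
        simp only [hG2]
        rw [hAB]; ring
      rw [e1]
      have := pow_le_pow_left₀ (norm_nonneg _) (norm_add_le (H1 x) (H2 x)) 2
      nlinarith [sq_nonneg (‖H1 x‖ - ‖H2 x‖)]
    have hLi : Integrable (fun x => ‖bavg N (fun m n => (α ^ m * β ^ n) * G2 m n x)‖ ^ 2) μ := by
      refine integrable_of_bdd ((bavg_meas N _ fun m n =>
        (hG2m m n).const_mul _).norm.pow_const 2) 4 fun x => ?_
      rw [Real.norm_of_nonneg (by positivity)]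
      refine (hpt x).trans ?_
      have q1 := pow_le_one₀ (norm_nonneg _) (hH1b x) (n := 2)
      have q2 := pow_le_one₀ (norm_nonneg _) (hH2b x) (n := 2)
      linarith
    have hRi' : Integrable (fun x => 2 * ‖H1 x‖ ^ 2 + 2 * ‖H2 x‖ ^ 2) μ :=
      (hi1.const_mul _).add (hi2.const_mul _)
    refine (integral_mono hLi hRi' hpt).trans ?_
    rw [integral_add (hi1.const_mul _) (hi2.const_mul _), integral_const_mul, integral_const_mul]
    linarith
  have ev5 := err_compact hT φ hφ ham ha1 haE G2 hG2m hG2b hG2lim W M hM hW0 hW1 hWe hWM δ hδ0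
  -- choose N
  have hMhalf : ∀ᶠ N in atTop, M / 2 < ravg N W := hWM.eventually (lt_mem_nhds (by linarith))
  have hNlim : ∀ᶠ N : ℕ in atTop, 2 / (N : ℝ) < δ * M :=
    (tendsto_const_div_atTop_nhds_zero_nat 2).eventually (gt_mem_nhds (by positivity))
  obtain ⟨N, hN1, hN2, hN3, hN4, hN5, hN6, hN7, hN8⟩ := (ev1.and (ev2.and (ev3.and (ev4.and
    (ev5.and (hMhalf.and (hNlim.and (eventually_ge_atTop 1)))))))).exists
  have hN0 : (0 : ℝ) < N := by exact_mod_cast hN8
  -- the correlations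
  set P : ℕ → ℕ → ℂ := fun m n =>
    ∫ x, F x * (F (T^[φ m n] x) * F (S^[ψ m n] x) * F (R^[χ m n] x)) ∂μ with hP
  set Q : ℕ → ℕ → ℂ := fun m n =>
    ∫ x, F x * (a (T^[φ m n] x) * b (S^[ψ m n] x) * c (R^[χ m n] x)) ∂μ with hQ
  have hP1 : ∀ m n, ‖P m n‖ ≤ 1 := by
    intro m n
    simp only [hP]
    refine (norm_integral_le_integral_norm _).trans ?_
    have : ∫ x, ‖F x * (F (T^[φ m n] x) * F (S^[ψ m n] x) * F (R^[χ m n] x))‖ ∂μ ≤
        ∫ x, (1 : ℝ) ∂μ := by
      refine integral_mono_of_nonneg (Eventually.of_forall fun x => norm_nonneg _)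
        (integrable_const _) (Eventually.of_forall fun x => ?_)
      simp only [norm_mul]
      exact mul_le_one₀ (hF1 _) (by positivity) (mul_le_one₀ (mul_le_one₀ (hF1 _)
        (norm_nonneg _) (hF1 _)) (norm_nonneg _) (hF1 _))
    simpa using this
  have hP0 : ∀ m n, 1 ≤ m → 1 ≤ n → P m n = 0 := by
    intro m n hm hn
    have h1 := hcon m n hm hn
    have h2 := measure_eq_zero_iff_ae_notMem.1 h1
    simp only [hP]
    have : ∫ x, F x * (F (T^[φ m n] x) * F (S^[ψ m n] x) * F (R^[χ m n] x)) ∂μ =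
        ∫ x, (0 : ℂ) ∂μ := by
      refine integral_congr_ae ?_
      filter_upwards [h2] with x hx
      simp only [hF, cind]
      by_cases q1 : x ∈ A
      · by_cases q2 : T^[φ m n] x ∈ A
        · by_cases q3 : S^[ψ m n] x ∈ A
          · by_cases q4 : R^[χ m n] x ∈ A
            · exact absurd ⟨⟨⟨q1, q2⟩, q3⟩, q4⟩ hx
            · rw [Set.indicator_of_notMem q4]; ring
          · rw [Set.indicator_of_notMem q3]; ring
        · rw [Set.indicator_of_notMem q2]; ring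
      · rw [Set.indicator_of_notMem q1]; ring
    rw [this]; simp
  have hX : ‖bavg N (fun m n => (W m n : ℂ) * P m n)‖ ≤ 2 / N := by
    refine (norm_bavg_le _ _).trans ?_
    have h1 : ∀ m n, ‖(W m n : ℂ) * P m n‖ ≤ (if m = 0 then 1 else 0) + (if n = 0 then 1 else 0) := by
      intro m n
      rw [norm_mul, Complex.norm_real, Real.norm_of_nonneg (hW0 m n)]
      have h2 : W m n * ‖P m n‖ ≤ 1 := mul_le_one₀ (hW1 m n) (norm_nonneg _) (hP1 m n)
      by_cases q1 : m = 0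
      · rw [if_pos q1]
        split_ifs <;> linarith
      · by_cases q2 : n = 0
        · rw [if_pos q2]
          split_ifs; linarith
        · rw [hP0 m n (by omega) (by omega), norm_zero, mul_zero, if_neg q1, if_neg q2, add_zero]
    calc ((N : ℝ) ^ 2)⁻¹ * ∑ m ∈ range N, ∑ n ∈ range N, ‖(W m n : ℂ) * P m n‖
        ≤ ((N : ℝ) ^ 2)⁻¹ * ∑ m ∈ range N, ∑ n ∈ range N,
          ((if m = 0 then 1 else 0) + (if n = 0 then 1 else 0) : ℝ) := by
          gcongr with m _ n _; exact h1 m n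
      _ = ((N : ℝ) ^ 2)⁻¹ * (N * 1 + N * 1) := by
          have hmem : 0 ∈ range N := mem_range.2 hN8
          simp only [Finset.sum_add_distrib, Finset.sum_const, card_range, nsmul_eq_mul,
            Finset.sum_ite_eq', hmem, if_true, ← Finset.mul_sum]
      _ = 2 / N := by field_simp; ring
  -- X - Y
  have hint : ∀ m n, ∀ f₁ f₂ f₃ : Ω → ℂ, Measurable f₁ → Measurable f₂ → Measurable f₃ →
      (∀ x, ‖f₁ x‖ ≤ 1) → (∀ x, ‖f₂ x‖ ≤ 1) → (∀ x, ‖f₃ x‖ ≤ 1) →
      Integrable (fun x => F x * (f₁ (T^[φ m n] x) * f₂ (S^[ψ m n] x) * f₃ (R^[χ m n] x))) μ := by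
    intro m n f₁ f₂ f₃ m₁ m₂ m₃ n₁ n₂ n₃
    refine Integrable.of_bound (hFm.mul (((m₁.comp (hTi _)).mul (m₂.comp (hSi _))).mul
      (m₃.comp (hRi _)))).aestronglyMeasurable 1 (Eventually.of_forall fun x => ?_)
    simp only [norm_mul]
    exact mul_le_one₀ (hF1 _) (by positivity) (mul_le_one₀ (mul_le_one₀ (n₁ _)
        (norm_nonneg _) (n₂ _)) (norm_nonneg _) (n₃ _))
  have hXY : ‖bavg N (fun m n => (W m n : ℂ) * P m n) - bavg N (fun m n => (W m n : ℂ) * Q m n)‖ ≤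
      2 * (δ * M) := by
    have e1 : bavg N (fun m n => (W m n : ℂ) * P m n) - bavg N (fun m n => (W m n : ℂ) * Q m n) =
        ∫ x, F x * (bavg N (fun m n => (W m n : ℂ) * G1 m n x) +
          bavg N (fun m n => (W m n : ℂ) * (a (T^[φ m n] x) * G2 m n x))) ∂μ := by
      rw [← bavg_sub]
      have e2 : ∀ m n, (W m n : ℂ) * P m n - (W m n : ℂ) * Q m n =
          ∫ x, (W m n : ℂ) * (F x * (G1 m n x + a (T^[φ m n] x) * G2 m n x)) ∂μ := by
        intro m n
        rw [← mul_sub, integral_const_mul]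
        congr 1
        simp only [hP, hQ]
        rw [← integral_sub (hint m n F F F hFm hFm hFm hF1 hF1 hF1)
          (hint m n a b c ham hbm hcm ha1 hb1 hc1)]
        refine integral_congr_ae (Eventually.of_forall fun x => ?_)
        simp only [hG1, hG2, hga, hgb, hgc]
        ring
      simp_rw [e2]
      have hi : ∀ m n, Integrable (fun x => (W m n : ℂ) *
          (F x * (G1 m n x + a (T^[φ m n] x) * G2 m n x))) μ := by
        intro m n
        refine Integrable.of_bound (Measurable.const_mul (hFm.mul ((hG1m m n).add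
          ((ham.comp (hTi _)).mul (hG2m m n)))) _).aestronglyMeasurable 3
          (Eventually.of_forall fun x => ?_)
        rw [norm_mul, norm_mul, Complex.norm_real, Real.norm_of_nonneg (hW0 m n)]
        have q1 : ‖G1 m n x + a (T^[φ m n] x) * G2 m n x‖ ≤ 3 := by
          refine (norm_add_le _ _).trans ?_
          rw [norm_mul (a (T^[φ m n] x))]
          have := mul_le_mul (ha1 (T^[φ m n] x)) (hG2b m n x) (norm_nonneg _) zero_le_one
          linarith [hG1b m n x]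
        have q2 := mul_le_mul (hF1 x) q1 (norm_nonneg _) zero_le_one
        have q3 := mul_le_mul (hW1 m n) q2 (by positivity) zero_le_one
        linarith
      rw [← bavg_integral N _ hi]
      refine integral_congr_ae (Eventually.of_forall fun x => ?_)
      simp only
      rw [← bavg_add, ← bavg_smul]
      congr 1
      funext m n; ring
    rw [e1]
    refine (norm_integral_le_integral_norm _).trans ?_
    have iB1 : Integrable (fun x => ‖bavg N (fun m n => (W m n : ℂ) * G1 m n x)‖) μ :=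
      integrable_of_bdd (bavg_meas N _ fun m n => (hG1m m n).const_mul _).norm 1 fun x => by
        rw [norm_norm]
        refine norm_bavg_le_C N _ 1 zero_le_one fun m n => ?_
        rw [norm_mul, Complex.norm_real, Real.norm_of_nonneg (hW0 m n)]
        exact mul_le_one₀ (hW1 m n) (norm_nonneg _) (hG1b m n x)
    have iB2 : Integrable (fun x => ‖bavg N (fun m n => (W m n : ℂ) *
        (a (T^[φ m n] x) * G2 m n x))‖) μ :=
      integrable_of_bdd (bavg_meas N _ fun m n =>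
        ((ham.comp (hTi _)).mul (hG2m m n)).const_mul _).norm 2 fun x => by
        rw [norm_norm]
        refine norm_bavg_le_C N _ 2 (by norm_num) fun m n => ?_
        rw [norm_mul, norm_mul, Complex.norm_real, Real.norm_of_nonneg (hW0 m n)]
        have q2 := mul_le_mul (ha1 (T^[φ m n] x)) (hG2b m n x) (norm_nonneg _) zero_le_one
        have q3 := mul_le_mul (hW1 m n) q2 (by positivity) zero_le_one
        linarith
    have hmono : ∫ x, ‖F x * (bavg N (fun m n => (W m n : ℂ) * G1 m n x) +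
          bavg N (fun m n => (W m n : ℂ) * (a (T^[φ m n] x) * G2 m n x)))‖ ∂μ ≤
        ∫ x, (‖bavg N (fun m n => (W m n : ℂ) * G1 m n x)‖ +
          ‖bavg N (fun m n => (W m n : ℂ) * (a (T^[φ m n] x) * G2 m n x))‖) ∂μ := by
      refine integral_mono_of_nonneg (Eventually.of_forall fun x => norm_nonneg _)
        (iB1.add iB2) (Eventually.of_forall fun x => ?_)
      simp only
      rw [norm_mul]
      refine (mul_le_of_le_one_left (norm_nonneg _) (hF1 x)).trans (norm_add_le _ _)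
    rw [integral_add iB1 iB2] at hmono
    linarith
  -- Y versus c0
  have hc0c : (c0 : ℂ) = ∫ x, F x * (a x * b x * c x) ∂μ := by
    rw [hc0, ← integral_complex_ofReal]
    refine integral_congr_ae (Eventually.of_forall fun x => ?_)
    have : F x = (((F x).re : ℝ) : ℂ) := by
      apply Complex.ext
      · simp
      · simpa using (cind_I01 A x).2.2
    simp only [ha, hb, hc]
    rw [this]
    push_cast
    simp
  have hQc : ∀ m n, ‖Q m n - c0‖ ≤
      ‖(koop hT ^ (φ m n)) ((memLp_bdd (μ := μ) ham ha1).toLp a) -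
        (memLp_bdd (μ := μ) ham ha1).toLp a‖ +
      ‖(koop hS ^ (ψ m n)) ((memLp_bdd (μ := μ) hbm hb1).toLp b) -
        (memLp_bdd (μ := μ) hbm hb1).toLp b‖ +
      ‖(koop hR ^ (χ m n)) ((memLp_bdd (μ := μ) hcm hc1).toLp c) -
        (memLp_bdd (μ := μ) hcm hc1).toLp c‖ := by
    intro m n
    have d1 := disp_int hT (memLp_bdd (μ := μ) ham ha1) (φ m n)
    have d2 := disp_int hS (memLp_bdd (μ := μ) hbm hb1) (ψ m n)
    have d3 := disp_int hR (memLp_bdd (μ := μ) hcm hc1) (χ m n)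
    have iabc : Integrable (fun x => F x * (a x * b x * c x)) μ := by
      refine Integrable.of_bound (hFm.mul ((ham.mul hbm).mul hcm)).aestronglyMeasurable 1
        (Eventually.of_forall fun x => ?_)
      simp only [norm_mul]
      exact mul_le_one₀ (hF1 _) (by positivity) (mul_le_one₀ (mul_le_one₀ (ha1 _)
        (norm_nonneg _) (hb1 _)) (norm_nonneg _) (hc1 _))
    have j1 : Integrable (fun x => ‖a (T^[φ m n] x) - a x‖) μ :=
      integrable_of_bdd ((ham.comp (hTi _)).sub ham).norm 2 fun x => by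
        rw [norm_norm]; exact (norm_sub_le _ _).trans (by linarith [ha1 (T^[φ m n] x), ha1 x])
    have j2 : Integrable (fun x => ‖b (S^[ψ m n] x) - b x‖) μ :=
      integrable_of_bdd ((hbm.comp (hSi _)).sub hbm).norm 2 fun x => by
        rw [norm_norm]; exact (norm_sub_le _ _).trans (by linarith [hb1 (S^[ψ m n] x), hb1 x])
    have j3 : Integrable (fun x => ‖c (R^[χ m n] x) - c x‖) μ :=
      integrable_of_bdd ((hcm.comp (hRi _)).sub hcm).norm 2 fun x => by
        rw [norm_norm]; exact (norm_sub_le _ _).trans (by linarith [hc1 (R^[χ m n] x), hc1 x])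
    rw [hc0c]
    simp only [hQ]
    rw [← integral_sub (hint m n a b c ham hbm hcm ha1 hb1 hc1) iabc]
    refine (norm_integral_le_integral_norm _).trans ?_
    have hmono : ∫ x, ‖F x * (a (T^[φ m n] x) * b (S^[ψ m n] x) * c (R^[χ m n] x)) -
        F x * (a x * b x * c x)‖ ∂μ ≤ ∫ x, (‖a (T^[φ m n] x) - a x‖ + ‖b (S^[ψ m n] x) - b x‖ +
          ‖c (R^[χ m n] x) - c x‖) ∂μ := by
      refine integral_mono_of_nonneg (Eventually.of_forall fun x => norm_nonneg _)
        ((j1.add j2).add j3) (Eventually.of_forall fun x => ?_)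
      simp only
      rw [← mul_sub, norm_mul]
      refine (mul_le_of_le_one_left (norm_nonneg _) (hF1 x)).trans ?_
      have e1 : a (T^[φ m n] x) * b (S^[ψ m n] x) * c (R^[χ m n] x) - a x * b x * c x =
          (a (T^[φ m n] x) - a x) * (b (S^[ψ m n] x) * c (R^[χ m n] x)) +
          (b (S^[ψ m n] x) - b x) * (a x * c (R^[χ m n] x)) +
          (c (R^[χ m n] x) - c x) * (a x * b x) := by ring
      rw [e1]
      refine (norm_add₃_le).trans ?_
      rw [norm_mul, norm_mul, norm_mul, norm_mul, norm_mul, norm_mul]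
      refine add_le_add (add_le_add ?_ ?_) ?_
      · exact mul_le_of_le_one_right (norm_nonneg _) (mul_le_one₀ (hb1 _) (norm_nonneg _) (hc1 _))
      · exact mul_le_of_le_one_right (norm_nonneg _) (mul_le_one₀ (ha1 _) (norm_nonneg _) (hc1 _))
      · exact mul_le_of_le_one_right (norm_nonneg _) (mul_le_one₀ (ha1 _) (norm_nonneg _) (hb1 _))
    have j12 : Integrable (fun x => ‖a (T^[φ m n] x) - a x‖ + ‖b (S^[ψ m n] x) - b x‖) μ :=
      j1.add j2
    rw [integral_add j12 j3, integral_add j1 j2] at hmono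
    linarith
  have hY : ‖bavg N (fun m n => (W m n : ℂ) * Q m n) - ((ravg N W : ℝ) : ℂ) * c0‖ ≤
      3 * (δ * M) := by
    have e1 : ((ravg N W : ℝ) : ℂ) * c0 = bavg N (fun m n => (W m n : ℂ) * c0) := by
      unfold bavg ravg
      push_cast
      simp only [← Finset.sum_mul]
      ring
    rw [e1, ← bavg_sub]
    refine (norm_bavg_le _ _).trans ?_
    have e2 : ((N : ℝ) ^ 2)⁻¹ * ∑ m ∈ range N, ∑ n ∈ range N,
        ‖(W m n : ℂ) * Q m n - (W m n : ℂ) * c0‖ ≤
        ravg N (fun m n => (W m n * ‖(koop hT ^ (φ m n)) ((memLp_bdd (μ := μ) ham ha1).toLp a) -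
        (memLp_bdd (μ := μ) ham ha1).toLp a‖ +
        W m n * ‖(koop hS ^ (ψ m n)) ((memLp_bdd (μ := μ) hbm hb1).toLp b) -
        (memLp_bdd (μ := μ) hbm hb1).toLp b‖) +
        W m n * ‖(koop hR ^ (χ m n)) ((memLp_bdd (μ := μ) hcm hc1).toLp c) -
        (memLp_bdd (μ := μ) hcm hc1).toLp c‖) := by
      unfold ravg
      gcongr with m _ n _
      rw [← mul_sub, norm_mul, Complex.norm_real, Real.norm_of_nonneg (hW0 m n)]
      have := mul_le_mul_of_nonneg_left (hQc m n) (hW0 m n)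
      linarith
    refine e2.trans ?_
    rw [ravg_add, ravg_add]
    linarith
  -- conclusion
  have hfin : ‖((ravg N W : ℝ) : ℂ) * c0‖ ≤ 6 * (δ * M) := by
    have t1 := norm_sub_norm_le (((ravg N W : ℝ) : ℂ) * c0) (bavg N (fun m n => (W m n : ℂ) * Q m n))
    rw [norm_sub_rev] at t1
    have t2 := norm_sub_norm_le (bavg N (fun m n => (W m n : ℂ) * Q m n))
      (bavg N (fun m n => (W m n : ℂ) * P m n))
    rw [norm_sub_rev] at t2
    have : δ * M > 0 := by positivity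
    linarith
  have hval : ‖((ravg N W : ℝ) : ℂ) * c0‖ = ravg N W * c0 := by
    rw [norm_mul, Complex.norm_real, Complex.norm_real, Real.norm_of_nonneg hc0pos.le,
      Real.norm_of_nonneg (le_of_lt (lt_trans (by positivity) hN6))]
  rw [hval, hδ] at hfin
  have : M / 2 * c0 < ravg N W * c0 := mul_lt_mul_of_pos_right hN6 hc0pos
  have : 0 < c0 * M := by positivity
  linarith

end

end Pool.Agent.Helper498.NCR
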